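import Pool.Agent.H16.Dav.Defs

/-!
# A lemma on indefinite binary forms

MODULE D9.  `f (m, n) = (m s + n s') (m t + n t')` is an indefinite binary form of discriminant
`Δ = (s t' - s' t)^2 < 145.8 = 5 * 5.4^2`, all its values at nonzero integer points are either `≥ 5.4`
in absolute value or have square `29`.  Then in some basis it is `± √29 (m² + m n - n²)`.

Proof.
(1) There is `(m,n) ≠ 0` with `|f| < 5.4` (Hurwitz).  Suppose not; let `μ ≥ 5.4` be the infimum of
`|f|` at nonzero integer points, `0 < ε < 1` so small that `((1-ε)^2 + 4) * 5.4^2 > Δ`.  Choose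
`|f(m,n)| < (1+ε) μ`; then `(m,n)` is primitive; in a basis beginning with it and after `f → -f` and
a shift, `f = A m² + B m n + C n²`, `μ ≤ A < (1+ε) μ`, `|B| ≤ A`, w.l.o.g. `0 ≤ B`, and `|C| ≥ μ`.
`C > 0` would give `Δ = B² - 4 A C ≤ A² - 4 A μ < 0`.  So `C < 0`; put `δ = -C - A ≥ -ε μ`.
`f(1,1) = B - δ`, so `|B - δ| ≥ μ`.  If `B - δ ≥ μ` then `B ≥ (1-ε) μ` and
`Δ = B² + 4 A (-C) ≥ ((1-ε)² + 4) μ²`; if `B - δ ≤ -μ` then `-C ≥ A + μ ≥ 2μ`, `Δ ≥ 8 μ²`.
Both contradict the choice of `ε`.
(2) So some primitive `(m,n)` has `f² = 29` (if `(m,n) = k (m',n')` with `|k| ≥ 2` then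
`|f(m',n')| < 5.4` has square `29` and `f(m,n)` would be `≥ 4 √29`).  In a basis beginning with it,
after `f → -f` and a shift: `A = √29`, `|B| ≤ A`, w.l.o.g. `B ≥ 0` (`n → -n`).  `C ≠ 0`; `C > 0` would
give `4 A C < B² ≤ A²`, `C < A/4`, but then `C² = 29`, contradiction.  So `C < 0`,
`4 A |C| ≤ Δ < 145.8` gives `|C| < 6.77`.  Put `δ = |C| - A`.  If `|C| ≥ 5.4` then
`0 < δ < 1.4` and `B - δ = f(1,1)` lies in `(-1.4, √29)`, so `|f(1,1)| < √29`, impossible.  So
`|C| = √29`, `f(1,1) = B`, `|B| ≤ √29 < 5.4`, so `B = √29`.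
(3) So with the new basis `(S,T)`, `(S',T')`: `θ = S'/S`, `θ' = T'/T` satisfy `θ + θ' = ±1`,
`θ θ' = -1`.  Changing the sign of the second vector, `θ + θ' = 1`, so `{θ,θ'} = {φ, ψ}`; if
`θ = ψ` replace the second vector by (first - second).
-/

namespace Pool.Agent.H16.Dav

/-- completing a primitive vector to a reduced basis -/
private lemma exists_basis (s t s' t' : ℝ) (a b : ℤ) (hab : IsCoprime a b)
    (hA : (a * s + b * s') * (a * t + b * t') ≠ 0) :
    ∃ c d : ℤ, (a * d - b * c = 1 ∨ a * d - b * c = -1) ∧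
      0 ≤ (a * s + b * s') * (c * t + d * t') + (c * s + d * s') * (a * t + b * t') ∧
      (a * s + b * s') * (c * t + d * t') + (c * s + d * s') * (a * t + b * t') ≤
        |(a * s + b * s') * (a * t + b * t')| := by
  obtain ⟨u, v, huv⟩ := hab
  set A : ℝ := (a * s + b * s') * (a * t + b * t') with hAdef
  set B0 : ℝ := (a * s + b * s') * (-v * t + u * t') + (-v * s + u * s') * (a * t + b * t')
    with hB0
  set k : ℤ := round (-B0 / (2 * A)) with hk
  have h1 : |B0 + 2 * k * A| ≤ |A| := by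
    have h2 := abs_sub_round (-B0 / (2 * A))
    rw [← hk] at h2
    have h3 : B0 + 2 * k * A = -(2 * A) * (-B0 / (2 * A) - k) := by
      field_simp
      ring
    rw [h3, abs_mul, abs_neg, abs_mul, abs_of_pos (by norm_num : (0:ℝ) < 2)]
    nlinarith [abs_nonneg A]
  have hB : (a * s + b * s') * (((-v + k * a : ℤ) : ℝ) * t + ((u + k * b : ℤ) : ℝ) * t') +
      (((-v + k * a : ℤ) : ℝ) * s + ((u + k * b : ℤ) : ℝ) * s') * (a * t + b * t') =
      B0 + 2 * k * A := by
    rw [hB0, hAdef]; push_cast; ring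
  rcases le_total 0 (B0 + 2 * k * A) with h0 | h0
  · refine ⟨-v + k * a, u + k * b, Or.inl ?_, ?_, ?_⟩
    · linear_combination huv
    · rw [hB]; exact h0
    · rw [hB]; exact (abs_le.1 h1).2
  · refine ⟨-(-v + k * a), -(u + k * b), Or.inr ?_, ?_, ?_⟩
    · linear_combination -huv
    · have e : (a * s + b * s') * (((-(-v + k * a) : ℤ) : ℝ) * t + ((-(u + k * b) : ℤ) : ℝ) * t') +
        (((-(-v + k * a) : ℤ) : ℝ) * s + ((-(u + k * b) : ℤ) : ℝ) * s') * (a * t + b * t') =
        -(B0 + 2 * k * A) := by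
        rw [← hB]; push_cast; ring
      rw [e]; linarith
    · have e : (a * s + b * s') * (((-(-v + k * a) : ℤ) : ℝ) * t + ((-(u + k * b) : ℤ) : ℝ) * t') +
        (((-(-v + k * a) : ℤ) : ℝ) * s + ((-(u + k * b) : ℤ) : ℝ) * s') * (a * t + b * t') =
        -(B0 + 2 * k * A) := by
        rw [← hB]; push_cast; ring
      rw [e]; linarith [(abs_le.1 h1).1]

/-- dividing out the gcd -/
private lemma exists_prim (s t s' t' : ℝ) (m n : ℤ) (h : (m, n) ≠ (0, 0)) :
    ∃ a b g : ℤ, IsCoprime a b ∧ g ≠ 0 ∧ m = g * a ∧ n = g * b ∧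
      (m * s + n * s') * (m * t + n * t') = g ^ 2 * ((a * s + b * s') * (a * t + b * t')) := by
  have hg : Int.gcd m n ≠ 0 := by
    intro h0
    rw [Int.gcd_eq_zero_iff] at h0
    exact h (by rw [h0.1, h0.2])
  obtain ⟨a, ha⟩ := Int.gcd_dvd_left m n
  obtain ⟨b, hb⟩ := Int.gcd_dvd_right m n
  refine ⟨a, b, (Int.gcd m n : ℤ), ?_, by exact_mod_cast hg, ha, hb, ?_⟩
  · rw [Int.isCoprime_iff_gcd_eq_one]
    have h1 : a = m / (Int.gcd m n : ℤ) := by
      rw [Int.eq_ediv_of_mul_eq_right (by exact_mod_cast hg) ha.symm]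
    have h2 : b = n / (Int.gcd m n : ℤ) := by
      rw [Int.eq_ediv_of_mul_eq_right (by exact_mod_cast hg) hb.symm]
    rw [h1, h2]
    exact Int.gcd_div_gcd_div_gcd (Nat.pos_of_ne_zero hg)
  · have ha' : (m : ℝ) = (Int.gcd m n : ℤ) * (a : ℝ) := by exact_mod_cast ha
    have hb' : (n : ℝ) = (Int.gcd m n : ℤ) * (b : ℝ) := by exact_mod_cast hb
    rw [ha', hb']
    ring

/-- Hurwitz: a small value exists -/
private lemma exists_small (s t s' t' : ℝ) (hΔ : (s * t' - s' * t) ^ 2 < 145.8) :
    ∃ m n : ℤ, (m, n) ≠ (0, 0) ∧ |(m * s + n * s') * (m * t + n * t')| < 5.4 := by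
  by_contra hcon
  push Not at hcon
  set X : Set ℝ := {x | ∃ m n : ℤ, (m, n) ≠ (0, 0) ∧ x = |(m * s + n * s') * (m * t + n * t')|}
    with hX
  have hne : X.Nonempty := ⟨_, 1, 0, by simp, rfl⟩
  have hbd : BddBelow X := ⟨5.4, by
    rintro x ⟨m, n, hmn, rfl⟩
    exact hcon m n hmn⟩
  set μ : ℝ := sInf X with hμ
  have hμ54 : 5.4 ≤ μ := le_csInf hne (by
    rintro x ⟨m, n, hmn, rfl⟩
    exact hcon m n hmn)
  have hlow : ∀ m n : ℤ, (m, n) ≠ (0, 0) → μ ≤ |(m * s + n * s') * (m * t + n * t')| :=
    fun m n h => csInf_le hbd ⟨m, n, h, rfl⟩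
  obtain ⟨ε, hε0, hε1, hε⟩ : ∃ ε : ℝ, 0 < ε ∧ ε ≤ 1 / 2 ∧
      (s * t' - s' * t) ^ 2 < ((1 - ε) ^ 2 + 4) * 5.4 ^ 2 := by
    refine ⟨min (1 / 2) ((145.8 - (s * t' - s' * t) ^ 2) / 60), ?_, min_le_left _ _, ?_⟩
    · apply lt_min (by norm_num)
      apply div_pos _ (by norm_num)
      linarith
    · set e := min (1 / 2) ((145.8 - (s * t' - s' * t) ^ 2) / 60) with he
      have h1 : e ≤ (145.8 - (s * t' - s' * t) ^ 2) / 60 := min_le_right _ _
      have h0 : 0 < e := lt_min (by norm_num) (div_pos (by linarith) (by norm_num))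
      nlinarith [sq_nonneg e]
  obtain ⟨x, ⟨m, n, hmn, rfl⟩, hx⟩ := exists_lt_of_csInf_lt hne
    (show sInf X < (1 + ε) * μ by rw [← hμ]; nlinarith)
  obtain ⟨a, b, g, hab, hg, hm, hn, hgf⟩ := exists_prim s t s' t' m n hmn
  have hab0 : (a, b) ≠ (0, 0) := by
    intro h
    rw [Prod.mk.injEq] at h
    rw [h.1, h.2] at hab
    exact absurd hab (by simp [IsCoprime])
  -- the primitive vector itself is good
  have hgood : |(a * s + b * s') * (a * t + b * t')| < (1 + ε) * μ := by
    refine lt_of_le_of_lt ?_ hx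
    rw [hgf, abs_mul ((g:ℝ) ^ 2)]
    have : (1:ℝ) ≤ |(g:ℝ) ^ 2| := by
      rw [abs_of_nonneg (sq_nonneg _)]
      have : (1:ℤ) ≤ g ^ 2 := by
        have := Int.one_le_abs hg
        rw [← sq_abs]; nlinarith
      exact_mod_cast this
    nlinarith [abs_nonneg ((a * s + b * s') * (a * t + b * t'))]
  have hAμ := hlow a b hab0
  have hA0 : (a * s + b * s') * (a * t + b * t') ≠ 0 := by
    intro h
    rw [h, abs_zero] at hAμ
    linarith
  obtain ⟨c, d, hdet, hB0, hB1⟩ := exists_basis s t s' t' a b hab hA0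
  have hdet2 : ((a : ℝ) * d - b * c) ^ 2 = 1 := by
    rcases hdet with h | h
    · have : (a : ℝ) * d - b * c = 1 := by exact_mod_cast h
      rw [this]; norm_num
    · have : (a : ℝ) * d - b * c = -1 := by exact_mod_cast h
      rw [this]; norm_num
  have hdet0 : a * d - b * c ≠ 0 := by rcases hdet with h | h <;> rw [h] <;> norm_num
  have hcd0 : (c, d) ≠ (0, 0) := by
    intro h
    rw [Prod.mk.injEq] at h
    rw [h.1, h.2] at hdet0
    simp at hdet0
  have hpl0 : (a + c, b + d) ≠ (0, 0) := by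
    intro h
    rw [Prod.mk.injEq] at h
    apply hdet0
    have h1 : c = -a := by linarith [h.1]
    have h2 : d = -b := by linarith [h.2]
    rw [h1, h2]; ring
  have hmi0 : (a - c, b - d) ≠ (0, 0) := by
    intro h
    rw [Prod.mk.injEq] at h
    apply hdet0
    have h1 : c = a := by linarith [h.1]
    have h2 : d = b := by linarith [h.2]
    rw [h1, h2]; ring
  have hCμ := hlow c d hcd0
  have hPμ := hlow (a + c) (b + d) hpl0
  have hMμ := hlow (a - c) (b - d) hmi0
  have hD : (s * t' - s' * t) ^ 2 =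
      ((a * s + b * s') * (c * t + d * t') + (c * s + d * s') * (a * t + b * t')) ^ 2 -
      4 * ((a * s + b * s') * (a * t + b * t')) * ((c * s + d * s') * (c * t + d * t')) := by
    have : ((a * s + b * s') * (c * t + d * t') + (c * s + d * s') * (a * t + b * t')) ^ 2 -
      4 * ((a * s + b * s') * (a * t + b * t')) * ((c * s + d * s') * (c * t + d * t')) =
      ((a : ℝ) * d - b * c) ^ 2 * (s * t' - s' * t) ^ 2 := by ring
    rw [this, hdet2, one_mul]
  have eP : (((a + c : ℤ) : ℝ) * s + ((b + d : ℤ) : ℝ) * s') *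
      (((a + c : ℤ) : ℝ) * t + ((b + d : ℤ) : ℝ) * t') =
      (a * s + b * s') * (a * t + b * t') +
      ((a * s + b * s') * (c * t + d * t') + (c * s + d * s') * (a * t + b * t')) +
      (c * s + d * s') * (c * t + d * t') := by push_cast; ring
  have eM : (((a - c : ℤ) : ℝ) * s + ((b - d : ℤ) : ℝ) * s') *
      (((a - c : ℤ) : ℝ) * t + ((b - d : ℤ) : ℝ) * t') =
      (a * s + b * s') * (a * t + b * t') -
      ((a * s + b * s') * (c * t + d * t') + (c * s + d * s') * (a * t + b * t')) +
      (c * s + d * s') * (c * t + d * t') := by push_cast; ring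
  rw [eP] at hPμ
  rw [eM] at hMμ
  rw [hD] at hε
  have hDnn : 0 ≤ ((a * s + b * s') * (c * t + d * t') + (c * s + d * s') * (a * t + b * t')) ^ 2 -
      4 * ((a * s + b * s') * (a * t + b * t')) * ((c * s + d * s') * (c * t + d * t')) := by
    rw [← hD]; positivity
  generalize (a * s + b * s') * (a * t + b * t') = A at *
  generalize (a * s + b * s') * (c * t + d * t') + (c * s + d * s') * (a * t + b * t') = B at *
  generalize (c * s + d * s') * (c * t + d * t') = C at *
  clear hX hne hbd hlow hx hgf hD eP eM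
  have hμ29 : (5.4:ℝ) ^ 2 ≤ μ ^ 2 := by nlinarith
  have hfac : 0 ≤ (1 - ε) ^ 2 + 4 := by positivity
  have hkey : ∀ A C : ℝ, 0 < A → μ ≤ |A| → |A| < (1 + ε) * μ → B ≤ |A| → μ ≤ |C| →
      (μ ≤ |A + B + C|) → 0 ≤ B ^ 2 - 4 * A * C →
      B ^ 2 - 4 * A * C < ((1 - ε) ^ 2 + 4) * 5.4 ^ 2 → False := by
    intro A C hA hA1 hA2 hB1 hC hP hDnn hε
    rw [abs_of_pos hA] at hA1 hA2 hB1
    have hlt : B ^ 2 - 4 * A * C < ((1 - ε) ^ 2 + 4) * μ ^ 2 :=
      lt_of_lt_of_le hε (mul_le_mul_of_nonneg_left hμ29 hfac)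
    rcases le_or_gt 0 C with hC0 | hC0
    · rw [abs_of_nonneg hC0] at hC
      have h1 : B ^ 2 ≤ A ^ 2 := pow_le_pow_left₀ hB0 hB1 2
      have h2 : A * μ ≤ A * C := mul_le_mul_of_nonneg_left hC hA.le
      have h3 : A < 1.5 * μ := by nlinarith
      have h4 : A * A < A * (1.5 * μ) := mul_lt_mul_of_pos_left h3 hA
      nlinarith [mul_pos hA (by linarith : (0:ℝ) < μ)]
    · rw [abs_of_neg hC0] at hC
      rcases le_abs.1 hP with h | h
      · have h1 : (1 - ε) * μ ≤ B := by nlinarith
        have h2 : ((1 - ε) * μ) ^ 2 ≤ B ^ 2 := by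
          apply pow_le_pow_left₀ _ h1
          apply mul_nonneg <;> linarith
        have h3 : μ * μ ≤ A * (-C) := mul_le_mul hA1 hC (by linarith) hA.le
        nlinarith
      · have h1 : 2 * μ ≤ -C := by linarith
        have h3 : μ * (2 * μ) ≤ A * (-C) := mul_le_mul hA1 h1 (by linarith) hA.le
        have h4 : (1 - ε) ^ 2 ≤ 1 := by nlinarith
        nlinarith [sq_nonneg B, sq_nonneg μ]
  rcases lt_or_gt_of_ne hA0 with hA | hA
  · refine hkey (-A) (-C) (by linarith) (by rwa [abs_neg]) (by rwa [abs_neg]) (by rwa [abs_neg])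
      (by rwa [abs_neg]) ?_ ?_ ?_
    · rw [show -A + B + -C = -(A - B + C) by ring, abs_neg]; exact hMμ
    · linarith
    · linarith
  · exact hkey A C hA hAμ hgood hB1 hCμ hPμ hDnn hε

/-- the main step for `A > 0` -/
private lemma main_pos (s t s' t' : ℝ) (hΔ : (s * t' - s' * t) ^ 2 < 145.8)
    (hval : ∀ m n : ℤ, (m, n) ≠ (0, 0) →
      |(m * s + n * s') * (m * t + n * t')| < 5.4 → ((m * s + n * s') * (m * t + n * t')) ^ 2 = 29)
    (a b : ℤ) (hab : IsCoprime a b) (hpos : 0 < (a * s + b * s') * (a * t + b * t'))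
    (h29 : ((a * s + b * s') * (a * t + b * t')) ^ 2 = 29) :
    ∃ c d : ℤ, (a * d - b * c = 1 ∨ a * d - b * c = -1) ∧
      c * s + d * s' = Real.goldenRatio * (a * s + b * s') ∧
      c * t + d * t' = Real.goldenConj * (a * t + b * t') := by
  obtain ⟨c, d, hdet, hB0, hB1⟩ := exists_basis s t s' t' a b hab hpos.ne'
  have hdet2 : ((a : ℝ) * d - b * c) ^ 2 = 1 := by
    rcases hdet with h | h
    · have : (a : ℝ) * d - b * c = 1 := by exact_mod_cast h
      rw [this]; norm_num
    · have : (a : ℝ) * d - b * c = -1 := by exact_mod_cast h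
      rw [this]; norm_num
  have hdet0 : a * d - b * c ≠ 0 := by rcases hdet with h | h <;> rw [h] <;> norm_num
  have hcd0 : (c, d) ≠ (0, 0) := by
    intro h
    rw [Prod.mk.injEq] at h
    rw [h.1, h.2] at hdet0
    simp at hdet0
  have hpl0 : (a + c, b + d) ≠ (0, 0) := by
    intro h
    rw [Prod.mk.injEq] at h
    apply hdet0
    have h1 : c = -a := by linarith [h.1]
    have h2 : d = -b := by linarith [h.2]
    rw [h1, h2]; ring
  have hCv := hval c d hcd0
  have hPv := hval (a + c) (b + d) hpl0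
  have hD : (s * t' - s' * t) ^ 2 =
      ((a * s + b * s') * (c * t + d * t') + (c * s + d * s') * (a * t + b * t')) ^ 2 -
      4 * ((a * s + b * s') * (a * t + b * t')) * ((c * s + d * s') * (c * t + d * t')) := by
    have : ((a * s + b * s') * (c * t + d * t') + (c * s + d * s') * (a * t + b * t')) ^ 2 -
      4 * ((a * s + b * s') * (a * t + b * t')) * ((c * s + d * s') * (c * t + d * t')) =
      ((a : ℝ) * d - b * c) ^ 2 * (s * t' - s' * t) ^ 2 := by ring
    rw [this, hdet2, one_mul]
  have eP : (((a + c : ℤ) : ℝ) * s + ((b + d : ℤ) : ℝ) * s') *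
      (((a + c : ℤ) : ℝ) * t + ((b + d : ℤ) : ℝ) * t') =
      (a * s + b * s') * (a * t + b * t') +
      ((a * s + b * s') * (c * t + d * t') + (c * s + d * s') * (a * t + b * t')) +
      (c * s + d * s') * (c * t + d * t') := by push_cast; ring
  rw [eP] at hPv
  have hDnn : 0 ≤ ((a * s + b * s') * (c * t + d * t') + (c * s + d * s') * (a * t + b * t')) ^ 2 -
      4 * ((a * s + b * s') * (a * t + b * t')) * ((c * s + d * s') * (c * t + d * t')) := by
    rw [← hD]; positivity
  have hDlt : ((a * s + b * s') * (c * t + d * t') + (c * s + d * s') * (a * t + b * t')) ^ 2 -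
      4 * ((a * s + b * s') * (a * t + b * t')) * ((c * s + d * s') * (c * t + d * t')) < 145.8 := by
    rw [← hD]; exact hΔ
  have hmain : (a * s + b * s') * (c * t + d * t') + (c * s + d * s') * (a * t + b * t') =
      (a * s + b * s') * (a * t + b * t') ∧
      (c * s + d * s') * (c * t + d * t') = -((a * s + b * s') * (a * t + b * t')) := by
    generalize (a * s + b * s') * (a * t + b * t') = A at *
    generalize (a * s + b * s') * (c * t + d * t') + (c * s + d * s') * (a * t + b * t') = B at *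
    generalize (c * s + d * s') * (c * t + d * t') = C at *
    rw [abs_of_pos hpos] at hB1
    have hAlo : 5.385 < A := by nlinarith
    have hAhi : A < 5.3852 := by nlinarith
    have hCneg : C < 0 := by
      by_contra hC
      push Not at hC
      have h1 : 4 * C ≤ A := by
        by_contra hcon
        push Not at hcon
        nlinarith
      have h2 : |C| < 5.4 := by rw [abs_of_nonneg hC]; linarith
      have h3 := hCv h2
      nlinarith
    have hC677 : -C < 6.77 := by
      by_contra hcon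
      push Not at hcon
      nlinarith [sq_nonneg B]
    have hC54 : -C < 5.4 := by
      by_contra hcon
      push Not at hcon
      have h1 : |A + B + C| < 5.385 := by
        rw [abs_lt]; constructor <;> linarith
      have h2 := hPv (by linarith)
      rw [← sq_abs] at h2
      nlinarith [abs_nonneg (A + B + C)]
    have hC29 := hCv (by rw [abs_of_neg hCneg]; exact hC54)
    have hCA : C = -A := by
      have : (C - A) * (C + A) = 0 := by nlinarith
      rcases mul_eq_zero.1 this with h | h
      · linarith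
      · linarith
    have hB29 := hPv (by
      rw [hCA, show A + B + -A = B by ring, abs_of_nonneg hB0]; linarith)
    rw [hCA, show A + B + -A = B by ring] at hB29
    refine ⟨?_, hCA⟩
    have : (B - A) * (B + A) = 0 := by nlinarith
    rcases mul_eq_zero.1 this with h | h
    · linarith
    · linarith
  obtain ⟨hBA, hCA⟩ := hmain
  have hS0 : (a * s + b * s') ≠ 0 := left_ne_zero_of_mul hpos.ne'
  have hT0 : (a * t + b * t') ≠ 0 := right_ne_zero_of_mul hpos.ne'
  have h5 : Real.goldenRatio + Real.goldenConj = 1 := Real.goldenRatio_add_goldenConj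
  have h6 : Real.goldenRatio * Real.goldenConj = -1 := Real.goldenRatio_mul_goldenConj
  have hprod : ((c * s + d * s') - Real.goldenRatio * (a * s + b * s')) *
      ((c * s + d * s') - Real.goldenConj * (a * s + b * s')) = 0 := by
    have e : (a * t + b * t') * (((c * s + d * s') - Real.goldenRatio * (a * s + b * s')) *
      ((c * s + d * s') - Real.goldenConj * (a * s + b * s'))) = 0 := by
      have e1 : ((c * s + d * s') - Real.goldenRatio * (a * s + b * s')) *
        ((c * s + d * s') - Real.goldenConj * (a * s + b * s')) =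
        (c * s + d * s') ^ 2 - (c * s + d * s') * (a * s + b * s') - (a * s + b * s') ^ 2 := by
        have : ((c * s + d * s') - Real.goldenRatio * (a * s + b * s')) *
        ((c * s + d * s') - Real.goldenConj * (a * s + b * s')) =
          (c * s + d * s') ^ 2 - (Real.goldenRatio + Real.goldenConj) *
            ((c * s + d * s') * (a * s + b * s')) +
            (Real.goldenRatio * Real.goldenConj) * (a * s + b * s') ^ 2 := by ring
        rw [this, h5, h6]; ring
      rw [e1]
      linear_combination (c * s + d * s') * hBA - (a * s + b * s') * hCA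
    exact (mul_eq_zero.1 e).resolve_left hT0
  rcases mul_eq_zero.1 hprod with h | h
  · refine ⟨c, d, hdet, by linarith, ?_⟩
    have hS' : c * s + d * s' = Real.goldenRatio * (a * s + b * s') := by linarith
    rw [hS'] at hBA
    have : (a * s + b * s') * ((c * t + d * t') - Real.goldenConj * (a * t + b * t')) = 0 := by
      have e : Real.goldenConj = 1 - Real.goldenRatio := by linarith
      rw [e]
      linear_combination hBA
    have := (mul_eq_zero.1 this).resolve_left hS0
    linarith
  · have hS' : c * s + d * s' = Real.goldenConj * (a * s + b * s') := by linarith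
    rw [hS'] at hBA
    have hT' : (a * s + b * s') * ((c * t + d * t') - Real.goldenRatio * (a * t + b * t')) = 0 := by
      have e : Real.goldenRatio = 1 - Real.goldenConj := by linarith
      rw [e]
      linear_combination hBA
    have hT'' := (mul_eq_zero.1 hT').resolve_left hS0
    refine ⟨a - c, b - d, ?_, ?_, ?_⟩
    · rcases hdet with h | h
      · right; linear_combination -h
      · left; linear_combination -h
    · have e : Real.goldenRatio = 1 - Real.goldenConj := by linarith
      push_cast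
      rw [e]
      linear_combination -hS'
    · have e : Real.goldenConj = 1 - Real.goldenRatio := by linarith
      push_cast
      rw [e]
      linear_combination -hT''

theorem hurwitz_basis (s t s' t' : ℝ) (hΔ : (s * t' - s' * t) ^ 2 < 145.8)
    (hval : ∀ m n : ℤ, (m, n) ≠ (0, 0) →
      |(m * s + n * s') * (m * t + n * t')| < 5.4 → ((m * s + n * s') * (m * t + n * t')) ^ 2 = 29) :
    ∃ a b c d : ℤ, (a * d - b * c = 1 ∨ a * d - b * c = -1) ∧
      ((a * s + b * s') * (a * t + b * t')) ^ 2 = 29 ∧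
      c * s + d * s' = Real.goldenRatio * (a * s + b * s') ∧
      c * t + d * t' = Real.goldenConj * (a * t + b * t') := by
  obtain ⟨m, n, hmn, hsm⟩ := exists_small s t s' t' hΔ
  obtain ⟨a, b, g, hab, hg, hm, hn, hgf⟩ := exists_prim s t s' t' m n hmn
  have hab0 : (a, b) ≠ (0, 0) := by
    intro h
    rw [Prod.mk.injEq] at h
    rw [h.1, h.2] at hab
    exact absurd hab (by simp [IsCoprime])
  have hsmall : |(a * s + b * s') * (a * t + b * t')| < 5.4 := by
    refine lt_of_le_of_lt ?_ hsm
    rw [hgf, abs_mul ((g:ℝ) ^ 2)]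
    have : (1:ℝ) ≤ |(g:ℝ) ^ 2| := by
      rw [abs_of_nonneg (sq_nonneg _)]
      have : (1:ℤ) ≤ g ^ 2 := by
        have := Int.one_le_abs hg
        rw [← sq_abs]; nlinarith
      exact_mod_cast this
    nlinarith [abs_nonneg ((a * s + b * s') * (a * t + b * t'))]
  have h29 := hval a b hab0 hsmall
  have hA0 : (a * s + b * s') * (a * t + b * t') ≠ 0 := by
    intro h
    rw [h] at h29
    norm_num at h29
  rcases lt_or_gt_of_ne hA0 with hA | hA
  · have hneg : ∀ m n : ℤ, (m * (-s) + n * (-s')) * (m * t + n * t') =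
        -((m * s + n * s') * (m * t + n * t')) := fun m n => by ring
    obtain ⟨c, d, hdet, h1, h2⟩ := main_pos (-s) t (-s') t'
      (by rw [show (-s * t' - -s' * t) ^ 2 = (s * t' - s' * t) ^ 2 by ring]; exact hΔ)
      (by
        intro m n hmn h
        rw [hneg] at h ⊢
        rw [abs_neg] at h
        rw [neg_sq]
        exact hval m n hmn h) a b hab
      (by rw [hneg]; linarith) (by rw [hneg, neg_sq]; exact h29)
    exact ⟨a, b, c, d, hdet, h29, by linarith, h2⟩
  · obtain ⟨c, d, hdet, h1, h2⟩ := main_pos s t s' t' hΔ hval a b hab hA h29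
    exact ⟨a, b, c, d, hdet, h29, h1, h2⟩

end Pool.Agent.H16.Dav
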