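import Pool.Agent.H16.Dav.Defs

/-!
# Units of `ℤ[ρ]`

MODULE D7.  The integer points of `gK` are the vectors of conjugates of the elements of `ℤ[ρ]`,
`X^4 - X^3 - 3X^2 + X + 1`.
(a) `P gK` takes integer values at integer points, `det gK ^ 2 = 725`.
(b) for `k ≠ l` and real `β ≠ 0` there is a unit `u` of `ℤ[ρ]` with `-2 < β u_l / u_k < 0`.

Proof of (b).  Numerically `ρ = (0.7376, -1.3557, 2.0953, -0.4773)`.  Units: `ρ`, `ρ - 1`, `ρ + 1`,
`φ = 2ρ + ρ² - ρ³` with conjugates `(φ, φ, ψ, ψ)`.  For all `k ≠ l` one of the four units `η` has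
`|η_l| < |η_k|` and one, `ε`, has `ε_l / ε_k < 0`:
 (k,l): η ; ε
 (0,1): ρ+1 ; ρ      (0,2): φ ; φ        (0,3): ρ ; ρ
 (1,0): ρ ; ρ        (1,2): φ ; ρ        (1,3): ρ ; φ
 (2,0): ρ ; φ        (2,1): ρ ; ρ        (2,3): ρ ; ρ
 (3,0): ρ-1 ; ρ      (3,1): ρ+1 ; φ      (3,2): ρ-1 ; ρ
Take `u = η ^ (2 n) ε ^ j` with `n` large and `j ∈ {0,1}` (the sign).  The integer vector of a product
is obtained with the companion matrix `C` of the polynomial: `gK * im (p(C)) = diagonal (p(ρ_i)) * gK`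
(for `p` an integer polynomial), so `gK *ᵥ ic (p(C) e_0) = (p(ρ_i))_i`.
-/

namespace Pool.Agent.H16.Dav

open Matrix Pool.Agent.H89.CSD

theorem g_sum : Real.goldenRatio + Real.goldenConj = 1 := Real.goldenRatio_add_goldenConj

theorem g_mul : Real.goldenRatio * Real.goldenConj = -1 := Real.goldenRatio_mul_goldenConj

theorem g_sq : Real.goldenRatio ^ 2 = Real.goldenRatio + 1 := Real.goldenRatio_sq

theorem g_sq' : Real.goldenConj ^ 2 = Real.goldenConj + 1 := Real.goldenConj_sq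

theorem phi_bounds : (1.618 : ℝ) < Real.goldenRatio ∧ Real.goldenRatio < 1.61804 := by
  have h1 : (2.23606 : ℝ) < √5 := by
    rw [Real.lt_sqrt (by norm_num)]; norm_num
  have h2 : √5 < (2.23607 : ℝ) := by
    rw [Real.sqrt_lt' (by norm_num)]; norm_num
  unfold Real.goldenRatio
  constructor
  · linarith
  · linarith

theorem psi_bounds : (-0.61804 : ℝ) < Real.goldenConj ∧ Real.goldenConj < -0.618 := by
  have h := phi_bounds
  have h1 := g_sum
  constructor
  · linarith [h.2]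
  · linarith [h.1]

theorem rho_quad0 : rho 0 ^ 2 = Real.goldenConj * rho 0 + 1 := by
  have h := phi_bounds
  have h1 := g_sum
  have h2 := g_sq'
  have h3 : √(6 - Real.goldenRatio) ^ 2 = 6 - Real.goldenRatio :=
    Real.sq_sqrt (by linarith [h.2])
  have h4 : rho 0 = (Real.goldenConj + √(6 - Real.goldenRatio)) / 2 := rfl
  rw [h4]
  nlinarith

theorem rho_quad1 : rho 1 ^ 2 = Real.goldenConj * rho 1 + 1 := by
  have h := phi_bounds
  have h1 := g_sum
  have h2 := g_sq'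
  have h3 : √(6 - Real.goldenRatio) ^ 2 = 6 - Real.goldenRatio :=
    Real.sq_sqrt (by linarith [h.2])
  have h4 : rho 1 = (Real.goldenConj - √(6 - Real.goldenRatio)) / 2 := rfl
  rw [h4]
  nlinarith

theorem rho_quad2 : rho 2 ^ 2 = Real.goldenRatio * rho 2 + 1 := by
  have h := psi_bounds
  have h1 := g_sum
  have h2 := g_sq
  have h3 : √(6 - Real.goldenConj) ^ 2 = 6 - Real.goldenConj :=
    Real.sq_sqrt (by linarith [h.2])
  have h4 : rho 2 = (Real.goldenRatio + √(6 - Real.goldenConj)) / 2 := rfl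
  rw [h4]
  nlinarith

theorem rho_quad3 : rho 3 ^ 2 = Real.goldenRatio * rho 3 + 1 := by
  have h := psi_bounds
  have h1 := g_sum
  have h2 := g_sq
  have h3 : √(6 - Real.goldenConj) ^ 2 = 6 - Real.goldenConj :=
    Real.sq_sqrt (by linarith [h.2])
  have h4 : rho 3 = (Real.goldenRatio - √(6 - Real.goldenConj)) / 2 := rfl
  rw [h4]
  nlinarith

theorem quartic_factor (x : ℝ) : x ^ 4 - x ^ 3 - 3 * x ^ 2 + x + 1 =
    (x ^ 2 - Real.goldenConj * x - 1) * (x ^ 2 - Real.goldenRatio * x - 1) := by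
  have h1 := g_sum
  have h2 := g_mul
  have h3 : Real.goldenConj = 1 - Real.goldenRatio := by linarith
  have h4 : Real.goldenRatio ^ 2 = Real.goldenRatio + 1 := g_sq
  rw [h3]
  linear_combination (x ^ 2) * h4

theorem rho_root (i : Fin 4) : rho i ^ 4 - rho i ^ 3 - 3 * rho i ^ 2 + rho i + 1 = 0 := by
  rw [quartic_factor]
  fin_cases i
  · have := rho_quad0
    exact mul_eq_zero_of_left
      (show rho 0 ^ 2 - Real.goldenConj * rho 0 - 1 = 0 by linarith) _
  · have := rho_quad1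
    exact mul_eq_zero_of_left
      (show rho 1 ^ 2 - Real.goldenConj * rho 1 - 1 = 0 by linarith) _
  · have := rho_quad2
    exact mul_eq_zero_of_right _
      (show rho 2 ^ 2 - Real.goldenRatio * rho 2 - 1 = 0 by linarith)
  · have := rho_quad3
    exact mul_eq_zero_of_right _
      (show rho 3 ^ 2 - Real.goldenRatio * rho 3 - 1 = 0 by linarith)

theorem rho_bounds : 0.737 < rho 0 ∧ rho 0 < 0.738 ∧ -1.356 < rho 1 ∧ rho 1 < -1.355 ∧
    2.095 < rho 2 ∧ rho 2 < 2.096 ∧ -0.478 < rho 3 ∧ rho 3 < -0.477 := by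
  have h := phi_bounds
  have h' := psi_bounds
  have a1 : (2.0933 : ℝ) < √(6 - Real.goldenRatio) := by
    rw [Real.lt_sqrt (by norm_num)]
    norm_num at h ⊢
    linarith [h.2]
  have a2 : √(6 - Real.goldenRatio) < (2.0934 : ℝ) := by
    rw [Real.sqrt_lt' (by norm_num)]
    norm_num at h ⊢
    linarith [h.1]
  have b1 : (2.5724 : ℝ) < √(6 - Real.goldenConj) := by
    rw [Real.lt_sqrt (by norm_num)]
    norm_num at h' ⊢
    linarith [h'.2]
  have b2 : √(6 - Real.goldenConj) < (2.5726 : ℝ) := by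
    rw [Real.sqrt_lt' (by norm_num)]
    norm_num at h' ⊢
    linarith [h'.1]
  have e0 : rho 0 = (Real.goldenConj + √(6 - Real.goldenRatio)) / 2 := rfl
  have e1 : rho 1 = (Real.goldenConj - √(6 - Real.goldenRatio)) / 2 := rfl
  have e2 : rho 2 = (Real.goldenRatio + √(6 - Real.goldenConj)) / 2 := rfl
  have e3 : rho 3 = (Real.goldenRatio - √(6 - Real.goldenConj)) / 2 := rfl
  norm_num at h h' a1 a2 b1 b2
  rw [e0, e1, e2, e3]
  norm_num
  refine ⟨?_, ?_, ?_, ?_, ?_, ?_, ?_, ?_⟩ <;> linarith [h.1, h.2, h'.1, h'.2]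

theorem gK_eq_vandermonde : gK = Matrix.vandermonde rho := by
  ext i j
  rfl

theorem det_gK_sq : gK.det ^ 2 = 725 := by
  rw [gK_eq_vandermonde, Matrix.det_vandermonde]
  have h0 := rho_quad0
  have h1 := rho_quad1
  have h2 := rho_quad2
  have h3 := rho_quad3
  have hp := phi_bounds
  have hq := psi_bounds
  have hs := g_sum
  have hm := g_mul
  have s0 : √(6 - Real.goldenRatio) ^ 2 = 6 - Real.goldenRatio :=
    Real.sq_sqrt (by linarith [hp.2])
  have s1 : √(6 - Real.goldenConj) ^ 2 = 6 - Real.goldenConj :=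
    Real.sq_sqrt (by linarith [hq.2])
  have e0 : rho 0 = (Real.goldenConj + √(6 - Real.goldenRatio)) / 2 := rfl
  have e1 : rho 1 = (Real.goldenConj - √(6 - Real.goldenRatio)) / 2 := rfl
  have e2 : rho 2 = (Real.goldenRatio + √(6 - Real.goldenConj)) / 2 := rfl
  have e3 : rho 3 = (Real.goldenRatio - √(6 - Real.goldenConj)) / 2 := rfl
  have d01 : (rho 1 - rho 0) ^ 2 = 6 - Real.goldenRatio := by
    rw [e0, e1]; linear_combination s0
  have d23 : (rho 3 - rho 2) ^ 2 = 6 - Real.goldenConj := by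
    rw [e2, e3]; linear_combination s1
  have p01 : rho 0 * rho 1 = -1 := by
    have := g_sq'
    rw [e0, e1]; linear_combination (-1 / 4) * s0 + (1 / 4) * this + (1 / 4) * hs
  have s01 : rho 0 + rho 1 = Real.goldenConj := by
    rw [e0, e1]; ring
  have p23 : rho 2 * rho 3 = -1 := by
    have := g_sq
    rw [e2, e3]; linear_combination (-1 / 4) * s1 + (1 / 4) * this + (1 / 4) * hs
  have c2 : (rho 2 - rho 0) * (rho 2 - rho 1) = (Real.goldenRatio - Real.goldenConj) * rho 2 := by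
    linear_combination h2 - rho 2 * s01 + p01
  have c3 : (rho 3 - rho 0) * (rho 3 - rho 1) = (Real.goldenRatio - Real.goldenConj) * rho 3 := by
    linear_combination h3 - rho 3 * s01 + p01
  have h5 : (Real.goldenRatio - Real.goldenConj) ^ 2 = 5 := by
    linear_combination (Real.goldenRatio + Real.goldenConj + 1) * hs - 4 * hm
  have key : ∏ i : Fin 4, ∏ j ∈ Finset.Ioi i, (rho j - rho i) =
      (rho 1 - rho 0) * (rho 3 - rho 2) * ((rho 2 - rho 0) * (rho 2 - rho 1)) *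
        ((rho 3 - rho 0) * (rho 3 - rho 1)) := by
    have i0 : Finset.Ioi (0 : Fin 4) = {1, 2, 3} := by decide
    have i1 : Finset.Ioi (1 : Fin 4) = {2, 3} := by decide
    have i2 : Finset.Ioi (2 : Fin 4) = {3} := by decide
    have i3 : Finset.Ioi (3 : Fin 4) = ∅ := by decide
    rw [Fin.prod_univ_four, i0, i1, i2, i3]
    have q1 : ∏ j ∈ ({1, 2, 3} : Finset (Fin 4)), (rho j - rho 0) =
        (rho 1 - rho 0) * ((rho 2 - rho 0) * (rho 3 - rho 0)) := by
      rw [Finset.prod_insert (by decide), Finset.prod_insert (by decide), Finset.prod_singleton]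
    have q2 : ∏ j ∈ ({2, 3} : Finset (Fin 4)), (rho j - rho 1) =
        (rho 2 - rho 1) * (rho 3 - rho 1) := by
      rw [Finset.prod_insert (by decide), Finset.prod_singleton]
    rw [q1, q2, Finset.prod_singleton, Finset.prod_empty]
    ring
  rw [key, c2, c3]
  have : ((rho 1 - rho 0) * (rho 3 - rho 2) * ((Real.goldenRatio - Real.goldenConj) * rho 2) *
      ((Real.goldenRatio - Real.goldenConj) * rho 3)) ^ 2 =
      (rho 1 - rho 0) ^ 2 * (rho 3 - rho 2) ^ 2 *
        ((Real.goldenRatio - Real.goldenConj) ^ 2) ^ 2 * (rho 2 * rho 3) ^ 2 := by ring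
  rw [this, d01, d23, h5, p23]
  linear_combination 25 * hm - 150 * hs

/-- `P gK` is the norm form of `ℤ[ρ]`: the determinant of multiplication. -/
def comp4 : Matrix (Fin 4) (Fin 4) ℤ := !![0, 0, 0, -1; 1, 0, 0, -1; 0, 1, 0, 3; 0, 0, 1, 1]

/-- `A` is multiplication by the element with conjugates `r`. -/
def Rep (A : Matrix (Fin 4) (Fin 4) ℤ) (r : Fin 4 → ℝ) : Prop := gK * im A = diagonal r * gK

theorem Rep.mul {A B : Matrix (Fin 4) (Fin 4) ℤ} {r t : Fin 4 → ℝ} (hA : Rep A r) (hB : Rep B t) :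
    Rep (A * B) (fun i => r i * t i) := by
  unfold Rep at *
  rw [im_mul, ← Matrix.mul_assoc, hA, Matrix.mul_assoc, hB, ← Matrix.mul_assoc,
    Matrix.diagonal_mul_diagonal]

theorem Rep.one : Rep 1 (fun _ => 1) := by
  unfold Rep
  have : (diagonal (fun _ : Fin 4 => (1 : ℝ))) = 1 := Matrix.diagonal_one
  rw [im_one, this, Matrix.mul_one, Matrix.one_mul]

theorem Rep.pow {A : Matrix (Fin 4) (Fin 4) ℤ} {r : Fin 4 → ℝ} (hA : Rep A r) (n : ℕ) :
    Rep (A ^ n) (fun i => r i ^ n) := by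
  induction n with
  | zero => simpa using Rep.one
  | succ n ih =>
    rw [pow_succ]
    simpa only [pow_succ] using ih.mul hA

theorem im_add' (A B : Matrix (Fin 4) (Fin 4) ℤ) : im (A + B) = im A + im B := by
  ext i j
  simp [im]

theorem im_smul' (m : ℤ) (A : Matrix (Fin 4) (Fin 4) ℤ) : im (m • A) = (m : ℝ) • im A := by
  ext i j
  rw [Matrix.smul_apply, im, Matrix.map_apply, Matrix.smul_apply, smul_eq_mul, smul_eq_mul,
    Int.cast_mul, im, Matrix.map_apply]

theorem Rep.add {A B : Matrix (Fin 4) (Fin 4) ℤ} {r t : Fin 4 → ℝ} (hA : Rep A r) (hB : Rep B t) :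
    Rep (A + B) (fun i => r i + t i) := by
  unfold Rep at *
  rw [im_add', Matrix.mul_add, hA, hB, ← Matrix.add_mul, Matrix.diagonal_add]

theorem Rep.smul {A : Matrix (Fin 4) (Fin 4) ℤ} {r : Fin 4 → ℝ} (hA : Rep A r) (m : ℤ) :
    Rep (m • A) (fun i => (m : ℝ) * r i) := by
  unfold Rep at *
  rw [im_smul', Matrix.mul_smul, hA, ← Matrix.smul_mul]
  congr 1
  ext i j
  by_cases hij : i = j
  · subst hij; simp
  · simp [Matrix.diagonal_apply_ne _ hij]

theorem Rep.zero : Rep 0 (fun _ => 0) := by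
  unfold Rep
  have h1 : (diagonal (fun _ : Fin 4 => (0 : ℝ))) = 0 := Matrix.diagonal_zero
  have h2 : im (0 : Matrix (Fin 4) (Fin 4) ℤ) = 0 := by
    ext i j; simp [im]
  rw [h1, h2, Matrix.mul_zero, Matrix.zero_mul]

theorem Rep.sum {ι : Type} (s : Finset ι) {A : ι → Matrix (Fin 4) (Fin 4) ℤ}
    {r : ι → Fin 4 → ℝ} (hA : ∀ j, Rep (A j) (r j)) :
    Rep (∑ j ∈ s, A j) (fun i => ∑ j ∈ s, r j i) := by
  classical
  induction s using Finset.induction_on with
  | empty => simpa using Rep.zero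
  | insert a s ha ih =>
    rw [Finset.sum_insert ha]
    simpa only [Finset.sum_insert ha] using (hA a).add ih

theorem Rep.det {A : Matrix (Fin 4) (Fin 4) ℤ} {r : Fin 4 → ℝ} (hA : Rep A r) :
    (A.det : ℝ) = ∏ i, r i := by
  have hgK : gK.det ≠ 0 := by
    intro h0
    have := det_gK_sq
    rw [h0] at this
    norm_num at this
  have h1 := congrArg Matrix.det hA
  rw [Matrix.det_mul, Matrix.det_mul, Matrix.det_diagonal, det_im, mul_comm] at h1
  exact mul_right_cancel₀ hgK h1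

theorem rep_comp : Rep comp4 rho := by
  unfold Rep
  ext i j
  rw [Matrix.diagonal_mul, Matrix.mul_apply, Fin.sum_univ_four]
  have h := rho_root i
  fin_cases j
  · simp [gK, im, comp4]
  · simp [gK, im, comp4]
    ring
  · simp [gK, im, comp4]
    ring
  · simp [gK, im, comp4]
    linear_combination -h

theorem P_gK_eq_det (x : Fin 4 → ℤ) :
    P gK (ic x) = ((∑ j : Fin 4, x j • comp4 ^ (j : ℕ)).det : ℝ) := by
  have h1 : Rep (∑ j : Fin 4, x j • comp4 ^ (j : ℕ))
      (fun i => ∑ j : Fin 4, (x j : ℝ) * rho i ^ (j : ℕ)) :=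
    Rep.sum Finset.univ (fun j => (rep_comp.pow (j : ℕ)).smul (x j))
  rw [h1.det]
  unfold P
  refine Finset.prod_congr rfl fun i _ => Finset.sum_congr rfl fun j _ => ?_
  simp only [gK, Matrix.of_apply, ic]
  ring

theorem P_gK_int (x : Fin 4 → ℤ) : ∃ m : ℤ, P gK (ic x) = m :=
  ⟨_, P_gK_eq_det x⟩

theorem Rep.vec {A : Matrix (Fin 4) (Fin 4) ℤ} {r : Fin 4 → ℝ} (hA : Rep A r) :
    gK *ᵥ ic (A *ᵥ (Pi.single 0 1)) = r := by
  rw [← im_mulVec, Matrix.mulVec_mulVec, hA, ← Matrix.mulVec_mulVec]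
  have h1 : gK *ᵥ ic (Pi.single (0 : Fin 4) (1 : ℤ)) = fun _ => 1 := by
    ext i
    simp only [Matrix.mulVec, dotProduct]
    rw [Finset.sum_eq_single (0 : Fin 4)]
    · simp [gK, ic]
    · intro b _ hb
      simp [ic, Pi.single_eq_of_ne hb]
    · intro h; exact absurd (Finset.mem_univ _) h
  rw [h1]
  ext i
  rw [Matrix.mulVec_diagonal, mul_one]

/-- vectors of conjugates of units of `ℤ[ρ]` -/
def UU (r : Fin 4 → ℝ) : Prop := (∃ A : Matrix (Fin 4) (Fin 4) ℤ, Rep A r) ∧ |∏ i, r i| = 1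

theorem UU.mul {r t : Fin 4 → ℝ} (h : UU r) (h' : UU t) : UU (fun i => r i * t i) := by
  obtain ⟨⟨A, hA⟩, h1⟩ := h
  obtain ⟨⟨B, hB⟩, h2⟩ := h'
  exact ⟨⟨A * B, hA.mul hB⟩, by rw [Finset.prod_mul_distrib, abs_mul, h1, h2, one_mul]⟩

theorem UU.pow {r : Fin 4 → ℝ} (h : UU r) (n : ℕ) : UU (fun i => r i ^ n) := by
  obtain ⟨⟨A, hA⟩, h1⟩ := h
  exact ⟨⟨A ^ n, hA.pow n⟩, by rw [Finset.prod_pow, abs_pow, h1, one_pow]⟩

theorem UU.ne {r : Fin 4 → ℝ} (h : UU r) (i : Fin 4) : r i ≠ 0 := by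
  intro h0
  have h1 : ∏ i, r i = 0 := Finset.prod_eq_zero (Finset.mem_univ i) h0
  have h2 := h.2
  rw [h1, abs_zero] at h2
  norm_num at h2

theorem UU.of_det {A : Matrix (Fin 4) (Fin 4) ℤ} {r : Fin 4 → ℝ} (hA : Rep A r)
    (h : A.det = 1 ∨ A.det = -1) : UU r := by
  refine ⟨⟨A, hA⟩, ?_⟩
  rw [← hA.det]
  rcases h with h | h <;> rw [h] <;> norm_num

theorem uu_rho : UU rho := by
  refine UU.of_det rep_comp (Or.inl ?_)
  simp [comp4, Matrix.det_succ_row_zero, Fin.sum_univ_succ, Fin.succAbove]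

theorem uu_rho_sub : UU (fun i => rho i - 1) := by
  have h1 : Rep (comp4 + (-1 : ℤ) • 1) (fun i => rho i - 1) := by
    have := rep_comp.add (Rep.one.smul (-1))
    convert this using 2
    push_cast
    ring
  refine UU.of_det h1 (Or.inr ?_)
  have : comp4 + (-1 : ℤ) • 1 =
      !![-1, 0, 0, -1; 1, -1, 0, -1; 0, 1, -1, 3; 0, 0, 1, 0] := by
    ext i j
    fin_cases i <;> fin_cases j <;> simp [comp4]
  rw [this]
  simp [Matrix.det_succ_row_zero, Fin.sum_univ_succ, Fin.succAbove]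

theorem uu_rho_add : UU (fun i => rho i + 1) := by
  have h1 : Rep (comp4 + 1) (fun i => rho i + 1) := rep_comp.add Rep.one
  refine UU.of_det h1 (Or.inr ?_)
  have : comp4 + 1 =
      !![1, 0, 0, -1; 1, 1, 0, -1; 0, 1, 1, 3; 0, 0, 1, 2] := by
    ext i j
    fin_cases i <;> fin_cases j <;> simp [comp4]
  rw [this]
  simp [Matrix.det_succ_row_zero, Fin.sum_univ_succ, Fin.succAbove]

theorem gam_eq (i : Fin 4) : gam i = 2 * rho i + rho i ^ 2 - rho i ^ 3 := by
  have hs := g_sum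
  have hq := g_sq
  have hq' := g_sq'
  fin_cases i
  · have h := rho_quad0
    change Real.goldenRatio = 2 * rho 0 + rho 0 ^ 2 - rho 0 ^ 3
    linear_combination (rho 0 + Real.goldenConj - 1) * h + rho 0 * hq' + hs
  · have h := rho_quad1
    change Real.goldenRatio = 2 * rho 1 + rho 1 ^ 2 - rho 1 ^ 3
    linear_combination (rho 1 + Real.goldenConj - 1) * h + rho 1 * hq' + hs
  · have h := rho_quad2
    change Real.goldenConj = 2 * rho 2 + rho 2 ^ 2 - rho 2 ^ 3
    linear_combination (rho 2 + Real.goldenRatio - 1) * h + rho 2 * hq + hs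
  · have h := rho_quad3
    change Real.goldenConj = 2 * rho 3 + rho 3 ^ 2 - rho 3 ^ 3
    linear_combination (rho 3 + Real.goldenRatio - 1) * h + rho 3 * hq + hs

theorem rep_gam : Rep ((2 : ℤ) • comp4 + comp4 ^ 2 + (-1 : ℤ) • comp4 ^ 3) gam := by
  have h1 := ((rep_comp.smul 2).add (rep_comp.pow 2)).add ((rep_comp.pow 3).smul (-1))
  have h2 : gam = fun i => ((2 : ℤ) : ℝ) * rho i + rho i ^ 2 + ((-1 : ℤ) : ℝ) * rho i ^ 3 := by
    ext i
    rw [gam_eq]
    push_cast
    ring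
  rw [h2]
  exact h1

theorem uu_gam : UU gam := by
  refine ⟨⟨_, rep_gam⟩, ?_⟩
  rw [Fin.prod_univ_four]
  have h := g_mul
  have : gam 0 * gam 1 * gam 2 * gam 3 = 1 := by
    change Real.goldenRatio * Real.goldenRatio * Real.goldenConj * Real.goldenConj = 1
    linear_combination (Real.goldenRatio * Real.goldenConj - 1) * h
  rw [this, abs_one]

theorem exists_unit_aux (k l : Fin 4) (β : ℝ) (hβ : β ≠ 0) (η ε : Fin 4 → ℝ) (hη : UU η)
    (hε : UU ε) (h1 : |η l| < |η k|) (h2 : ε l * ε k < 0) :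
    ∃ x : Fin 4 → ℤ, |P gK (ic x)| = 1 ∧ (gK *ᵥ ic x) k ≠ 0 ∧
      -2 < β * ((gK *ᵥ ic x) l / (gK *ᵥ ic x) k) ∧ β * ((gK *ᵥ ic x) l / (gK *ᵥ ic x) k) < 0 := by
  -- reduction to a statement on unit vectors
  have hred : ∀ r : Fin 4 → ℝ, UU r → -2 < β * (r l / r k) → β * (r l / r k) < 0 →
      ∃ x : Fin 4 → ℤ, |P gK (ic x)| = 1 ∧ (gK *ᵥ ic x) k ≠ 0 ∧
        -2 < β * ((gK *ᵥ ic x) l / (gK *ᵥ ic x) k) ∧
        β * ((gK *ᵥ ic x) l / (gK *ᵥ ic x) k) < 0 := by
    intro r hr h3 h4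
    obtain ⟨⟨A, hA⟩, h5⟩ := id hr
    refine ⟨A *ᵥ (Pi.single 0 1), ?_, ?_, ?_, ?_⟩
    · rw [P_eq, hA.vec]; exact h5
    · rw [hA.vec]; exact hr.ne k
    · rw [hA.vec]; exact h3
    · rw [hA.vec]; exact h4
  -- powers
  set q : ℝ := η l / η k with hq
  have hq1 : |q| < 1 := by
    rw [hq, abs_div, div_lt_one (abs_pos.2 (hη.ne k))]
    exact h1
  have hq0 : q ≠ 0 := div_ne_zero (hη.ne l) (hη.ne k)
  have hpow : ∀ γ : ℝ, γ < 0 → ∃ n : ℕ, -2 < γ * q ^ (2 * n) ∧ γ * q ^ (2 * n) < 0 := by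
    intro γ hγ
    have h3 : Filter.Tendsto (fun n : ℕ => γ * (q ^ 2) ^ n) Filter.atTop (nhds (γ * 0)) := by
      refine Filter.Tendsto.const_mul γ (tendsto_pow_atTop_nhds_zero_of_lt_one (sq_nonneg q) ?_)
      rw [← sq_abs]
      exact pow_lt_one₀ (abs_nonneg q) hq1 (by norm_num)
    rw [mul_zero] at h3
    obtain ⟨n, hn⟩ := (h3.eventually (lt_mem_nhds (show (-2 : ℝ) < 0 by norm_num))).exists
    refine ⟨n, by rw [pow_mul]; exact hn, ?_⟩
    have h4 : 0 < q ^ (2 * n) := by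
      rw [pow_mul]
      positivity
    exact mul_neg_of_neg_of_pos hγ h4
  rcases lt_or_gt_of_ne hβ with hb | hb
  · obtain ⟨n, hn1, hn2⟩ := hpow β hb
    have h3 : η l ^ (2 * n) / η k ^ (2 * n) = q ^ (2 * n) := by
      rw [hq, div_pow]
    refine hred _ (hη.pow (2 * n)) ?_ ?_
    · simp only [h3]; exact hn1
    · simp only [h3]; exact hn2
  · have hεk := hε.ne k
    have hneg : ε l / ε k < 0 := by
      have h3 : ε l / ε k = (ε l * ε k) / ε k ^ 2 := by
        field_simp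
      rw [h3]
      exact div_neg_of_neg_of_pos h2 (by positivity)
    obtain ⟨n, hn1, hn2⟩ := hpow (β * (ε l / ε k)) (mul_neg_of_pos_of_neg hb hneg)
    have h3 : β * (η l ^ (2 * n) * ε l / (η k ^ (2 * n) * ε k)) =
        β * (ε l / ε k) * q ^ (2 * n) := by
      rw [hq, div_pow]
      have := hη.ne k
      field_simp
    refine hred _ ((hη.pow (2 * n)).mul hε) ?_ ?_
    · rw [h3]; exact hn1
    · rw [h3]; exact hn2

theorem exists_unit (k l : Fin 4) (hkl : k ≠ l) (β : ℝ) (hβ : β ≠ 0) :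
    ∃ x : Fin 4 → ℤ, |P gK (ic x)| = 1 ∧ (gK *ᵥ ic x) k ≠ 0 ∧
      -2 < β * ((gK *ᵥ ic x) l / (gK *ᵥ ic x) k) ∧ β * ((gK *ᵥ ic x) l / (gK *ᵥ ic x) k) < 0 := by
  obtain ⟨b1, b2, b3, b4, b5, b6, b7, b8⟩ := rho_bounds
  obtain ⟨c1, c2⟩ := phi_bounds
  obtain ⟨c3, c4⟩ := psi_bounds
  norm_num at b1 b2 b3 b4 b5 b6 b7 b8 c1 c2 c3 c4
  have g0 : gam 0 = Real.goldenRatio := rfl
  have g1 : gam 1 = Real.goldenRatio := rfl
  have g2 : gam 2 = Real.goldenConj := rfl
  have g3 : gam 3 = Real.goldenConj := rfl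
  have hφ : |Real.goldenRatio| = Real.goldenRatio := abs_of_pos (by linarith)
  have hψ : |Real.goldenConj| = -Real.goldenConj := abs_of_neg (by linarith)
  have r0 : |rho 0| = rho 0 := abs_of_pos (by linarith)
  have r1 : |rho 1| = -rho 1 := abs_of_neg (by linarith)
  have r2 : |rho 2| = rho 2 := abs_of_pos (by linarith)
  have r3 : |rho 3| = -rho 3 := abs_of_neg (by linarith)
  fin_cases k <;> fin_cases l
  · exact absurd rfl hkl
  · refine exists_unit_aux _ _ β hβ _ _ uu_rho_add uu_rho ?_ ?_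
    · change |rho 1 + 1| < |rho 0 + 1|
      rw [abs_of_neg (show rho 1 + 1 < 0 by linarith), abs_of_pos (show 0 < rho 0 + 1 by linarith)]
      linarith
    · change rho 1 * rho 0 < 0
      exact mul_neg_of_neg_of_pos (by linarith) (by linarith)
  · refine exists_unit_aux _ _ β hβ _ _ uu_gam uu_gam ?_ ?_
    · change |gam 2| < |gam 0|
      rw [g0, g2, hφ, hψ]
      linarith
    · change gam 2 * gam 0 < 0
      rw [g0, g2]
      exact mul_neg_of_neg_of_pos (by linarith) (by linarith)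
  · refine exists_unit_aux _ _ β hβ _ _ uu_rho uu_rho ?_ ?_
    · change |rho 3| < |rho 0|
      rw [r0, r3]; linarith
    · change rho 3 * rho 0 < 0
      exact mul_neg_of_neg_of_pos (by linarith) (by linarith)
  · refine exists_unit_aux _ _ β hβ _ _ uu_rho uu_rho ?_ ?_
    · change |rho 0| < |rho 1|
      rw [r0, r1]; linarith
    · change rho 0 * rho 1 < 0
      exact mul_neg_of_pos_of_neg (by linarith) (by linarith)
  · exact absurd rfl hkl
  · refine exists_unit_aux _ _ β hβ _ _ uu_gam uu_rho ?_ ?_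
    · change |gam 2| < |gam 1|
      rw [g1, g2, hφ, hψ]
      linarith
    · change rho 2 * rho 1 < 0
      exact mul_neg_of_pos_of_neg (by linarith) (by linarith)
  · refine exists_unit_aux _ _ β hβ _ _ uu_rho uu_gam ?_ ?_
    · change |rho 3| < |rho 1|
      rw [r1, r3]; linarith
    · change gam 3 * gam 1 < 0
      rw [g1, g3]
      exact mul_neg_of_neg_of_pos (by linarith) (by linarith)
  · refine exists_unit_aux _ _ β hβ _ _ uu_rho uu_gam ?_ ?_
    · change |rho 0| < |rho 2|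
      rw [r0, r2]; linarith
    · change gam 0 * gam 2 < 0
      rw [g0, g2]
      exact mul_neg_of_pos_of_neg (by linarith) (by linarith)
  · refine exists_unit_aux _ _ β hβ _ _ uu_rho uu_rho ?_ ?_
    · change |rho 1| < |rho 2|
      rw [r1, r2]; linarith
    · change rho 1 * rho 2 < 0
      exact mul_neg_of_neg_of_pos (by linarith) (by linarith)
  · exact absurd rfl hkl
  · refine exists_unit_aux _ _ β hβ _ _ uu_rho uu_rho ?_ ?_
    · change |rho 3| < |rho 2|
      rw [r3, r2]; linarith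
    · change rho 3 * rho 2 < 0
      exact mul_neg_of_neg_of_pos (by linarith) (by linarith)
  · refine exists_unit_aux _ _ β hβ _ _ uu_rho_sub uu_rho ?_ ?_
    · change |rho 0 - 1| < |rho 3 - 1|
      rw [abs_of_neg (show rho 0 - 1 < 0 by linarith), abs_of_neg (show rho 3 - 1 < 0 by linarith)]
      linarith
    · change rho 0 * rho 3 < 0
      exact mul_neg_of_pos_of_neg (by linarith) (by linarith)
  · refine exists_unit_aux _ _ β hβ _ _ uu_rho_add uu_gam ?_ ?_
    · change |rho 1 + 1| < |rho 3 + 1|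
      rw [abs_of_neg (show rho 1 + 1 < 0 by linarith), abs_of_pos (show 0 < rho 3 + 1 by linarith)]
      linarith
    · change gam 1 * gam 3 < 0
      rw [g1, g3]
      exact mul_neg_of_pos_of_neg (by linarith) (by linarith)
  · refine exists_unit_aux _ _ β hβ _ _ uu_rho_sub uu_rho ?_ ?_
    · change |rho 2 - 1| < |rho 3 - 1|
      rw [abs_of_pos (show 0 < rho 2 - 1 by linarith), abs_of_neg (show rho 3 - 1 < 0 by linarith)]
      linarith
    · change rho 2 * rho 3 < 0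
      exact mul_neg_of_pos_of_neg (by linarith) (by linarith)
  · exact absurd rfl hkl

end Pool.Agent.H16.Dav
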