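import Pool.Agent.H16.Dav.GPts
import Pool.Agent.H16.Dav.Hurwitz
import Pool.Agent.H16.Dav.Units

/-!
# The golden case

MODULE D10.  If the first two columns of `h` are `(1,1,1,1)` and `γ = (φ,φ,ψ,ψ)`, `|det h| < 27` and
`Pos 1 h`, then the rows of `h` are, up to order, the rows of `gK * im U`, `U ∈ GL(4,ℤ)`.

Proof.  Columns `y` (2) and `z` (3); `s = y 0 - y 1`, `t = y 2 - y 3`, `s' = z 0 - z 1`,
`t' = z 2 - z 3`.
(1) `det h = ± √5 (s t' - s' t)` (subtract row 0 from row 1 and row 2 from row 3), so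
`(s t' - s' t)^2 = det² / 5 < 145.8`.
(2) For integers `(m,n) ≠ 0`, `v = m y + n z` satisfies the hypothesis of `golden_pts`
(`v + p + q γ = h *ᵥ ic (p,q,m,n)`), which gives `((v 0 - v 1)(v 2 - v 3))^2 = 29` when
`|(v 0 - v 1)(v 2 - v 3)| < 5.4` (`(φ ψ)^k = ±1`, `(6-φ)(6-ψ) = 29`).  So `hurwitz_basis` applies;
change the basis (columns 2, 3 by the matrix `(a b; c d)`), so that now `s' = φ s`, `t' = ψ t`,
`(s t)^2 = 29`; then `(det h)^2 = 5 (s t)^2 (φ - ψ)^2 = 725`.
(3) Apply `golden_pts` to `y` (exponent `k`, case A or B, integers `p, q`) and to `z` (exponent `k'`,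
case, `p', q'`).  Comparing `(φ^k s)^2` and `(φ^k' φ s)^2`: the quotient of two of the numbers
`6 - φ ≈ 4.382`, `6 - ψ ≈ 6.618` is an even power of `φ` only if they are equal and the exponent is
`0`: so the cases agree and `k' = k - 1`.
(4) Then `z i - γ_i y i = a_i` with `a = r + u γ`, `r, u ∈ ℤ` (half sums and half differences;
`φ^(1-k) ℤ[φ] = ℤ[φ]` with conjugate coefficients), and `γ^k y = (p + q γ) + ρ ∘ π` for a
permutation `π` of the coordinates: in case A `π` preserves `{0,1}` and `{2,3}` (`ρ 0, ρ 1` are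
`(ψ ± √(6-φ))/2`, `ρ 2, ρ 3` are `(φ ± √(6-ψ))/2`), in case B it exchanges the two pairs.
(5) The vectors `(f(ρ (π i)))_i`, `f ∈ ℤ[X]`, form a ring `O` which contains `1`, `γ` and `γ⁻¹`
(`2X + X² - X³` takes the values `φ, φ, ψ, ψ` at `ρ 0, .., ρ 3`; in case B use `1 - (2X+X²-X³)`) and
`ρ ∘ π`, hence `y` and `z`.  Reducing modulo the monic quartic, all columns of `h` are integer
combinations of the columns of `gK` with the rows permuted: `h = (gK * im M) ∘ π`.  Determinants:
`725 = (det h)^2 = 725 (det M)^2`, so `M ∈ GL(4,ℤ)`.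
-/

namespace Pool.Agent.H16.Dav

open Matrix Pool.Agent.H89.CSD

open Real (goldenRatio goldenConj)

private theorem phi_sq : goldenRatio ^ 2 = goldenRatio + 1 := Real.goldenRatio_sq
private theorem psi_sq : goldenConj ^ 2 = goldenConj + 1 := Real.goldenConj_sq
private theorem phi_mul_psi : goldenRatio * goldenConj = -1 := Real.goldenRatio_mul_goldenConj
private theorem phi_add_psi : goldenRatio + goldenConj = 1 := Real.goldenRatio_add_goldenConj

private theorem phi_bd : 1.6 < goldenRatio ∧ goldenRatio < 1.7 := by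
  have h1 := phi_sq
  have h2 := Real.goldenRatio_pos
  constructor <;> nlinarith

private theorem psi_bd : -0.7 < goldenConj ∧ goldenConj < -0.6 := by
  have h1 := phi_bd
  have h2 := phi_add_psi
  constructor <;> linarith

private theorem psi_sub_phi_sq : (goldenConj - goldenRatio) ^ 2 = 5 := by
  have h1 := phi_sq
  have h2 := psi_sq
  have h3 := phi_mul_psi
  have h4 := phi_add_psi
  linear_combination h1 + h2 - 2 * h3 + h4

/-- (1) The determinant. -/
private theorem det_sq_form (h : Matrix (Fin 4) (Fin 4) ℝ) (h0 : ∀ i, h i 0 = 1)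
    (h1 : ∀ i, h i 1 = gam i) :
    h.det ^ 2 = 5 * ((h 0 2 - h 1 2) * (h 2 3 - h 3 3) -
      (h 0 3 - h 1 3) * (h 2 2 - h 3 2)) ^ 2 := by
  have hd : h.det = (goldenRatio - goldenConj) * ((h 0 2 - h 1 2) * (h 2 3 - h 3 3) -
      (h 0 3 - h 1 3) * (h 2 2 - h 3 2)) := by
    rw [Matrix.det_succ_row_zero]
    simp only [Matrix.det_fin_three, Fin.sum_univ_succ, Matrix.submatrix_apply, Fin.succAbove,
      Fin.succ_zero_eq_one, Fin.succ_one_eq_two]
    simp [h0, h1, gam, Fin.lt_def]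
    ring
  have h5 : (goldenRatio - goldenConj) ^ 2 = 5 := by
    rw [← psi_sub_phi_sq]
    ring
  rw [hd, mul_pow, h5]

/-- The ring of the values at the (permuted) roots. -/
private def RR (π : Equiv.Perm (Fin 4)) (v : Fin 4 → ℝ) : Prop :=
  ∃ x : Fin 4 → ℤ, ∀ i, v i = ∑ j : Fin 4, (x j : ℝ) * rho (π i) ^ (j : ℕ)

private theorem RR.ext {π : Equiv.Perm (Fin 4)} {v w : Fin 4 → ℝ} (hv : RR π v)
    (h : ∀ i, w i = v i) : RR π w := by
  obtain ⟨x, hx⟩ := hv
  exact ⟨x, fun i => (h i).trans (hx i)⟩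

private theorem RR.add {π : Equiv.Perm (Fin 4)} {v w : Fin 4 → ℝ} (hv : RR π v) (hw : RR π w) :
    RR π (fun i => v i + w i) := by
  obtain ⟨x, hx⟩ := hv
  obtain ⟨y, hy⟩ := hw
  refine ⟨x + y, fun i => ?_⟩
  simp only [hx, hy, Fin.sum_univ_four, Pi.add_apply]
  push_cast
  ring

private theorem RR.zmul {π : Equiv.Perm (Fin 4)} {v : Fin 4 → ℝ} (hv : RR π v) (m : ℤ) :
    RR π (fun i => m * v i) := by
  obtain ⟨x, hx⟩ := hv
  refine ⟨m • x, fun i => ?_⟩
  simp only [hx, Fin.sum_univ_four, Pi.smul_apply, smul_eq_mul]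
  push_cast
  ring

private theorem RR.one (π : Equiv.Perm (Fin 4)) : RR π (fun _ => 1) := by
  refine ⟨![1, 0, 0, 0], fun i => ?_⟩
  simp [Fin.sum_univ_four]

private theorem RR.rho_mul {π : Equiv.Perm (Fin 4)} {v : Fin 4 → ℝ} (hv : RR π v) :
    RR π (fun i => rho (π i) * v i) := by
  obtain ⟨x, hx⟩ := hv
  refine ⟨![-x 3, x 0 - x 3, x 1 + 3 * x 3, x 2 + x 3], fun i => ?_⟩
  have h4 := rho_root (π i)
  simp only [hx, Fin.sum_univ_four]
  simp
  linear_combination (x 3 : ℝ) * h4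

private theorem gA_gam_sq (i : Fin 4) : gam i ^ 2 = gam i + 1 := by
  fin_cases i
  · exact phi_sq
  · exact phi_sq
  · exact psi_sq
  · exact psi_sq

private theorem gA_gam_ne (i : Fin 4) : gam i ≠ 0 := by
  intro h
  have := gA_gam_sq i
  rw [h] at this
  norm_num at this

private theorem gam_inv (i : Fin 4) : (gam i)⁻¹ = gam i - 1 := by
  have h := gA_gam_sq i
  have h0 := gA_gam_ne i
  field_simp
  linarith

private theorem rho_quad (i : Fin 4) : rho i ^ 2 = (1 - gam i) * rho i + 1 := by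
  have h1 := phi_bd
  have h2 := psi_bd
  have hs1 : √(6 - goldenRatio) ^ 2 = 6 - goldenRatio := Real.sq_sqrt (by linarith)
  have hs2 : √(6 - goldenConj) ^ 2 = 6 - goldenConj := Real.sq_sqrt (by linarith)
  have ha := phi_add_psi
  have hp := psi_sq
  have hq := phi_sq
  have hb : goldenRatio = 1 - goldenConj := by linarith
  fin_cases i
  · change ((goldenConj + √(6 - goldenRatio)) / 2) ^ 2 =
      (1 - goldenRatio) * ((goldenConj + √(6 - goldenRatio)) / 2) + 1
    generalize √(6 - goldenRatio) = w at hs1 ⊢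
    linear_combination hs1 / 4 - hp / 4 + (goldenConj + w) / 2 * ha - ha / 4
  · change ((goldenConj - √(6 - goldenRatio)) / 2) ^ 2 =
      (1 - goldenRatio) * ((goldenConj - √(6 - goldenRatio)) / 2) + 1
    generalize √(6 - goldenRatio) = w at hs1 ⊢
    linear_combination hs1 / 4 - hp / 4 + (goldenConj - w) / 2 * ha - ha / 4
  · change ((goldenRatio + √(6 - goldenConj)) / 2) ^ 2 =
      (1 - goldenConj) * ((goldenRatio + √(6 - goldenConj)) / 2) + 1
    generalize √(6 - goldenConj) = w at hs2 ⊢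
    linear_combination hs2 / 4 - hq / 4 + (goldenRatio + w) / 2 * ha - ha / 4
  · change ((goldenRatio - √(6 - goldenConj)) / 2) ^ 2 =
      (1 - goldenConj) * ((goldenRatio - √(6 - goldenConj)) / 2) + 1
    generalize √(6 - goldenConj) = w at hs2 ⊢
    linear_combination hs2 / 4 - hq / 4 + (goldenRatio - w) / 2 * ha - ha / 4

/-- `γ` is a polynomial in `ρ`. -/
private theorem gA_gam_eq (i : Fin 4) : gam i = 2 * rho i + rho i ^ 2 - rho i ^ 3 := by
  have hq := rho_quad i
  have hg := gA_gam_sq i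
  linear_combination (rho i - gam i) * hq + rho i * hg

private theorem RR.gam_mul {π : Equiv.Perm (Fin 4)}
    (hπ : (∀ i, gam i = gam (π i)) ∨ (∀ i, gam i = 1 - gam (π i))) {v : Fin 4 → ℝ}
    (hv : RR π v) : RR π (fun i => gam i * v i) := by
  have h1 := hv.rho_mul
  have h2 := h1.rho_mul
  have h3 := h2.rho_mul
  have h4 : RR π (fun i => gam (π i) * v i) := by
    refine (((h1.zmul 2).add h2).add (h3.zmul (-1))).ext fun i => ?_
    rw [gA_gam_eq]
    push_cast
    ring
  rcases hπ with hπ | hπ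
  · exact h4.ext fun i => by rw [hπ]
  · refine (hv.add (h4.zmul (-1))).ext fun i => ?_
    rw [hπ]
    push_cast
    ring

private theorem RR.gam_zpow_mul {π : Equiv.Perm (Fin 4)}
    (hπ : (∀ i, gam i = gam (π i)) ∨ (∀ i, gam i = 1 - gam (π i))) {v : Fin 4 → ℝ}
    (hv : RR π v) (k : ℤ) : RR π (fun i => gam i ^ k * v i) := by
  induction k using Int.induction_on with
  | zero => simpa using hv
  | succ n ih =>
    refine (ih.gam_mul hπ).ext fun i => ?_
    rw [zpow_add_one₀ (gA_gam_ne i)]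
    ring
  | pred n ih =>
    refine ((ih.gam_mul hπ).add (ih.zmul (-1))).ext fun i => ?_
    rw [zpow_sub_one₀ (gA_gam_ne i), gam_inv]
    push_cast
    ring

private theorem mem_of {π : Equiv.Perm (Fin 4)}
    (hπ : (∀ i, gam i = gam (π i)) ∨ (∀ i, gam i = 1 - gam (π i))) {v : Fin 4 → ℝ}
    {k p q : ℤ} {c1 c2 e1 e2 : ℝ} (h01 : goldenRatio ^ k * (v 0 - v 1) = e1)
    (h23 : goldenConj ^ k * (v 2 - v 3) = e2)
    (s01 : goldenRatio ^ k * (v 0 + v 1) = c1 + 2 * (p + q * goldenRatio))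
    (s23 : goldenConj ^ k * (v 2 + v 3) = c2 + 2 * (p + q * goldenConj))
    (r0 : (c1 + e1) / 2 = rho (π 0)) (r1 : (c1 - e1) / 2 = rho (π 1))
    (r2 : (c2 + e2) / 2 = rho (π 2)) (r3 : (c2 - e2) / 2 = rho (π 3)) : RR π v := by
  have key : ∀ i, gam i ^ k * v i = p + q * gam i + rho (π i) := by
    intro i
    fin_cases i
    · change goldenRatio ^ k * v 0 = p + q * goldenRatio + rho (π 0)
      rw [← r0]
      linear_combination (h01 + s01) / 2
    · change goldenRatio ^ k * v 1 = p + q * goldenRatio + rho (π 1)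
      rw [← r1]
      linear_combination (s01 - h01) / 2
    · change goldenConj ^ k * v 2 = p + q * goldenConj + rho (π 2)
      rw [← r2]
      linear_combination (h23 + s23) / 2
    · change goldenConj ^ k * v 3 = p + q * goldenConj + rho (π 3)
      rw [← r3]
      linear_combination (s23 - h23) / 2
  have h1 := RR.one π
  refine ((((h1.zmul p).add ((h1.gam_mul hπ).zmul q)).add h1.rho_mul).gam_zpow_mul
    hπ (-k)).ext fun i => ?_
  have hk := key i
  have h0 : gam i ^ k ≠ 0 := zpow_ne_zero _ (gA_gam_ne i)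
  have h2 : (p : ℝ) * 1 + q * (gam i * 1) + rho (π i) * 1 = gam i ^ k * v i := by
    rw [hk]
    ring
  rw [h2, _root_.zpow_neg, inv_mul_cancel_left₀ h0]

private theorem exists_permA (e1 e2 : ℝ) (h1 : e1 ^ 2 = 6 - goldenRatio)
    (h2 : e2 ^ 2 = 6 - goldenConj) : ∃ π : Equiv.Perm (Fin 4), (∀ i, gam i = gam (π i)) ∧
      (goldenConj + e1) / 2 = rho (π 0) ∧ (goldenConj - e1) / 2 = rho (π 1) ∧
      (goldenRatio + e2) / 2 = rho (π 2) ∧ (goldenRatio - e2) / 2 = rho (π 3) := by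
  have b1 := phi_bd
  have b2 := psi_bd
  have hs1 : √(6 - goldenRatio) ^ 2 = 6 - goldenRatio := Real.sq_sqrt (by linarith)
  have hs2 : √(6 - goldenConj) ^ 2 = 6 - goldenConj := Real.sq_sqrt (by linarith)
  have c1 : e1 = √(6 - goldenRatio) ∨ e1 = -√(6 - goldenRatio) := by
    rw [← sq_eq_sq_iff_eq_or_eq_neg, h1, hs1]
  have c2 : e2 = √(6 - goldenConj) ∨ e2 = -√(6 - goldenConj) := by
    rw [← sq_eq_sq_iff_eq_or_eq_neg, h2, hs2]
  rcases c1 with c1 | c1 <;> rcases c2 with c2 | c2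
  · refine ⟨1, ?_, ?_, ?_, ?_, ?_⟩
    · intro i; fin_cases i <;> rfl
    all_goals subst c1; subst c2; rfl
  · refine ⟨Equiv.swap 2 3, ?_, ?_, ?_, ?_, ?_⟩
    · intro i; fin_cases i <;> rfl
    all_goals subst c1; subst c2; first | rfl | (rw [sub_neg_eq_add]; rfl)
  · refine ⟨Equiv.swap 0 1, ?_, ?_, ?_, ?_, ?_⟩
    · intro i; fin_cases i <;> rfl
    all_goals subst c1; subst c2; first | rfl | (rw [sub_neg_eq_add]; rfl)
  · refine ⟨Equiv.swap 0 1 * Equiv.swap 2 3, ?_, ?_, ?_, ?_, ?_⟩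
    · intro i; fin_cases i <;> rfl
    all_goals subst c1; subst c2; first | rfl | (rw [sub_neg_eq_add]; rfl)

private theorem exists_permB (e1 e2 : ℝ) (h1 : e1 ^ 2 = 6 - goldenConj)
    (h2 : e2 ^ 2 = 6 - goldenRatio) : ∃ π : Equiv.Perm (Fin 4), (∀ i, gam i = 1 - gam (π i)) ∧
      (goldenRatio + e1) / 2 = rho (π 0) ∧ (goldenRatio - e1) / 2 = rho (π 1) ∧
      (goldenConj + e2) / 2 = rho (π 2) ∧ (goldenConj - e2) / 2 = rho (π 3) := by
  obtain ⟨π, h3, h4, h5, h6, h7⟩ := exists_permA e2 e1 h2 h1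
  refine ⟨π * (Equiv.swap 0 2 * Equiv.swap 1 3), ?_, h6, h7, h4, h5⟩
  have ha := phi_add_psi
  have e1 : goldenRatio = 1 - goldenConj := by linarith
  have e2 : goldenConj = 1 - goldenRatio := by linarith
  intro i
  rw [Equiv.Perm.mul_apply, ← h3]
  fin_cases i
  · exact e1
  · exact e1
  · exact e2
  · exact e2

/-- Comparison of the exponents. -/
private theorem exp_eq {k k' : ℤ} {S : ℝ} (h1 : 4.3 < (goldenRatio ^ k * S) ^ 2)
    (h1' : (goldenRatio ^ k * S) ^ 2 < 6.7)
    (h2 : 4.3 < (goldenRatio ^ k' * (goldenRatio * S)) ^ 2)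
    (h2' : (goldenRatio ^ k' * (goldenRatio * S)) ^ 2 < 6.7) : k' + 1 = k := by
  have b := phi_bd
  have h0 := Real.goldenRatio_pos
  have e : (goldenRatio ^ k' * (goldenRatio * S)) ^ 2 =
      (goldenRatio ^ (k' + 1 - k)) ^ 2 * (goldenRatio ^ k * S) ^ 2 := by
    rw [zpow_sub₀ h0.ne', zpow_add_one₀ h0.ne']
    have : goldenRatio ^ k ≠ 0 := zpow_ne_zero _ h0.ne'
    field_simp
  rw [e] at h2 h2'
  set m := k' + 1 - k with hm
  rcases lt_trichotomy m 0 with h | h | h
  · exfalso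
    have h3 : goldenRatio ^ m ≤ goldenRatio ^ (-1 : ℤ) :=
      zpow_le_zpow_right₀ (by linarith) (by omega)
    have h4 : goldenRatio ^ (-1 : ℤ) < 0.7 := by
      rw [_root_.zpow_neg_one, inv_lt_comm₀ h0 (by norm_num)]
      norm_num
      linarith
    have h5 : 0 < goldenRatio ^ m := zpow_pos h0 m
    have h6 : (goldenRatio ^ m) ^ 2 < 0.49 := by nlinarith
    nlinarith
  · omega
  · exfalso
    have h3 : goldenRatio ^ (1 : ℤ) ≤ goldenRatio ^ m :=
      zpow_le_zpow_right₀ (by linarith) (by omega)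
    rw [zpow_one] at h3
    have h6 : 2.56 < (goldenRatio ^ m) ^ 2 := by nlinarith
    nlinarith

theorem golden_case (h : Matrix (Fin 4) (Fin 4) ℝ) (h0 : ∀ i, h i 0 = 1) (h1 : ∀ i, h i 1 = gam i)
    (hdet0 : h.det ≠ 0) (hdet : |h.det| < 27) (hpos : Pos 1 h) :
    ∃ (U : (Matrix (Fin 4) (Fin 4) ℤ)ˣ) (π : Equiv.Perm (Fin 4)),
      ∀ i j, h i j = (gK * im (U : Matrix (Fin 4) (Fin 4) ℤ)) (π i) j := by
  have b1 := phi_bd
  have b2 := psi_bd
  have hdf := det_sq_form h h0 h1
  set s := h 0 2 - h 1 2 with hs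
  set t := h 2 2 - h 3 2 with ht
  set s' := h 0 3 - h 1 3 with hs'
  set t' := h 2 3 - h 3 3 with ht'
  have hd2 : h.det ^ 2 < 729 := by
    have := sq_lt_sq' (by linarith [(abs_lt.1 hdet).1]) (abs_lt.1 hdet).2
    linarith
  have hΔ : (s * t' - s' * t) ^ 2 < 145.8 := by
    rw [hdf] at hd2
    norm_num at hd2 ⊢
    linarith
  have hv : ∀ m n : ℤ, (m, n) ≠ (0, 0) → ∀ p q : ℤ,
      1 ≤ |∏ i, ((fun i => (m : ℝ) * h i 2 + n * h i 3) i + (p + q * gam i))| := by
    intro m n hmn p q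
    have hx : (![p, q, m, n] : Fin 4 → ℤ) ≠ 0 := by
      intro hx
      apply hmn
      have e2 := congrFun hx 2
      have e3 := congrFun hx 3
      simp at e2 e3
      rw [e2, e3]
    have := hpos _ hx
    refine this.trans (le_of_eq ?_)
    congr 1
    unfold P
    apply Finset.prod_congr rfl
    intro i _
    simp [Fin.sum_univ_four, ic, h0, h1]
    ring
  have hval : ∀ m n : ℤ, (m, n) ≠ (0, 0) →
      |(m * s + n * s') * (m * t + n * t')| < 5.4 →
      ((m * s + n * s') * (m * t + n * t')) ^ 2 = 29 := by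
    intro m n hmn hlt
    have e1 : (m : ℝ) * h 0 2 + n * h 0 3 - (m * h 1 2 + n * h 1 3) = m * s + n * s' := by
      rw [hs, hs']; ring
    have e2 : (m : ℝ) * h 2 2 + n * h 2 3 - (m * h 3 2 + n * h 3 3) = m * t + n * t' := by
      rw [ht, ht']; ring
    obtain ⟨k, p, q, hpq⟩ := golden_pts (fun i => (m : ℝ) * h i 2 + n * h i 3) (hv m n hmn)
      (by simpa only [e1, e2] using hlt)
    simp only [e1, e2] at hpq
    have hk : (goldenRatio ^ k) ^ 2 * (goldenConj ^ k) ^ 2 = 1 := by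
      rw [← mul_pow, ← mul_zpow, phi_mul_psi, ← zpow_natCast, ← _root_.zpow_mul]
      rw [mul_comm, _root_.zpow_mul]
      norm_num
    have h29 : (6 - goldenRatio) * (6 - goldenConj) = 29 := by
      have := phi_mul_psi
      have := phi_add_psi
      linear_combination this * (-6) + phi_mul_psi
    have hprod : (goldenRatio ^ k * (m * s + n * s')) ^ 2 *
        (goldenConj ^ k * (m * t + n * t')) ^ 2 =
        ((m * s + n * s') * (m * t + n * t')) ^ 2 := by
      calc _ = ((goldenRatio ^ k) ^ 2 * (goldenConj ^ k) ^ 2) *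
            ((m * s + n * s') * (m * t + n * t')) ^ 2 := by ring
        _ = _ := by rw [hk, one_mul]
    rw [← hprod]
    rcases hpq with ⟨h2, h3, -, -⟩ | ⟨h2, h3, -, -⟩
    · rw [h2, h3, h29]
    · rw [h2, h3, mul_comm, h29]
  obtain ⟨a, b, c, d, hε, hST, hS, hT⟩ := hurwitz_basis s t s' t' hΔ hval
  have hab : (a, b) ≠ (0, 0) := by
    intro h2
    rw [Prod.mk.injEq] at h2
    rw [h2.1, h2.2] at hε
    norm_num at hε
  have hcd : (c, d) ≠ (0, 0) := by
    intro h2
    rw [Prod.mk.injEq] at h2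
    rw [h2.1, h2.2] at hε
    norm_num at hε
  set S := (a : ℝ) * s + b * s' with hSd
  set T := (a : ℝ) * t + b * t' with hTd
  have hlt : |S * T| < 5.4 := by
    apply abs_lt_of_sq_lt_sq _ (by norm_num)
    rw [hST]
    norm_num
  have hlt' : |(goldenRatio * S) * (goldenConj * T)| < 5.4 := by
    have : (goldenRatio * S) * (goldenConj * T) = -(S * T) := by
      linear_combination (S * T) * phi_mul_psi
    rw [this, abs_neg]
    exact hlt
  have ea1 : (a : ℝ) * h 0 2 + b * h 0 3 - (a * h 1 2 + b * h 1 3) = S := by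
    rw [hSd, hs, hs']; ring
  have ea2 : (a : ℝ) * h 2 2 + b * h 2 3 - (a * h 3 2 + b * h 3 3) = T := by
    rw [hTd, ht, ht']; ring
  have ec1 : (c : ℝ) * h 0 2 + d * h 0 3 - (c * h 1 2 + d * h 1 3) = goldenRatio * S := by
    rw [← hS, hs, hs']; ring
  have ec2 : (c : ℝ) * h 2 2 + d * h 2 3 - (c * h 3 2 + d * h 3 3) = goldenConj * T := by
    rw [← hT, ht, ht']; ring
  obtain ⟨k, p, q, hA⟩ := golden_pts (fun i => (a : ℝ) * h i 2 + b * h i 3) (hv a b hab)
    (by simpa only [ea1, ea2] using hlt)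
  obtain ⟨k', p', q', hB⟩ := golden_pts (fun i => (c : ℝ) * h i 2 + d * h i 3) (hv c d hcd)
    (by simpa only [ec1, ec2] using hlt')
  simp only [ea1, ea2] at hA
  simp only [ec1, ec2] at hB
  have hkk : k' + 1 = k := by
    apply exp_eq (S := S)
    · rcases hA with h2 | h2 <;> rw [h2.1] <;> norm_num <;> linarith
    · rcases hA with h2 | h2 <;> rw [h2.1] <;> norm_num <;> linarith
    · rcases hB with h2 | h2 <;> rw [h2.1] <;> norm_num <;> linarith
    · rcases hB with h2 | h2 <;> rw [h2.1] <;> norm_num <;> linarith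
  have hp1 : goldenRatio ^ k' * (goldenRatio * S) = goldenRatio ^ k * S := by
    rw [← hkk, zpow_add_one₀ Real.goldenRatio_ne_zero]
    ring
  have hp2 : goldenConj ^ k' * (goldenConj * T) = goldenConj ^ k * T := by
    rw [← hkk, zpow_add_one₀ Real.goldenConj_ne_zero]
    ring
  rw [hp1, hp2] at hB
  have hmain : ∃ π : Equiv.Perm (Fin 4), ((∀ i, gam i = gam (π i)) ∨ (∀ i, gam i = 1 - gam (π i))) ∧
      RR π (fun i => (a : ℝ) * h i 2 + b * h i 3) ∧ RR π (fun i => (c : ℝ) * h i 2 + d * h i 3) := by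
    rcases hA with ⟨hA1, hA2, hA3, hA4⟩ | ⟨hA1, hA2, hA3, hA4⟩ <;>
    rcases hB with ⟨hB1, hB2, hB3, hB4⟩ | ⟨hB1, hB2, hB3, hB4⟩
    · obtain ⟨π, hπ, r0, r1, r2, r3⟩ := exists_permA _ _ hA1 hA2
      refine ⟨π, Or.inl hπ, ?_, ?_⟩
      · exact mem_of (Or.inl hπ) (by simp only [ea1]) (by simp only [ea2]) hA3 hA4 r0 r1 r2 r3
      · exact mem_of (k := k') (Or.inl hπ) (by simp only [ec1]; exact hp1)
          (by simp only [ec2]; exact hp2) hB3 hB4 r0 r1 r2 r3
    · exfalso; linarith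
    · exfalso; linarith
    · obtain ⟨π, hπ, r0, r1, r2, r3⟩ := exists_permB _ _ hA1 hA2
      refine ⟨π, Or.inr hπ, ?_, ?_⟩
      · exact mem_of (Or.inr hπ) (by simp only [ea1]) (by simp only [ea2]) hA3 hA4 r0 r1 r2 r3
      · exact mem_of (k := k') (Or.inr hπ) (by simp only [ec1]; exact hp1)
          (by simp only [ec2]; exact hp2) hB3 hB4 r0 r1 r2 r3
  obtain ⟨π, hπ, hy, hz⟩ := hmain
  have hεr : ((a : ℝ) * d - b * c) * ((a : ℝ) * d - b * c) = 1 := by
    rcases hε with h2 | h2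
    · have : ((a : ℝ) * d - b * c) = 1 := by exact_mod_cast h2
      rw [this]; norm_num
    · have : ((a : ℝ) * d - b * c) = -1 := by exact_mod_cast h2
      rw [this]; norm_num
  have hcol2 : RR π (fun i => h i 2) := by
    refine (((hy.zmul d).add (hz.zmul (-b))).zmul (a * d - b * c)).ext fun i => ?_
    push_cast
    linear_combination (-(h i 2)) * hεr
  have hcol3 : RR π (fun i => h i 3) := by
    refine (((hy.zmul (-c)).add (hz.zmul a)).zmul (a * d - b * c)).ext fun i => ?_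
    push_cast
    linear_combination (-(h i 3)) * hεr
  have hcol : ∀ j, RR π (fun i => h i j) := by
    intro j
    fin_cases j
    · exact (RR.one π).ext fun i => h0 i
    · exact ((RR.one π).gam_mul hπ).ext fun i => by
        show h i 1 = gam i * 1
        rw [h1, mul_one]
    · exact hcol2
    · exact hcol3
  choose X hX using hcol
  set M : Matrix (Fin 4) (Fin 4) ℤ := Matrix.of fun l j => X j l with hM
  have hh : ∀ i j, h i j = (gK * im M) (π i) j := by
    intro i j
    refine (hX j i).trans ?_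
    rw [Matrix.mul_apply]
    apply Finset.sum_congr rfl
    intro l _
    simp [gK, im, hM, mul_comm]
  have hsub : h = (gK * im M).submatrix π id := by
    ext i j
    exact hh i j
  have hdet2 : h.det ^ 2 = 725 * (M.det : ℝ) ^ 2 := by
    rw [hsub, Matrix.det_permute, mul_pow, Matrix.det_mul, mul_pow, det_gK_sq, det_im]
    have : ((Equiv.Perm.sign π : ℤ) : ℝ) ^ 2 = 1 := by
      rcases Int.units_eq_one_or (Equiv.Perm.sign π) with h2 | h2 <;> rw [h2] <;> norm_num
    rw [this, one_mul]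
  have hdet3 : h.det ^ 2 = 725 := by
    have e1 : ((a : ℝ) * d - b * c) * (s * t' - s' * t) = (goldenConj - goldenRatio) * (S * T) := by
      have : (goldenConj - goldenRatio) * (S * T) = S * (goldenConj * T) - (goldenRatio * S) * T := by
        ring
      rw [this, ← hS, ← hT, hSd, hTd]
      ring
    have e2 : (s * t' - s' * t) ^ 2 = ((goldenConj - goldenRatio) * (S * T)) ^ 2 := by
      rw [← e1, mul_pow, sq ((a : ℝ) * d - b * c), hεr, one_mul]
    rw [hdf, e2, mul_pow, hST, psi_sub_phi_sq]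
    norm_num
  have hM1 : (M.det : ℝ) ^ 2 = 1 := by
    rw [hdet3] at hdet2
    linarith
  have hM2 : M.det ^ 2 = 1 := by exact_mod_cast hM1
  have hM3 : IsUnit M := by
    rw [Matrix.isUnit_iff_isUnit_det]
    exact Int.isUnit_iff.2 (_root_.sq_eq_one_iff.1 hM2)
  obtain ⟨U, hU⟩ := hM3
  refine ⟨U, π, ?_⟩
  rw [hU]
  exact hh

end Pool.Agent.H16.Dav
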