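import Pool.Agent.H16.Dav.Defs

/-!
# The determinant in terms of the superbase

MODULE D3.  If the first column of `h` is `(1,1,1,1)` and `x, y, z` are the other three columns,
`w = -(x+y+z)`, then `16 (det h)^2` is the Gram determinant of `x, y, z` for `B`, and it is the
spanning tree polynomial of the six numbers `-B` of the superbase `w, x, y, z`.

Proof.  Subtract row `0` of `h` from the others: with `a i = x i - x 0` etc. (`i = 1,2,3`)
`det h = det [a;b;c]` (3x3), `B x y = 4 ∑ a i b i - (∑ a i)(∑ b i)` (translation invariance), so the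
Gram matrix is `A K Aᵀ` with `K = 4 I - J`, `det K = 16`.  Then `tree(...)` = Gram determinant is a
polynomial identity in the six entries of the Gram matrix (`w = -(x+y+z)` gives
`-B w x = B x x + B y x + B z x`).
-/

namespace Pool.Agent.H16.Dav

theorem B_comm (v w : Fin 4 → ℝ) : B v w = B w v := by
  simp only [B]
  rw [mul_comm (∑ i, v i)]
  simp only [mul_comm (v _)]

theorem B_self (v : Fin 4 → ℝ) : B v v = Q v := by
  simp only [B, Q]
  simp only [← pow_two]

private theorem gram3 (a1 a2 a3 b1 b2 b3 c1 c2 c3 gxx gxy gxz gyy gyz gzz : ℝ)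
    (hxx : gxx = 4 * (a1 * a1 + a2 * a2 + a3 * a3) - (a1 + a2 + a3) * (a1 + a2 + a3))
    (hxy : gxy = 4 * (a1 * b1 + a2 * b2 + a3 * b3) - (a1 + a2 + a3) * (b1 + b2 + b3))
    (hxz : gxz = 4 * (a1 * c1 + a2 * c2 + a3 * c3) - (a1 + a2 + a3) * (c1 + c2 + c3))
    (hyy : gyy = 4 * (b1 * b1 + b2 * b2 + b3 * b3) - (b1 + b2 + b3) * (b1 + b2 + b3))
    (hyz : gyz = 4 * (b1 * c1 + b2 * c2 + b3 * c3) - (b1 + b2 + b3) * (c1 + c2 + c3))
    (hzz : gzz = 4 * (c1 * c1 + c2 * c2 + c3 * c3) - (c1 + c2 + c3) * (c1 + c2 + c3)) :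
    16 * (a1 * (b2 * c3 - b3 * c2) - a2 * (b1 * c3 - b3 * c1) + a3 * (b1 * c2 - b2 * c1)) ^ 2 =
      gxx * (gyy * gzz - gyz * gyz) - gxy * (gxy * gzz - gyz * gxz) +
        gxz * (gxy * gyz - gyy * gxz) := by
  subst hxx hxy hxz hyy hyz hzz
  ring

private theorem tree_gram (gxx gxy gxz gyy gyz gzz : ℝ) :
    tree (gxx + gxy + gxz) (gxy + gyy + gyz) (gxz + gyz + gzz) (-gxy) (-gxz) (-gyz) =
      gxx * (gyy * gzz - gyz * gyz) - gxy * (gxy * gzz - gyz * gxz) +
        gxz * (gxy * gyz - gyy * gxz) := by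
  unfold tree
  ring

theorem det_sq_eq_tree (h : Matrix (Fin 4) (Fin 4) ℝ) (h1 : ∀ i, h i 0 = 1)
    (x y z w : Fin 4 → ℝ) (hx : ∀ i, x i = h i 1) (hy : ∀ i, y i = h i 2) (hz : ∀ i, z i = h i 3)
    (hw : ∀ i, w i = -(x i + y i + z i)) :
    16 * h.det ^ 2 = tree (-B w x) (-B w y) (-B w z) (-B x y) (-B x z) (-B y z) := by
  have hwx : -B w x = B x x + B x y + B x z := by
    simp only [B, hw, Fin.sum_univ_four]
    ring
  have hwy : -B w y = B x y + B y y + B y z := by
    simp only [B, hw, Fin.sum_univ_four]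
    ring
  have hwz : -B w z = B x z + B y z + B z z := by
    simp only [B, hw, Fin.sum_univ_four]
    ring
  rw [hwx, hwy, hwz, tree_gram]
  have key := gram3 (x 1 - x 0) (x 2 - x 0) (x 3 - x 0) (y 1 - y 0) (y 2 - y 0) (y 3 - y 0)
    (z 1 - z 0) (z 2 - z 0) (z 3 - z 0) (B x x) (B x y) (B x z) (B y y) (B y z) (B z z)
    (by simp only [B, Fin.sum_univ_four]; ring) (by simp only [B, Fin.sum_univ_four]; ring)
    (by simp only [B, Fin.sum_univ_four]; ring) (by simp only [B, Fin.sum_univ_four]; ring)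
    (by simp only [B, Fin.sum_univ_four]; ring) (by simp only [B, Fin.sum_univ_four]; ring)
  rw [← key]
  congr 1
  have hdet : h.det = (x 1 - x 0) * ((y 2 - y 0) * (z 3 - z 0) - (y 3 - y 0) * (z 2 - z 0))
      - (x 2 - x 0) * ((y 1 - y 0) * (z 3 - z 0) - (y 3 - y 0) * (z 1 - z 0))
      + (x 3 - x 0) * ((y 1 - y 0) * (z 2 - z 0) - (y 2 - y 0) * (z 1 - z 0)) := by
    rw [Matrix.det_succ_column_zero]
    simp only [Fin.sum_univ_four, h1, Matrix.det_fin_three, Matrix.submatrix_apply]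
    simp only [hx, hy, hz]
    simp [Fin.succAbove, Fin.lt_def]
    ring
  rw [hdet]

end Pool.Agent.H16.Dav
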