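import Pool.Agent.H16.Dav.Defs

/-!
# Obtuse superbases

MODULE D4.  Let `h` be invertible with first column `(1,1,1,1)`.  There is `U ∈ GL(4, ℤ)` fixing the
first basis vector modulo nothing else (i.e. `h * im U` has again first column `(1,1,1,1)`) such that
the columns `x, y, z` of `h * im U` (columns 1, 2, 3) and `w = -(x+y+z)` satisfy `B ≤ 0` for all six
pairs.

Proof.  `Q v = ∑_{i<j} (v i - v j)^2` is positive semidefinite with kernel the constant vectors, so,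
`h` being invertible, `(a,b,c) ↦ Q (a x + b y + c z)` is a positive definite quadratic form on `ℝ^3`
and only finitely many integer vectors `(a,b,c)` have value `≤ C`.  Among the `U ∈ GL(4, ℤ)` with
first column `(1,0,0,0)` take one which minimises `Q x' + Q y' + Q z' + Q (x'+y'+z')`, `x', y', z'`
the last three columns of `h * im U` (the sublevel set of `U = 1` is finite modulo the first row).
If `B v v' > 0` for two of the four vectors `v, v', u, t`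
of the superbase then `(-v, v', u + v, t + v)` is again a superbase and
`Q(-v) + Q(v') + Q(u+v) + Q(t+v) = Q v + Q v' + Q u + Q t + 2 Q v + 2 B u v + 2 B t v
  = (old) - 2 B v v'` since `u + t + v' = -v`, a contradiction.
-/

namespace Pool.Agent.H16.Dav

open Matrix Pool.Agent.H89.CSD

theorem Q_nonneg' (v : Fin 4 → ℝ) : 0 ≤ Q v := by
  have : Q v = (v 0 - v 1) ^ 2 + (v 0 - v 2) ^ 2 + (v 0 - v 3) ^ 2 + (v 1 - v 2) ^ 2 +
      (v 1 - v 3) ^ 2 + (v 2 - v 3) ^ 2 := by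
    simp only [Q, Fin.sum_univ_four]; ring
  rw [this]; positivity

theorem Q_const_add (v : Fin 4 → ℝ) (c : ℝ) : Q (fun i => c + v i) = Q v := by
  simp only [Q, Fin.sum_univ_four]; ring

/-- The value of the ternary form at an integer vector. -/
def tval (h : Matrix (Fin 4) (Fin 4) ℝ) (m : Fin 3 → ℤ) : ℝ :=
  Q (fun i => ∑ k : Fin 3, h i k.succ * (m k : ℝ))

/-- The sum of the four values of a superbase. -/
def tot (g : Matrix (Fin 4) (Fin 4) ℝ) : ℝ :=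
  Q (fun i => g i 1) + Q (fun i => g i 2) + Q (fun i => g i 3) +
    Q (fun i => g i 1 + g i 2 + g i 3)

theorem tval_bound (h : Matrix (Fin 4) (Fin 4) ℝ) (hdet : h.det ≠ 0) (h1 : ∀ i, h i 0 = 1) :
    ∃ K : ℝ, 0 ≤ K ∧ ∀ (m : Fin 3 → ℤ) (j : Fin 3), (m j : ℝ) ^ 2 ≤ K * tval h m := by
  refine ⟨∑ j, ∑ i, (h⁻¹ j i) ^ 2,
    Finset.sum_nonneg fun _ _ => Finset.sum_nonneg fun _ _ => sq_nonneg _, fun m j => ?_⟩
  set v : Fin 4 → ℝ := fun i => ∑ k : Fin 3, h i k.succ * (m k : ℝ) with hv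
  set μ : ℝ := (∑ i, v i) / 4 with hμ
  set X : Fin 4 → ℝ := Fin.cons (-μ) (fun k => (m k : ℝ)) with hX
  have hX0 : h *ᵥ X = fun i => v i - μ := by
    ext i
    rw [Matrix.mulVec, dotProduct, Fin.sum_univ_succ]
    simp only [hX, Fin.cons_zero, Fin.cons_succ, h1 i, hv]
    ring
  have hX1 : X = h⁻¹ *ᵥ (fun i => v i - μ) := by
    rw [← hX0, Matrix.mulVec_mulVec, Matrix.nonsing_inv_mul _ (isUnit_iff_ne_zero.2 hdet),
      Matrix.one_mulVec]
  have hmj : (m j : ℝ) = ∑ i, h⁻¹ j.succ i * (v i - μ) := by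
    have := congrFun hX1 j.succ
    simpa [hX, Matrix.mulVec, dotProduct] using this
  have hsum : ∑ i, (v i - μ) ^ 2 = Q v / 4 := by
    simp only [Q, Fin.sum_univ_four, hμ]; ring
  have hQ : 0 ≤ Q v := Q_nonneg' v
  have htv : tval h m = Q v := rfl
  rw [htv, hmj]
  refine (Finset.sum_mul_sq_le_sq_mul_sq _ _ _).trans ?_
  rw [hsum]
  have hle : ∑ i, (h⁻¹ j.succ i) ^ 2 ≤ ∑ j, ∑ i, (h⁻¹ j i) ^ 2 :=
    Finset.single_le_sum (f := fun j => ∑ i, (h⁻¹ j i) ^ 2)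
      (fun _ _ => Finset.sum_nonneg fun _ _ => sq_nonneg _) (Finset.mem_univ j.succ)
  have h0 : 0 ≤ ∑ i, (h⁻¹ j.succ i) ^ 2 := Finset.sum_nonneg fun _ _ => sq_nonneg _
  refine mul_le_mul hle (by linarith) (by linarith) (h0.trans hle)

theorem finite_tval (h : Matrix (Fin 4) (Fin 4) ℝ) (hdet : h.det ≠ 0) (h1 : ∀ i, h i 0 = 1)
    (C : ℝ) : {m : Fin 3 → ℤ | tval h m ≤ C}.Finite := by
  obtain ⟨K, hK, hb⟩ := tval_bound h hdet h1
  obtain ⟨N, hN⟩ := exists_nat_ge (K * C)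
  refine (Set.finite_Icc (fun _ : Fin 3 => (-(N : ℤ))) (fun _ => (N : ℤ))).subset ?_
  intro m hm
  have key : ∀ j, |m j| ≤ N := by
    intro j
    have h2 : (m j : ℝ) ^ 2 ≤ N := (hb m j).trans ((mul_le_mul_of_nonneg_left hm hK).trans hN)
    have h3 : (m j) ^ 2 ≤ (N : ℤ) := by exact_mod_cast h2
    exact (Int.natCast_natAbs (m j) ▸ Int.natAbs_le_self_sq (m j)).trans h3
  exact ⟨fun j => (abs_le.1 (key j)).1, fun j => (abs_le.1 (key j)).2⟩

theorem col_eq (h : Matrix (Fin 4) (Fin 4) ℝ) (h1 : ∀ i, h i 0 = 1)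
    (U : Matrix (Fin 4) (Fin 4) ℤ) (i j : Fin 4) :
    (h * im U) i j = (U 0 j : ℝ) + ∑ k : Fin 3, h i k.succ * (U k.succ j : ℝ) := by
  rw [Matrix.mul_apply, Fin.sum_univ_succ]
  simp [im, h1 i]

theorem tot_eq (h : Matrix (Fin 4) (Fin 4) ℝ) (h1 : ∀ i, h i 0 = 1)
    (U : Matrix (Fin 4) (Fin 4) ℤ) :
    tot (h * im U) = tval h (fun k => U k.succ 1) + tval h (fun k => U k.succ 2) +
      tval h (fun k => U k.succ 3) +
      tval h (fun k => U k.succ 1 + U k.succ 2 + U k.succ 3) := by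
  have e : ∀ j, Q (fun i => (h * im U) i j) = tval h (fun k => U k.succ j) := by
    intro j
    have : (fun i => (h * im U) i j) =
        fun i => (U 0 j : ℝ) + ∑ k : Fin 3, h i k.succ * (U k.succ j : ℝ) :=
      funext fun i => col_eq h h1 U i j
    rw [this, Q_const_add]
    rfl
  have e' : Q (fun i => (h * im U) i 1 + (h * im U) i 2 + (h * im U) i 3) =
      tval h (fun k => U k.succ 1 + U k.succ 2 + U k.succ 3) := by
    have : (fun i => (h * im U) i 1 + (h * im U) i 2 + (h * im U) i 3) =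
        fun i => ((U 0 1 : ℝ) + U 0 2 + U 0 3) + ∑ k : Fin 3, h i k.succ *
          ((U k.succ 1 + U k.succ 2 + U k.succ 3 : ℤ) : ℝ) := by
      funext i
      rw [col_eq h h1 U i 1, col_eq h h1 U i 2, col_eq h h1 U i 3]
      simp only [Fin.sum_univ_three]
      push_cast
      ring
    rw [this, Q_const_add]
    rfl
  rw [tot, e, e, e, e']

theorem exists_min (h : Matrix (Fin 4) (Fin 4) ℝ) (hdet : h.det ≠ 0) (h1 : ∀ i, h i 0 = 1) :
    ∃ U : (Matrix (Fin 4) (Fin 4) ℤ)ˣ, (∀ i, (U : Matrix (Fin 4) (Fin 4) ℤ) i 0 = (1 : Matrix (Fin 4) (Fin 4) ℤ) i 0) ∧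
      ∀ V : (Matrix (Fin 4) (Fin 4) ℤ)ˣ,
        (∀ i, (V : Matrix (Fin 4) (Fin 4) ℤ) i 0 = (1 : Matrix (Fin 4) (Fin 4) ℤ) i 0) →
        tot (h * im (U : Matrix (Fin 4) (Fin 4) ℤ)) ≤ tot (h * im (V : Matrix (Fin 4) (Fin 4) ℤ)) := by
  set C := tot (h * im (1 : Matrix (Fin 4) (Fin 4) ℤ)) with hC
  set F : (Fin 3 → ℤ) × (Fin 3 → ℤ) × (Fin 3 → ℤ) → ℝ := fun c =>
    tval h c.1 + tval h c.2.1 + tval h c.2.2 + tval h (fun k => c.1 k + c.2.1 k + c.2.2 k) with hF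
  set c : Matrix (Fin 4) (Fin 4) ℤ → (Fin 3 → ℤ) × (Fin 3 → ℤ) × (Fin 3 → ℤ) := fun U =>
    (fun k => U k.succ 1, fun k => U k.succ 2, fun k => U k.succ 3) with hc
  have hFc : ∀ U, tot (h * im U) = F (c U) := fun U => tot_eq h h1 U
  set T : Set ((Fin 3 → ℤ) × (Fin 3 → ℤ) × (Fin 3 → ℤ)) :=
    {p | F p ≤ C ∧ ∃ U : (Matrix (Fin 4) (Fin 4) ℤ)ˣ,
      (∀ i, (U : Matrix (Fin 4) (Fin 4) ℤ) i 0 = (1 : Matrix (Fin 4) (Fin 4) ℤ) i 0) ∧
      p = c (U : Matrix (Fin 4) (Fin 4) ℤ)} with hT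
  have hTfin : T.Finite := by
    have hS := finite_tval h hdet h1 C
    refine (hS.prod (hS.prod hS)).subset ?_
    rintro ⟨p, q, r⟩ ⟨hp, -⟩
    have n1 : 0 ≤ tval h p := Q_nonneg' _
    have n2 : 0 ≤ tval h q := Q_nonneg' _
    have n3 : 0 ≤ tval h r := Q_nonneg' _
    have n4 : 0 ≤ tval h (fun k => p k + q k + r k) := Q_nonneg' _
    have hp' : tval h p + tval h q + tval h r + tval h (fun k => p k + q k + r k) ≤ C := hp
    refine ⟨?_, ?_, ?_⟩
    · show tval h p ≤ C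
      linarith
    · show tval h q ≤ C
      linarith
    · show tval h r ≤ C
      linarith
  have hTne : T.Nonempty := by
    refine ⟨c 1, ?_, 1, fun i => rfl, rfl⟩
    rw [← hFc]
  obtain ⟨p, ⟨hp, U, hU, rfl⟩, hmin⟩ := Set.exists_min_image T F hTfin hTne
  refine ⟨U, hU, fun V hV => ?_⟩
  rw [hFc, hFc]
  by_cases hVC : F (c (V : Matrix (Fin 4) (Fin 4) ℤ)) ≤ C
  · exact hmin _ ⟨hVC, V, hV, rfl⟩
  · exact hp.trans (not_le.1 hVC).le

theorem exists_obtuse (h : Matrix (Fin 4) (Fin 4) ℝ) (hdet : h.det ≠ 0) (h1 : ∀ i, h i 0 = 1) :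
    ∃ U : (Matrix (Fin 4) (Fin 4) ℤ)ˣ,
      (∀ i, (h * im (U : Matrix (Fin 4) (Fin 4) ℤ)) i 0 = 1) ∧
      ∀ x y z w : Fin 4 → ℝ, (∀ i, x i = (h * im (U : Matrix (Fin 4) (Fin 4) ℤ)) i 1) →
        (∀ i, y i = (h * im (U : Matrix (Fin 4) (Fin 4) ℤ)) i 2) →
        (∀ i, z i = (h * im (U : Matrix (Fin 4) (Fin 4) ℤ)) i 3) →
        (∀ i, w i = -(x i + y i + z i)) →
        B w x ≤ 0 ∧ B w y ≤ 0 ∧ B w z ≤ 0 ∧ B x y ≤ 0 ∧ B x z ≤ 0 ∧ B y z ≤ 0 := by
  obtain ⟨U, hU, hmin⟩ := exists_min h hdet h1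
  refine ⟨U, fun i => ?_, ?_⟩
  · rw [col_eq h h1]
    simp [hU]
  intro x y z w hx hy hz hw
  set g := h * im (U : Matrix (Fin 4) (Fin 4) ℤ) with hg
  -- the flip with an involution `E`
  have flip : ∀ E : Matrix (Fin 4) (Fin 4) ℤ, E * E = 1 → (∀ i, E i 0 = (1 : Matrix (Fin 4) (Fin 4) ℤ) i 0) →
      tot g ≤ tot (g * im E) := by
    intro E hE hE0
    have := hmin (U * ⟨E, E, hE, hE⟩) (by
      intro i
      rw [Units.val_mul, Matrix.mul_apply]
      simp only [hE0]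
      rw [← hU i]
      simp [Matrix.one_apply])
    rwa [Units.val_mul, im_mul, ← Matrix.mul_assoc] at this
  have key : ∀ (E : Matrix (Fin 4) (Fin 4) ℤ) (t : ℝ), E * E = 1 →
      (∀ i, E i 0 = (1 : Matrix (Fin 4) (Fin 4) ℤ) i 0) → tot (g * im E) = tot g - 2 * t → t ≤ 0 := by
    intro E t hE hE0 ht
    have := flip E hE hE0
    linarith
  have xe : ∀ i, g i 1 = x i := fun i => (hx i).symm
  have ye : ∀ i, g i 2 = y i := fun i => (hy i).symm
  have ze : ∀ i, g i 3 = z i := fun i => (hz i).symm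
  refine ⟨?_, ?_, ?_, ?_, ?_, ?_⟩
  · -- w x : columns -x, y+x, z+x
    refine key !![1, 0, 0, 0; 0, -1, 1, 1; 0, 0, 1, 0; 0, 0, 0, 1] _ (by decide) (by decide) ?_
    simp [tot, Q, B, Matrix.mul_apply, Fin.sum_univ_four, im, hw, xe, ye, ze]
    ring
  · -- w y
    refine key !![1, 0, 0, 0; 0, 1, 0, 0; 0, 1, -1, 1; 0, 0, 0, 1] _ (by decide) (by decide) ?_
    simp [tot, Q, B, Matrix.mul_apply, Fin.sum_univ_four, im, hw, xe, ye, ze]
    ring
  · -- w z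
    refine key !![1, 0, 0, 0; 0, 1, 0, 0; 0, 0, 1, 0; 0, 1, 1, -1] _ (by decide) (by decide) ?_
    simp [tot, Q, B, Matrix.mul_apply, Fin.sum_univ_four, im, hw, xe, ye, ze]
    ring
  · -- x y : columns -x, y, z+x
    refine key !![1, 0, 0, 0; 0, -1, 0, 1; 0, 0, 1, 0; 0, 0, 0, 1] _ (by decide) (by decide) ?_
    simp [tot, Q, B, Matrix.mul_apply, Fin.sum_univ_four, im, xe, ye, ze]
    ring
  · -- x z : columns -x, y+x, z
    refine key !![1, 0, 0, 0; 0, -1, 1, 0; 0, 0, 1, 0; 0, 0, 0, 1] _ (by decide) (by decide) ?_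
    simp [tot, Q, B, Matrix.mul_apply, Fin.sum_univ_four, im, xe, ye, ze]
    ring
  · -- y z : columns x+y, -y, z
    refine key !![1, 0, 0, 0; 0, 1, 0, 0; 0, 1, -1, 0; 0, 0, 0, 1] _ (by decide) (by decide) ?_
    simp [tot, Q, B, Matrix.mul_apply, Fin.sum_univ_four, im, xe, ye, ze]
    ring

end Pool.Agent.H16.Dav
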