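import Pool.Agent.H16.Dav.Roots

/-!
# Certificates for pairs, part 16
-/

namespace Pool.Agent.H16.Dav

theorem pair_data_16 : (loop (rootY 5) 0 1296
  0x1000100100060010003001000800100080010006001000300100010000002000000100000d5000000e000049b000000d000053a000000a0000173000000900001730000007000049b0000005000053a000000200000d500000000000008000614c0002cef0000a0e000113f0002cef000003c0000009000000900091a100042810001b460000e910004281000003b00000090000009000116f0002ce50000499000018a0000123000003c00000080000009000116f00001230000499000018a0002ce5000003c000000900000080000004000000000100020010007001000400100090010009001000700100040010002000000200000010000173000000e000053a000000d000049b000000a00000d5000000900000d50000007000053a0000005000049b000000200001730000000000000800091a100042810000e910001b460004281000003b00000090000009000614c0002cef000113f0000a0e0002cef000003a00000090000009000116f0000123000018a00004990002ce5000003f00000080000009000116f0002ce5000018a00004990000123000003f000000900000080000004000000000100040010001001000900100060010009001000600100040010001000000200000010000410000000e0000342000000d0000342000000a000041000000090000342000000600004100000005000041000000020000342000000100000080002f5a0000450000208000004500002080000003c000000900000090002f5a0002080000045000020800000450000003a000000900000090000fae000015d00002f1000196f0000251000003e000000800000090000fae0000251000196f00002f1000015d000003d000000800000090000fae000196f0000251000015d00002f1000003e000000900000080000fae00002f1000015d0000251000196f000003d0000009000000800000060000000).isSome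 = true := by
  decide +kernel

end Pool.Agent.H16.Dav
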