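import Pool.Agent.H16.Dav.Roots
import Pool.Agent.H16.Dav.PData0
import Pool.Agent.H16.Dav.PData1
import Pool.Agent.H16.Dav.PData2
import Pool.Agent.H16.Dav.PData3
import Pool.Agent.H16.Dav.PData4
import Pool.Agent.H16.Dav.PData5
import Pool.Agent.H16.Dav.PData6
import Pool.Agent.H16.Dav.PData7
import Pool.Agent.H16.Dav.PData8
import Pool.Agent.H16.Dav.PData9
import Pool.Agent.H16.Dav.PData10
import Pool.Agent.H16.Dav.PData11
import Pool.Agent.H16.Dav.PData12
import Pool.Agent.H16.Dav.PData13
import Pool.Agent.H16.Dav.PData14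
import Pool.Agent.H16.Dav.PData15
import Pool.Agent.H16.Dav.PData16

/-!
# All certificates for pairs
-/

namespace Pool.Agent.H16.Dav

theorem of_loop (g : Nat → Nat → Option Nat) (a k m : Nat) (h : (loop g a k m).isSome = true)
    (t : Nat) (h1 : a ≤ t) (h2 : t < a + k) : ∃ m' r, g t m' = some r := by
  obtain ⟨r, hr⟩ := Option.isSome_iff_exists.1 h
  exact loop_sound g a k m r hr t h1 h2

theorem pair_all_0 (t : Nat) (ht : t < 1296) : ∃ m r, rootY 0 t m = some r := by
  by_cases h0 : t < 124
  · exact of_loop _ _ _ _ pair_data_0 t (by omega) (by omega)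
  by_cases h1 : t < 312
  · exact of_loop _ _ _ _ pair_data_1 t (by omega) (by omega)
  by_cases h2 : t < 441
  · exact of_loop _ _ _ _ pair_data_2 t (by omega) (by omega)
  by_cases h3 : t < 451
  · exact of_loop _ _ _ _ pair_data_3 t (by omega) (by omega)
  by_cases h4 : t < 486
  · exact of_loop _ _ _ _ pair_data_4 t (by omega) (by omega)
  exact of_loop _ _ _ _ pair_data_5 t (by omega) (by omega)

theorem pair_all_1 (t : Nat) (ht : t < 1296) : ∃ m r, rootY 1 t m = some r := by
  by_cases h0 : t < 118
  · exact of_loop _ _ _ _ pair_data_6 t (by omega) (by omega)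
  by_cases h1 : t < 327
  · exact of_loop _ _ _ _ pair_data_7 t (by omega) (by omega)
  by_cases h2 : t < 457
  · exact of_loop _ _ _ _ pair_data_8 t (by omega) (by omega)
  by_cases h3 : t < 674
  · exact of_loop _ _ _ _ pair_data_9 t (by omega) (by omega)
  exact of_loop _ _ _ _ pair_data_10 t (by omega) (by omega)

theorem pair_all_2 (t : Nat) (ht : t < 1296) : ∃ m r, rootY 2 t m = some r := by
  by_cases h0 : t < 336
  · exact of_loop _ _ _ _ pair_data_11 t (by omega) (by omega)
  by_cases h1 : t < 664
  · exact of_loop _ _ _ _ pair_data_12 t (by omega) (by omega)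
  exact of_loop _ _ _ _ pair_data_13 t (by omega) (by omega)

theorem pair_all_3 (t : Nat) (ht : t < 1296) : ∃ m r, rootY 3 t m = some r := by
  exact of_loop _ _ _ _ pair_data_14 t (by omega) (by omega)

theorem pair_all_4 (t : Nat) (ht : t < 1296) : ∃ m r, rootY 4 t m = some r := by
  exact of_loop _ _ _ _ pair_data_15 t (by omega) (by omega)

theorem pair_all_5 (t : Nat) (ht : t < 1296) : ∃ m r, rootY 5 t m = some r := by
  exact of_loop _ _ _ _ pair_data_16 t (by omega) (by omega)

theorem pair_all (i : Nat) (hi : i ≤ 5) (t : Nat) (ht : t < 1296) :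
    ∃ m r, rootY i t m = some r := by
  interval_cases i
  · exact pair_all_0 t ht
  · exact pair_all_1 t ht
  · exact pair_all_2 t ht
  · exact pair_all_3 t ht
  · exact pair_all_4 t ht
  · exact pair_all_5 t ht

end Pool.Agent.H16.Dav
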