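import Pool.Agent.H16.Dav.SData
import Pool.Agent.H16.Dav.PAll

/-!
# The two computer assisted inequalities
-/

namespace Pool.Agent.H16.Dav

/-- Four integers from a function. -/
def toF (f : Fin 4 → ℤ) : F4 := ⟨f 0, f 1, f 2, f 3⟩

/-- The type of a vector of integers. -/
def tp (f : Fin 4 → ℤ) : ℕ := typ (toF f)

/-- The floors of a vector. -/
noncomputable def flo (v : Fin 4 → ℝ) : Fin 4 → ℤ := fun i => ⌊v i⌋

theorem minF_le (f : Fin 4 → ℤ) (i : Fin 4) : minF (toF f) ≤ f i := by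
  have h0 : minF (toF f) ≤ f 0 := by simp only [minF, toF]; omega
  have h1 : minF (toF f) ≤ f 1 := by simp only [minF, toF]; omega
  have h2 : minF (toF f) ≤ f 2 := by simp only [minF, toF]; omega
  have h3 : minF (toF f) ≤ f 3 := by simp only [minF, toF]; omega
  fin_cases i
  exacts [h0, h1, h2, h3]

theorem minF_eq (f : Fin 4 → ℤ) : ∃ i, minF (toF f) = f i := by
  have : minF (toF f) = f 0 ∨ minF (toF f) = f 1 ∨ minF (toF f) = f 2 ∨ minF (toF f) = f 3 := by
    simp only [minF, toF]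
    omega
  rcases this with h | h | h | h
  · exact ⟨0, h⟩
  · exact ⟨1, h⟩
  · exact ⟨2, h⟩
  · exact ⟨3, h⟩

theorem minF_perm (f : Fin 4 → ℤ) (σ : Equiv.Perm (Fin 4)) :
    minF (toF (f ∘ σ)) = minF (toF f) := by
  apply le_antisymm
  · obtain ⟨i, hi⟩ := minF_eq f
    rw [hi]
    have := minF_le (f ∘ σ) (σ.symm i)
    simpa using this
  · obtain ⟨i, hi⟩ := minF_eq (f ∘ σ)
    rw [hi]
    exact minF_le f (σ i)

theorem minF_shift (f : Fin 4 → ℤ) (c : ℤ) :
    minF (toF fun i => f i + c) = minF (toF f) + c := by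
  simp only [minF, toF]
  omega

theorem codeF_eq (f : Fin 4 → ℤ) : codeF (toF f) = ∑ i, 5 ^ (f i - minF (toF f)).toNat := by
  rw [Fin.sum_univ_four]
  simp only [codeF, Nat.pow_eq]
  simp only [toF]
  ring

theorem tp_perm (f : Fin 4 → ℤ) (σ : Equiv.Perm (Fin 4)) : tp (f ∘ σ) = tp f := by
  unfold tp typ
  rw [codeF_eq, codeF_eq, minF_perm]
  congr 1
  exact Equiv.sum_comp σ fun i => 5 ^ (f i - minF (toF f)).toNat

theorem tp_shift (f : Fin 4 → ℤ) (c : ℤ) : tp (fun i => f i + c) = tp f := by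
  unfold tp typ
  rw [codeF_eq, codeF_eq, minF_shift]
  congr 1
  refine Finset.sum_congr rfl fun i _ => ?_
  congr 2
  ring

theorem posIn_le (c : ℕ) : ∀ (l : List ℕ) (k : ℕ), posIn c l k ≤ max 21 (k + l.length) := by
  intro l
  induction l with
  | nil => intro k; simp [posIn]
  | cons d l ih =>
    intro k
    rw [posIn]
    cases Nat.beq c d
    · have := ih (k + 1)
      simp only [cond_false, List.length_cons]
      omega
    · simp only [cond_true, List.length_cons]
      omega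

theorem tp_le (f : Fin 4 → ℤ) : tp f ≤ 21 := by
  have := posIn_le (codeF (toF f)) codes 0
  have h2 : codes.length = 21 := rfl
  unfold tp typ
  omega

theorem QL_le (k : ℕ) : QL k ≤ 4240 := by
  by_cases h : k < 21
  · interval_cases k <;> simp [QL]
  · have : QL k = 4240 := by
      obtain ⟨m, rfl⟩ : ∃ m, k = m + 21 := ⟨k - 21, by omega⟩
      rfl
    omega

theorem QL_ge (k : ℕ) : 2380 ≤ QL k := by
  by_cases h : k < 21
  · interval_cases k <;> simp [QL]
  · have : QL k = 4240 := by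
      obtain ⟨m, rfl⟩ : ∃ m, k = m + 21 := ⟨k - 21, by omega⟩
      rfl
    omega

theorem QL_mono (j k : ℕ) (h : j ≤ k) (hk : k ≤ 20) : QL j ≤ QL k := by
  have h2 : j ≤ 20 := by omega
  interval_cases k <;> interval_cases j <;> simp_all [QL]

theorem QL_21 : QL 21 = 4240 := rfl

theorem floorOK_toF (v : Fin 4 → ℝ) : FloorOK (toF (flo v)) v := by
  intro i
  rcases i with _ | _ | _ | i
  · exact ⟨Int.floor_le _, (Int.lt_floor_add_one _).le⟩
  · exact ⟨Int.floor_le _, (Int.lt_floor_add_one _).le⟩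
  · exact ⟨Int.floor_le _, (Int.lt_floor_add_one _).le⟩
  · exact ⟨Int.floor_le _, (Int.lt_floor_add_one _).le⟩

theorem Q_perm (v : Fin 4 → ℝ) (σ : Equiv.Perm (Fin 4)) : Q (v ∘ σ) = Q v := by
  unfold Q
  rw [← Equiv.sum_comp σ fun i => v i ^ 2, ← Equiv.sum_comp σ fun i => v i]
  rfl

theorem Q_shift (v : Fin 4 → ℝ) (c : ℝ) : Q (fun i => v i + c) = Q v := by
  unfold Q
  simp only [Fin.sum_univ_four]
  ring

theorem SS_zero (v : Fin 4 → ℝ) : SS v 0 = 2 * Q v := by
  unfold SS Q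
  simp only [Fin.sum_univ_four, Pi.zero_apply, add_zero]
  ring

theorem single_sorted (v : Fin 4 → ℝ) (h : ∀ n : ℤ, 1 ≤ |∏ i, (v i + n)|) (a b c : ℕ)
    (hab : a ≤ b) (hbc : b ≤ c) (hc : c ≤ 5) (h3 : 3 ≤ c)
    (hf : toF (flo v) = ⟨0, a, b, c⟩) : (QL (typ ⟨0, a, b, c⟩) : ℝ) / 100 < Q v := by
  by_contra hcon
  rw [not_lt] at hcon
  obtain ⟨m, r, hr⟩ := of_loop _ _ _ _ single_data (a + 6 * b + 36 * c) (Nat.zero_le _) (by omega)
  have e1 : (a + 6 * b + 36 * c) % 6 = a := by omega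
  have e2 : (a + 6 * b + 36 * c) / 6 % 6 = b := by omega
  have e3 : (a + 6 * b + 36 * c) / 36 % 6 = c := by omega
  rw [rootS, e1, e2, e3] at hr
  have e4 : Nat.ble a b = true := Nat.ble_eq_true_of_le hab
  have e5 : Nat.ble b c = true := Nat.ble_eq_true_of_le hbc
  have e6 : Nat.ble 3 c = true := Nat.ble_eq_true_of_le h3
  rw [e4, e5, e6] at hr
  simp only [Bool.and_self, cond_true] at hr
  have hf0 := floorOK_toF v
  rw [hf] at hf0
  have hz : ∀ i, vget (0 : Fin 4 → ℝ) i = 0 := by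
    intro i
    rcases i with _ | _ | _ | i <;> rfl
  rw [tcheck_sound true _ v 0 ?_ ?_ _ _ _ ?_] at hr
  · simp at hr
  · intro n a b hab
    simp only [if_true] at hab
    obtain ⟨rfl, rfl⟩ := hab
    have := h n
    rwa [show (∏ i, (v i + (n : ℝ))) = ∏ i, ((n : ℝ) + (1 : ℤ) * v i + (0 : ℤ) * (0 : Fin 4 → ℝ) i)
      from Finset.prod_congr rfl fun i _ => by simp; ring] at this
  · rw [SS_zero]
    push_cast
    linarith
  · refine ⟨hf0, ?_, by simpa using hf0, ?_⟩
    · intro i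
      rw [hz]
      rcases i with _ | _ | _ | i <;> simp [F4.get]
    · intro f hf
      simp only [List.mem_cons, List.not_mem_nil, or_false] at hf
      rcases hf with rfl | rfl | rfl | rfl <;> simp [Fact.Holds, vget]

theorem ne_int (v : Fin 4 → ℝ) (h : ∀ n : ℤ, 1 ≤ |∏ i, (v i + n)|) (i : Fin 4) (n : ℤ) :
    v i ≠ n := by
  intro hv
  have := h (-n)
  rw [Finset.prod_eq_zero (Finset.mem_univ i)] at this
  · norm_num at this
  · rw [hv]
    push_cast
    ring

theorem flo_shift (v : Fin 4 → ℝ) (c : ℤ) : flo (fun i => v i + c) = fun i => flo v i + c := by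
  funext i
  simp [flo]

theorem single_gen (v : Fin 4 → ℝ) (h : ∀ n : ℤ, 1 ≤ |∏ i, (v i + n)|) (hv : ¬ Golden v) :
    (QL (tp (flo v)) : ℝ) / 100 ≤ Q v := by
  set σ := Tuple.sort (flo v) with hσ
  have hmono : Monotone (flo v ∘ σ) := Tuple.monotone_sort (flo v)
  set c : ℤ := flo v (σ 0) with hc
  set w : Fin 4 → ℝ := fun i => (v ∘ σ) i + ((-c : ℤ) : ℝ) with hw
  have hQ : Q w = Q v := by rw [hw, Q_shift, Q_perm]
  have hfw : flo w = fun i => (flo v ∘ σ) i + (-c) := by
    rw [hw, flo_shift]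
    rfl
  have htp : tp (flo w) = tp (flo v) := by
    rw [hfw, tp_shift, tp_perm]
  have hadm : ∀ n : ℤ, 1 ≤ |∏ i, (w i + n)| := by
    intro n
    have := h (-c + n)
    rw [← Equiv.prod_comp σ] at this
    rwa [show (∏ i, (v (σ i) + ((-c + n : ℤ) : ℝ))) = ∏ i, (w i + n) from
      Finset.prod_congr rfl fun i _ => by
        simp only [hw, Function.comp_apply]
        push_cast
        ring] at this
  have h0 : flo w 0 = 0 := by
    rw [hfw]
    simp [hc]
  have h01 : flo w 0 ≤ flo w 1 := by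
    rw [hfw]
    have := hmono (show (0 : Fin 4) ≤ 1 by decide)
    simpa using this
  have h12 : flo w 1 ≤ flo w 2 := by
    rw [hfw]
    have := hmono (show (1 : Fin 4) ≤ 2 by decide)
    simpa using this
  have h23 : flo w 2 ≤ flo w 3 := by
    rw [hfw]
    have := hmono (show (2 : Fin 4) ≤ 3 by decide)
    simpa using this
  rw [← hQ, ← htp]
  have hb : ∀ i, (flo w i : ℝ) ≤ w i ∧ w i < flo w i + 1 :=
    fun i => ⟨Int.floor_le _, Int.lt_floor_add_one _⟩
  have h3 : 3 ≤ flo w 3 := by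
    by_contra hcon
    apply hv
    refine ⟨c, fun i => ?_⟩
    have hi : ∀ i, 0 ≤ flo w i ∧ flo w i ≤ 2 := by
      intro i
      fin_cases i
      · exact ⟨h0.ge, by show flo w 0 ≤ 2; omega⟩
      · exact ⟨by show 0 ≤ flo w 1; omega, by show flo w 1 ≤ 2; omega⟩
      · exact ⟨by show 0 ≤ flo w 2; omega, by show flo w 2 ≤ 2; omega⟩
      · exact ⟨by show 0 ≤ flo w 3; omega, by show flo w 3 ≤ 2; omega⟩
    obtain ⟨j, rfl⟩ := σ.surjective i
    have hj := hb j
    have hwj : w j = v (σ j) - c := by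
      simp only [hw, Function.comp_apply]
      push_cast
      ring
    have hne := ne_int v h (σ j) c
    have h1 : (0 : ℝ) ≤ flo w j := by exact_mod_cast (hi j).1
    have h2 : (flo w j : ℝ) ≤ 2 := by exact_mod_cast (hi j).2
    constructor
    · have : (c : ℝ) ≤ v (σ j) := by linarith
      exact lt_of_le_of_ne this (Ne.symm hne)
    · linarith
  by_cases h6 : 6 ≤ flo w 3
  · have h7 : (6 : ℝ) ≤ flo w 3 := by exact_mod_cast h6
    have h8 : (flo w 0 : ℝ) = 0 := by exact_mod_cast h0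
    have h9 : 5 < w 3 - w 0 := by linarith [(hb 3).1, (hb 0).2]
    have h10 : (QL (tp (flo w)) : ℝ) ≤ 4240 := by exact_mod_cast QL_le _
    have h11 : 2 * (w 3 - w 0) ^ 2 ≤ Q w := by
      unfold Q
      simp only [Fin.sum_univ_four]
      nlinarith [sq_nonneg (w 3 + w 0 - 2 * w 1), sq_nonneg (w 3 + w 0 - 2 * w 2),
        sq_nonneg (w 1 - w 2)]
    nlinarith
  · obtain ⟨a, ha⟩ : ∃ a : ℕ, flo w 1 = a := ⟨(flo w 1).toNat, by omega⟩
    obtain ⟨b, hb'⟩ : ∃ a : ℕ, flo w 2 = a := ⟨(flo w 2).toNat, by omega⟩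
    obtain ⟨d, hd⟩ : ∃ a : ℕ, flo w 3 = a := ⟨(flo w 3).toNat, by omega⟩
    have hf : toF (flo w) = ⟨0, a, b, d⟩ := by
      simp only [toF, h0, ha, hb', hd]
    have := single_sorted w hadm a b d (by omega) (by omega) (by omega) (by omega) hf
    rw [← hf] at this
    exact this.le

theorem single_bound (x : Fin 4 → ℝ) (h : ∀ n : ℤ, 1 ≤ |∏ i, (x i + n)|) (hx : ¬ Golden x) :
    23.8 ≤ Q x := by
  have h1 := single_gen x h hx
  have h2 : (2380 : ℝ) ≤ QL (tp (flo x)) := by exact_mod_cast QL_ge _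
  linarith

theorem posIn_not_mem (c : ℕ) : ∀ (l : List ℕ) (k : ℕ), c ∉ l → posIn c l k = 21 := by
  intro l
  induction l with
  | nil => intro k _; rfl
  | cons d l ih =>
    intro k h
    rw [posIn]
    rw [List.mem_cons, not_or] at h
    have h1 : Nat.beq c d = false := by
      cases h2 : Nat.beq c d
      · rfl
      · exact absurd (Nat.eq_of_beq_eq_true h2) h.1
    rw [h1]
    exact ih (k + 1) h.2

theorem le_five (f : Fin 4 → ℤ) (h : tp f ≤ 20) (i : Fin 4) : f i ≤ minF (toF f) + 5 := by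
  have h1 : codeF (toF f) ∈ codes := by
    by_contra hc
    have := posIn_not_mem _ codes 0 hc
    unfold tp typ at h
    omega
  have h2 : codeF (toF f) ≤ 3876 := by
    revert h1
    generalize codeF (toF f) = c
    intro h1
    have : ∀ c ∈ codes, c ≤ 3876 := by decide
    exact this c h1
  rw [codeF_eq] at h2
  have h3 : 5 ^ (f i - minF (toF f)).toNat ≤ ∑ i, 5 ^ (f i - minF (toF f)).toNat :=
    Finset.single_le_sum (f := fun i => 5 ^ (f i - minF (toF f)).toNat)
      (fun _ _ => Nat.zero_le _) (Finset.mem_univ i)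
  have h4 : 5 ^ (f i - minF (toF f)).toNat < 5 ^ 6 := by
    have : (5 : ℕ) ^ 6 = 15625 := by norm_num
    omega
  have h5 := (Nat.pow_lt_pow_iff_right (by norm_num : 1 < 5)).1 h4
  omega

theorem TYv_check' : ∀ a b c : Fin 6, a ≤ b → b ≤ c →
    typ ⟨0, (a.val : Int), (b.val : Int), (c.val : Int)⟩ ≤ 5 →
    (TYv (typ ⟨0, (a.val : Int), (b.val : Int), (c.val : Int)⟩)).p0 = 0 ∧
    (TYv (typ ⟨0, (a.val : Int), (b.val : Int), (c.val : Int)⟩)).p1 = (a.val : Int) ∧
    (TYv (typ ⟨0, (a.val : Int), (b.val : Int), (c.val : Int)⟩)).p2 = (b.val : Int) ∧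
    (TYv (typ ⟨0, (a.val : Int), (b.val : Int), (c.val : Int)⟩)).p3 = (c.val : Int) := by
  decide +kernel

theorem TYv_check (a : ℕ) (ha : a < 6) (b : ℕ) (hb : b < 6) (c : ℕ) (hc : c < 6) (hab : a ≤ b)
    (hbc : b ≤ c) (h : typ ⟨0, (a : ℕ), (b : ℕ), (c : ℕ)⟩ ≤ 5) :
    (TYv (typ ⟨0, (a : ℕ), (b : ℕ), (c : ℕ)⟩)).p0 = 0 ∧
    (TYv (typ ⟨0, (a : ℕ), (b : ℕ), (c : ℕ)⟩)).p1 = a ∧
    (TYv (typ ⟨0, (a : ℕ), (b : ℕ), (c : ℕ)⟩)).p2 = b ∧
    (TYv (typ ⟨0, (a : ℕ), (b : ℕ), (c : ℕ)⟩)).p3 = c :=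
  TYv_check' ⟨a, ha⟩ ⟨b, hb⟩ ⟨c, hc⟩ hab hbc h

theorem F4.ext' (f g : F4) (h0 : f.p0 = g.p0) (h1 : f.p1 = g.p1) (h2 : f.p2 = g.p2)
    (h3 : f.p3 = g.p3) : f = g := by
  cases f
  cases g
  simp_all

/-- The core: the floors of `x` are sorted, starting with `0`, the smallest floor of `y` is `0`. -/
theorem core (x y : Fin 4 → ℝ)
    (h : ∀ n a b : ℤ, ¬ (a = 0 ∧ b = 0) → 1 ≤ |∏ i, (n + a * x i + b * y i)|)
    (h0 : flo x 0 = 0) (h01 : flo x 0 ≤ flo x 1) (h12 : flo x 1 ≤ flo x 2)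
    (h23 : flo x 2 ≤ flo x 3) (hy0 : minF (toF (flo y)) = 0)
    (hij : tp (flo x) ≤ tp (flo y)) (hjk : tp (flo y) ≤ tp (flo fun i => -(x i + y i)))
    (hq : QL (tp (flo x)) + QL (tp (flo y)) + QL (tp (flo fun i => -(x i + y i))) < 9000) :
    90 < Q x + Q y + Q (x + y) := by
  by_contra hcon
  rw [not_lt] at hcon
  set i := tp (flo x) with hi
  set j := tp (flo y) with hj
  set k := tp (flo fun i => -(x i + y i)) with hk
  have hk20 : k ≤ 20 := by
    by_contra hk'
    have h1 : k = 21 := le_antisymm (tp_le _) (by omega)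
    have h2 := QL_ge i
    have h3 := QL_ge j
    rw [h1, QL_21] at hq
    omega
  have hj20 : j ≤ 20 := hjk.trans hk20
  have hi20 : i ≤ 20 := hij.trans hj20
  have hq1 := QL_mono i j hij hj20
  have hq2 := QL_mono j k hjk hk20
  have hi5 : i ≤ 5 := by
    by_contra hi'
    have := QL_mono 6 i (by omega) hi20
    have h6 : QL 6 = 3195 := rfl
    omega
  -- the floors of `x`
  have hx5 := le_five (flo x) hi20
  have hmin : minF (toF (flo x)) ≤ 0 := by
    have := minF_le (flo x) 0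
    omega
  obtain ⟨a1, ha1⟩ : ∃ a : ℕ, flo x 1 = a := ⟨(flo x 1).toNat, by omega⟩
  obtain ⟨a2, ha2⟩ : ∃ a : ℕ, flo x 2 = a := ⟨(flo x 2).toNat, by omega⟩
  obtain ⟨a3, ha3⟩ : ∃ a : ℕ, flo x 3 = a := ⟨(flo x 3).toNat, by omega⟩
  have hxF : toF (flo x) = ⟨0, a1, a2, a3⟩ := by simp only [toF, h0, ha1, ha2, ha3]
  have hTY : toF (flo x) = TYv i := by
    have h3 := hx5 3
    have := TYv_check a1 (by omega) a2 (by omega) a3 (by omega) (by omega) (by omega)
      (by rw [← hxF]; exact hi5)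
    rw [← hxF] at this
    rw [hi]
    unfold tp
    obtain ⟨t0, t1, t2, t3⟩ := this
    apply F4.ext'
    · rw [t0]; exact h0
    · rw [t1]; exact ha1
    · rw [t2]; exact ha2
    · rw [t3]; exact ha3
  -- the floors of `y`
  have hy5 := le_five (flo y) hj20
  have hymin := minF_le (flo y)
  have hyb : ∀ q, 0 ≤ flo y q ∧ flo y q ≤ 5 := by
    intro q
    have h1 := hy5 q
    have h2 := hymin q
    omega
  obtain ⟨b0, hb0⟩ : ∃ a : ℕ, flo y 0 = a := ⟨(flo y 0).toNat, by have := hyb 0; omega⟩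
  obtain ⟨b1, hb1⟩ : ∃ a : ℕ, flo y 1 = a := ⟨(flo y 1).toNat, by have := hyb 1; omega⟩
  obtain ⟨b2, hb2⟩ : ∃ a : ℕ, flo y 2 = a := ⟨(flo y 2).toNat, by have := hyb 2; omega⟩
  obtain ⟨b3, hb3⟩ : ∃ a : ℕ, flo y 3 = a := ⟨(flo y 3).toNat, by have := hyb 3; omega⟩
  have hb0' := hyb 0
  have hb1' := hyb 1
  have hb2' := hyb 2
  have hb3' := hyb 3
  have hyF : toF (flo y) = decF (b0 + 6 * b1 + 36 * b2 + 216 * b3) := by
    have e0 : (b0 + 6 * b1 + 36 * b2 + 216 * b3) % 6 = b0 := by omega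
    have e1 : (b0 + 6 * b1 + 36 * b2 + 216 * b3) / 6 % 6 = b1 := by omega
    have e2 : (b0 + 6 * b1 + 36 * b2 + 216 * b3) / 36 % 6 = b2 := by omega
    have e3 : (b0 + 6 * b1 + 36 * b2 + 216 * b3) / 216 = b3 := by omega
    simp only [toF, decF, e0, e1, e2, e3, hb0, hb1, hb2, hb3]
  obtain ⟨m, r, hr⟩ := pair_all i hi5 (b0 + 6 * b1 + 36 * b2 + 216 * b3) (by omega)
  rw [rootY, ← hyF] at hr
  have hty : typ (toF (flo y)) = j := rfl
  rw [hty, hy0] at hr
  have c1 : Nat.ble i j = true := Nat.ble_eq_true_of_le hij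
  have c2 : Nat.ble j 20 = true := Nat.ble_eq_true_of_le hj20
  have c3 : decide (QL i + 2 * QL j < 9000) = true := by
    rw [decide_eq_true_eq]
    omega
  rw [c1, c2, c3] at hr
  simp only [decide_true, Bool.and_self, cond_true] at hr
  -- the floors of the sum
  have hs : ∀ q, flo (x + y) q = flo x q + flo y q ∨ flo (x + y) q = flo x q + flo y q + 1 := by
    intro q
    have g1 : flo x q + flo y q ≤ flo (x + y) q := by
      apply Int.le_floor.2
      push_cast
      have := Int.floor_le (x q)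
      have := Int.floor_le (y q)
      simp only [Pi.add_apply, flo]
      linarith
    have g2 : flo (x + y) q < flo x q + flo y q + 2 := by
      apply Int.floor_lt.2
      push_cast
      have := Int.lt_floor_add_one (x q)
      have := Int.lt_floor_add_one (y q)
      simp only [Pi.add_apply, flo]
      linarith
    omega
  obtain ⟨e0, he0, he0'⟩ : ∃ e : ℕ, e ≤ 1 ∧ flo (x + y) 0 = flo x 0 + flo y 0 + e := by
    rcases hs 0 with g | g
    · exact ⟨0, by omega, by omega⟩
    · exact ⟨1, by omega, by omega⟩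
  obtain ⟨e1, he1, he1'⟩ : ∃ e : ℕ, e ≤ 1 ∧ flo (x + y) 1 = flo x 1 + flo y 1 + e := by
    rcases hs 1 with g | g
    · exact ⟨0, by omega, by omega⟩
    · exact ⟨1, by omega, by omega⟩
  obtain ⟨e2, he2, he2'⟩ : ∃ e : ℕ, e ≤ 1 ∧ flo (x + y) 2 = flo x 2 + flo y 2 + e := by
    rcases hs 2 with g | g
    · exact ⟨0, by omega, by omega⟩
    · exact ⟨1, by omega, by omega⟩
  obtain ⟨e3, he3, he3'⟩ : ∃ e : ℕ, e ≤ 1 ∧ flo (x + y) 3 = flo x 3 + flo y 3 + e := by
    rcases hs 3 with g | g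
    · exact ⟨0, by omega, by omega⟩
    · exact ⟨1, by omega, by omega⟩
  have hsF : toF (flo (x + y)) =
      sumF (toF (flo x)) (toF (flo y)) (e0 + 2 * e1 + 4 * e2 + 8 * e3) := by
    have f0 : (e0 + 2 * e1 + 4 * e2 + 8 * e3) % 2 = e0 := by omega
    have f1 : (e0 + 2 * e1 + 4 * e2 + 8 * e3) / 2 % 2 = e1 := by omega
    have f2 : (e0 + 2 * e1 + 4 * e2 + 8 * e3) / 4 % 2 = e2 := by omega
    have f3 : (e0 + 2 * e1 + 4 * e2 + 8 * e3) / 8 % 2 = e3 := by omega
    simp only [toF, sumF, f0, f1, f2, f3, he0', he1', he2', he3']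
  have hneg : toF (flo fun i => -(x i + y i)) = negF (toF (flo (x + y))) := by
    have hn : ∀ q, flo (fun i => -(x i + y i)) q = -flo (x + y) q - 1 := by
      intro q
      have hne : ∀ n : ℤ, x q + y q ≠ n := by
        intro n hn
        have := h (-n) 1 1 (by norm_num)
        rw [Finset.prod_eq_zero (Finset.mem_univ q)] at this
        · norm_num at this
        · push_cast
          linarith
      simp only [flo, Pi.add_apply]
      rw [Int.floor_neg]
      have hc : ⌈x q + y q⌉ = ⌊x q + y q⌋ + 1 := by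
        rw [Int.ceil_eq_iff]
        push_cast
        constructor
        · have := Int.floor_le (x q + y q)
          have h2 := hne ⌊x q + y q⌋
          have h3 : (⌊x q + y q⌋ : ℝ) < x q + y q := lt_of_le_of_ne this (Ne.symm h2)
          linarith
        · exact (Int.lt_floor_add_one _).le
      rw [hc]
      ring
    simp only [toF, negF, hn]
  have hkt : k = typ (negF (sumF (TYv i) (toF (flo y)) (e0 + 2 * e1 + 4 * e2 + 8 * e3))) := by
    rw [hk, ← hTY, ← hsF, ← hneg]
    rfl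
  obtain ⟨m', r', hr'⟩ := loop_sound _ _ _ _ _ hr (e0 + 2 * e1 + 4 * e2 + 8 * e3)
    (Nat.zero_le _) (by omega)
  rw [rootE, ← hkt] at hr'
  have d1 : Nat.ble j k = true := Nat.ble_eq_true_of_le hjk
  have d2 : Nat.ble k 20 = true := Nat.ble_eq_true_of_le hk20
  have d3 : decide (QL i + QL j + QL k < 9000) = true := by
    rw [decide_eq_true_eq]
    exact hq
  rw [d1, d2, d3] at hr'
  simp only [Bool.and_self, cond_true] at hr'
  rw [tcheck_sound false 9000 x y ?_ ?_ _ _ _ ?_] at hr'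
  · simp at hr'
  · intro n a b hab
    simp only [Bool.false_eq_true, if_false] at hab
    exact h n a b hab
  · unfold SS
    norm_num
    linarith
  · refine ⟨?_, floorOK_toF y, ?_, by simp⟩
    · rw [← hTY]
      exact floorOK_toF x
    · rw [← hTY, ← hsF]
      exact floorOK_toF (x + y)

theorem Q_negsum (x y : Fin 4 → ℝ) : Q (fun i => -(x i + y i)) = Q (x + y) := by
  unfold Q
  simp only [Fin.sum_univ_four, Pi.add_apply]
  ring

/-- The hypothesis of the pair bound. -/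
def AdmP (x y : Fin 4 → ℝ) : Prop :=
  ∀ n a b : ℤ, ¬ (a = 0 ∧ b = 0) → 1 ≤ |∏ i, (n + a * x i + b * y i)|

theorem AdmP.x {x y : Fin 4 → ℝ} (h : AdmP x y) (n : ℤ) : 1 ≤ |∏ i, (x i + n)| := by
  have := h n 1 0 (by norm_num)
  rwa [show (∏ i, ((n : ℝ) + (1 : ℤ) * x i + (0 : ℤ) * y i)) = ∏ i, (x i + n) from
    Finset.prod_congr rfl fun i _ => by push_cast; ring] at this

theorem AdmP.y {x y : Fin 4 → ℝ} (h : AdmP x y) (n : ℤ) : 1 ≤ |∏ i, (y i + n)| := by
  have := h n 0 1 (by norm_num)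
  rwa [show (∏ i, ((n : ℝ) + (0 : ℤ) * x i + (1 : ℤ) * y i)) = ∏ i, (y i + n) from
    Finset.prod_congr rfl fun i _ => by push_cast; ring] at this

theorem AdmP.z {x y : Fin 4 → ℝ} (h : AdmP x y) (n : ℤ) : 1 ≤ |∏ i, (-(x i + y i) + n)| := by
  have := h n (-1) (-1) (by norm_num)
  rwa [show (∏ i, ((n : ℝ) + (-1 : ℤ) * x i + (-1 : ℤ) * y i)) = ∏ i, (-(x i + y i) + n) from
    Finset.prod_congr rfl fun i _ => by push_cast; ring] at this

theorem AdmP.swap {x y : Fin 4 → ℝ} (h : AdmP x y) : AdmP y x := by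
  intro n a b hab
  have := h n b a (by tauto)
  rwa [show (∏ i, ((n : ℝ) + b * x i + a * y i)) = ∏ i, (n + a * y i + b * x i) from
    Finset.prod_congr rfl fun i _ => by ring] at this

theorem AdmP.rot {x y : Fin 4 → ℝ} (h : AdmP x y) : AdmP x (fun i => -(x i + y i)) := by
  intro n a b hab
  have := h n (a - b) (-b) (by omega)
  rwa [show (∏ i, ((n : ℝ) + (a - b : ℤ) * x i + (-b : ℤ) * y i)) =
      ∏ i, (n + a * x i + b * -(x i + y i)) from
    Finset.prod_congr rfl fun i _ => by push_cast; ring] at this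

theorem AdmP.move {x y : Fin 4 → ℝ} (h : AdmP x y) (σ : Equiv.Perm (Fin 4)) (c d : ℤ) :
    AdmP (fun i => (x ∘ σ) i + ((-c : ℤ) : ℝ)) (fun i => (y ∘ σ) i + ((-d : ℤ) : ℝ)) := by
  intro n a b hab
  have := h (n - a * c - b * d) a b hab
  rw [← Equiv.prod_comp σ] at this
  rwa [show (∏ i, (((n - a * c - b * d : ℤ) : ℝ) + a * x (σ i) + b * y (σ i))) =
      ∏ i, (n + a * ((x ∘ σ) i + ((-c : ℤ) : ℝ)) + b * ((y ∘ σ) i + ((-d : ℤ) : ℝ))) from
    Finset.prod_congr rfl fun i _ => by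
      simp only [Function.comp_apply]
      push_cast
      ring] at this

theorem ordered (x y : Fin 4 → ℝ) (h : AdmP x y) (hx : ¬ Golden x) (hy : ¬ Golden y)
    (hz : ¬ Golden fun i => -(x i + y i))
    (hij : tp (flo x) ≤ tp (flo y)) (hjk : tp (flo y) ≤ tp (flo fun i => -(x i + y i))) :
    90 ≤ Q x + Q y + Q (x + y) := by
  by_contra hcon
  rw [not_le] at hcon
  have q1 := single_gen x h.x hx
  have q2 := single_gen y h.y hy
  have q3 := single_gen (fun i => -(x i + y i)) h.z hz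
  rw [Q_negsum] at q3
  set σ := Tuple.sort (flo x) with hσ
  have hmono : Monotone (flo x ∘ σ) := Tuple.monotone_sort (flo x)
  set c : ℤ := flo x (σ 0) with hc
  set d : ℤ := minF (toF (flo y)) with hd
  set x' : Fin 4 → ℝ := fun i => (x ∘ σ) i + ((-c : ℤ) : ℝ) with hx'
  set y' : Fin 4 → ℝ := fun i => (y ∘ σ) i + ((-d : ℤ) : ℝ) with hy'
  have hadm : AdmP x' y' := h.move σ c d
  have fx : flo x' = fun i => (flo x ∘ σ) i + (-c) := by
    rw [hx', flo_shift]
    rfl
  have fy : flo y' = fun i => (flo y ∘ σ) i + (-d) := by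
    rw [hy', flo_shift]
    rfl
  have hzz : (fun i => -(x' i + y' i)) =
      fun i => ((fun i => -(x i + y i)) ∘ σ) i + ((c + d : ℤ) : ℝ) := by
    funext i
    simp only [hx', hy', Function.comp_apply]
    push_cast
    ring
  have fz : flo (fun i => -(x' i + y' i)) =
      fun i => (flo (fun i => -(x i + y i)) ∘ σ) i + (c + d) := by
    rw [hzz, flo_shift]
    rfl
  have tx : tp (flo x') = tp (flo x) := by rw [fx, tp_shift, tp_perm]
  have ty : tp (flo y') = tp (flo y) := by rw [fy, tp_shift, tp_perm]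
  have tz : tp (flo fun i => -(x' i + y' i)) = tp (flo fun i => -(x i + y i)) := by
    rw [fz, tp_shift, tp_perm]
  have Qx : Q x' = Q x := by rw [hx', Q_shift, Q_perm]
  have Qy : Q y' = Q y := by rw [hy', Q_shift, Q_perm]
  have Qz : Q (x' + y') = Q (x + y) := by
    rw [← Q_negsum, hzz, Q_shift, Q_perm, Q_negsum]
  have := core x' y' hadm ?_ ?_ ?_ ?_ ?_ ?_ ?_ ?_
  · rw [Qx, Qy, Qz] at this
    linarith
  · rw [fx]
    simp [hc]
  · rw [fx]
    have := hmono (show (0 : Fin 4) ≤ 1 by decide)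
    simpa using this
  · rw [fx]
    have := hmono (show (1 : Fin 4) ≤ 2 by decide)
    simpa using this
  · rw [fx]
    have := hmono (show (2 : Fin 4) ≤ 3 by decide)
    simpa using this
  · rw [fy, minF_shift, minF_perm, ← hd]
    ring
  · rw [tx, ty]
    exact hij
  · rw [ty, tz]
    exact hjk
  · rw [tx, ty, tz]
    have : ((QL (tp (flo x)) + QL (tp (flo y)) + QL (tp (flo fun i => -(x i + y i))) : ℤ) : ℝ) <
        ((9000 : ℤ) : ℝ) := by
      push_cast
      linarith
    exact_mod_cast this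

theorem golden_neg {v : Fin 4 → ℝ} (h : Golden fun i => -v i) : Golden v := by
  obtain ⟨n, hn⟩ := h
  refine ⟨-n - 3, fun i => ?_⟩
  have := hn i
  push_cast
  constructor <;> linarith [this.1, this.2]

theorem pair_bound (x y : Fin 4 → ℝ)
    (h : ∀ n a b : ℤ, (n, a, b) ≠ (0, 0, 0) → 1 ≤ |∏ i, (n + a * x i + b * y i)|)
    (hx : ¬ Golden x) (hy : ¬ Golden y) (hxy : ¬ Golden (x + y)) :
    90 ≤ Q x + Q y + Q (x + y) := by
  have hP : AdmP x y := by
    intro n a b hab
    apply h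
    intro he
    simp only [Prod.mk.injEq] at he
    exact hab he.2
  set z : Fin 4 → ℝ := fun i => -(x i + y i) with hz
  have hzg : ¬ Golden z := fun hg => hxy (golden_neg (v := x + y) hg)
  have Qz : Q z = Q (x + y) := Q_negsum x y
  have zx : (fun i => -(x i + z i)) = y := by
    funext i
    simp only [hz]
    ring
  have xz : (fun i => -(z i + x i)) = y := by
    funext i
    simp only [hz]
    ring
  have zy : (fun i => -(y i + z i)) = x := by
    funext i
    simp only [hz]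
    ring
  have yz : (fun i => -(z i + y i)) = x := by
    funext i
    simp only [hz]
    ring
  have yx : (fun i => -(y i + x i)) = z := by
    funext i
    simp only [hz]
    ring
  have Pxz : AdmP x z := hP.rot
  have Pyz : AdmP y z := by
    have := hP.swap.rot
    rwa [yx] at this
  have Qxz : Q (x + z) = Q y := by rw [← Q_negsum, zx]
  have Qzx : Q (z + x) = Q y := by rw [← Q_negsum, xz]
  have Qyz : Q (y + z) = Q x := by rw [← Q_negsum, zy]
  have Qzy : Q (z + y) = Q x := by rw [← Q_negsum, yz]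
  have Qyx : Q (y + x) = Q z := by rw [← Q_negsum, yx]
  rcases le_total (tp (flo x)) (tp (flo y)) with h1 | h1
  · rcases le_total (tp (flo y)) (tp (flo z)) with h2 | h2
    · exact ordered x y hP hx hy hzg h1 h2
    · rcases le_total (tp (flo x)) (tp (flo z)) with h3 | h3
      · have := ordered x z Pxz hx hzg (by rw [zx]; exact hy) h3 (by rw [zx]; exact h2)
        linarith
      · have := ordered z x Pxz.swap hzg hx (by rw [xz]; exact hy) h3 (by rw [xz]; exact h1)
        linarith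
  · rcases le_total (tp (flo x)) (tp (flo z)) with h2 | h2
    · have := ordered y x hP.swap hy hx (by rw [yx]; exact hzg) h1 (by rw [yx]; exact h2)
      linarith
    · rcases le_total (tp (flo y)) (tp (flo z)) with h3 | h3
      · have := ordered y z Pyz hy hzg (by rw [zy]; exact hx) h3 (by rw [zy]; exact h2)
        linarith
      · have := ordered z y Pyz.swap hzg hy (by rw [yz]; exact hx) h3 (by rw [yz]; exact h1)
        linarith

end Pool.Agent.H16.Dav
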