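import Pool.Agent.H16.Dav.Defs

/-!
# Primitive vectors

MODULE D5.  A primitive integer vector is the first column of a unimodular matrix.  Proof: Bezout gives a
functional `f` with `f k = 1`; a basis of `ker f` together with `k` is a basis of `Z^4`.
-/

namespace Pool.Agent.H16.Dav

open Matrix Pool.Agent.H89.CSD

theorem exists_unimodular (k : Fin 4 → ℤ) (hk : ∀ (m : ℤ) (k' : Fin 4 → ℤ), k = m • k' → m = 1 ∨ m = -1) :
    ∃ V : (Matrix (Fin 4) (Fin 4) ℤ)ˣ, ∀ i, (V : Matrix (Fin 4) (Fin 4) ℤ) i 0 = k i := by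
  classical
  -- Bezout
  obtain ⟨m, hm⟩ := (IsPrincipalIdealRing.principal (Ideal.span (Set.range k)))
  have hdvd : ∀ i, ∃ t, k i = m * t := by
    intro i
    have h1 : k i ∈ Ideal.span (Set.range k) := Ideal.subset_span ⟨i, rfl⟩
    rw [hm] at h1
    obtain ⟨t, ht⟩ := Submodule.mem_span_singleton.1 h1
    exact ⟨t, by rw [← ht, smul_eq_mul, mul_comm]⟩
  choose k' hk' using hdvd
  have hm1 : m = 1 ∨ m = -1 := hk m k' (by ext i; simp [hk' i])
  have hmem : (1 : ℤ) ∈ Ideal.span (Set.range k) := by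
    rw [hm]
    refine Submodule.mem_span_singleton.2 ⟨m, ?_⟩
    rcases hm1 with h | h <;> simp [h]
  obtain ⟨c, hc⟩ := Ideal.mem_span_range_iff_exists_fun.1 hmem
  let f : (Fin 4 → ℤ) →ₗ[ℤ] ℤ :=
    { toFun := fun v => ∑ i, c i * v i
      map_add' := by intro a b; simp [mul_add, Finset.sum_add_distrib]
      map_smul' := by
        intro a b
        simp only [Pi.smul_apply, smul_eq_mul, RingHom.id_apply, Finset.mul_sum]
        exact Finset.sum_congr rfl fun i _ => by ring }
  have hfk : f k = 1 := hc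
  obtain ⟨n, b⟩ := Submodule.basisOfPid (Pi.basisFun ℤ (Fin 4)) (LinearMap.ker f)
  let B := Module.Basis.mkFinCons k b
    (by
      intro a x hx h
      have h2 : f (a • k + x) = 0 := by rw [h, map_zero]
      rw [map_add, map_smul, hfk, LinearMap.mem_ker.1 hx] at h2
      simpa using h2)
    (by
      intro z
      refine ⟨-(f z), ?_⟩
      rw [LinearMap.mem_ker, map_add, map_smul, hfk]
      simp)
  have hn : n + 1 = 4 := by
    have h1 := Module.finrank_eq_card_basis B
    have h2 := Module.finrank_eq_card_basis (Pi.basisFun ℤ (Fin 4))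
    simp only [Fintype.card_fin] at h1 h2
    omega
  have hn3 : n = 3 := by omega
  subst hn3
  have hB0 : B 0 = k := by
    simp [B, Module.Basis.mkFinCons]
  have hinv : IsUnit ((Pi.basisFun ℤ (Fin 4)).toMatrix B) := by
    have := Module.Basis.invertibleToMatrix (Pi.basisFun ℤ (Fin 4)) B
    exact isUnit_of_invertible _
  obtain ⟨V, hV⟩ := hinv
  refine ⟨V, fun i => ?_⟩
  rw [hV, Module.Basis.toMatrix_apply]
  simp [hB0]

end Pool.Agent.H16.Dav
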