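import Pool.Agent.H16.Dav.Defs

/-!
# The tree inequality

Handelman certificates of degree 3 in three ranges of the sum of the six variables.
-/

namespace Pool.Agent.H16.Dav

set_option maxHeartbeats 4000000

theorem tree_low (a01 a02 a03 a12 a13 a23 : ℝ) (h01 : 0 ≤ a01) (h02 : 0 ≤ a02) (h03 : 0 ≤ a03) (h12 : 0 ≤ a12) (h13 : 0 ≤ a13) (h23 : 0 ≤ a23)
    (l01 : 45 ≤ a02 + a03 + a12 + a13 + a23)
    (l02 : 45 ≤ a01 + a03 + a12 + a13 + a23)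
    (l03 : 45 ≤ a01 + a02 + a12 + a13 + a23)
    (l12 : 45 ≤ a01 + a02 + a03 + a13 + a23)
    (l13 : 45 ≤ a01 + a02 + a03 + a12 + a23)
    (l23 : 45 ≤ a01 + a02 + a03 + a12 + a13)
    (s0 : 23.8 ≤ a01 + a02 + a03)
    (s1 : 23.8 ≤ a01 + a12 + a13)
    (s2 : 23.8 ≤ a02 + a12 + a23)
    (s3 : 23.8 ≤ a03 + a13 + a23)
    (c1 : 23.8 ≤ a02 + a03 + a12 + a13)
    (c2 : 23.8 ≤ a01 + a03 + a12 + a23)
    (c3 : 23.8 ≤ a01 + a02 + a13 + a23)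
    (hi : a01 + a02 + a03 + a12 + a13 + a23 ≤ 60)
    : 11664 ≤ tree a01 a02 a03 a12 a13 a23 := by
  obtain ⟨L01, e01⟩ : ∃ t, t = a02 + a03 + a12 + a13 + a23 - 45 := ⟨_, rfl⟩
  have k01 : 0 ≤ L01 := by linarith
  obtain ⟨L02, e02⟩ : ∃ t, t = a01 + a03 + a12 + a13 + a23 - 45 := ⟨_, rfl⟩
  have k02 : 0 ≤ L02 := by linarith
  obtain ⟨L03, e03⟩ : ∃ t, t = a01 + a02 + a12 + a13 + a23 - 45 := ⟨_, rfl⟩
  have k03 : 0 ≤ L03 := by linarith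
  obtain ⟨L12, e12⟩ : ∃ t, t = a01 + a02 + a03 + a13 + a23 - 45 := ⟨_, rfl⟩
  have k12 : 0 ≤ L12 := by linarith
  obtain ⟨L13, e13⟩ : ∃ t, t = a01 + a02 + a03 + a12 + a23 - 45 := ⟨_, rfl⟩
  have k13 : 0 ≤ L13 := by linarith
  obtain ⟨L23, e23⟩ : ∃ t, t = a01 + a02 + a03 + a12 + a13 - 45 := ⟨_, rfl⟩
  have k23 : 0 ≤ L23 := by linarith
  obtain ⟨S0, f0⟩ : ∃ t, t = a01 + a02 + a03 - 23.8 := ⟨_, rfl⟩
  have m0 : 0 ≤ S0 := by linarith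
  obtain ⟨S1, f1⟩ : ∃ t, t = a01 + a12 + a13 - 23.8 := ⟨_, rfl⟩
  have m1 : 0 ≤ S1 := by linarith
  obtain ⟨S2, f2⟩ : ∃ t, t = a02 + a12 + a23 - 23.8 := ⟨_, rfl⟩
  have m2 : 0 ≤ S2 := by linarith
  obtain ⟨S3, f3⟩ : ∃ t, t = a03 + a13 + a23 - 23.8 := ⟨_, rfl⟩
  have m3 : 0 ≤ S3 := by linarith
  obtain ⟨C1, g1⟩ : ∃ t, t = a02 + a03 + a12 + a13 - 23.8 := ⟨_, rfl⟩
  have n1 : 0 ≤ C1 := by linarith
  obtain ⟨C2, g2⟩ : ∃ t, t = a01 + a03 + a12 + a23 - 23.8 := ⟨_, rfl⟩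
  have n2 : 0 ≤ C2 := by linarith
  obtain ⟨C3, g3⟩ : ∃ t, t = a01 + a02 + a13 + a23 - 23.8 := ⟨_, rfl⟩
  have n3 : 0 ≤ C3 := by linarith
  obtain ⟨H, eH⟩ : ∃ t, t = 60 - (a01 + a02 + a03 + a12 + a13 + a23) := ⟨_, rfl⟩
  have kH : 0 ≤ H := by linarith
  have q0 : 0 ≤ L01 * a01 * a23 + L02 * a02 * a13 + L03 * a03 * a12 + L12 * a03 * a12 + L13 * a02 * a13 + L23 * a01 * a23 := by positivity
  have q1 : 0 ≤ L01 * S0 * S1 + L02 * S0 * S2 + L03 * S0 * S3 + L12 * S1 * S2 + L13 * S1 * S3 + L23 * S2 * S3 := by positivity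
  have q2 : 0 ≤ L01 * L02 * L03 + L01 * L12 * L13 + L02 * L12 * L23 + L03 * L13 * L23 := by positivity
  have q3 : 0 ≤ L01 * L02 * L12 + L01 * L03 * L13 + L02 * L03 * L23 + L12 * L13 * L23 := by positivity
  have q4 : 0 ≤ H * L01 * a01 + H * L02 * a02 + H * L03 * a03 + H * L12 * a12 + H * L13 * a13 + H * L23 * a23 := by positivity
  have q5 : 0 ≤ L01 * S0 * a23 + L01 * S1 * a23 + L02 * S0 * a13 + L02 * S2 * a13 + L03 * S0 * a12 + L03 * S3 * a12 + L12 * S1 * a03 + L12 * S2 * a03 + L13 * S1 * a02 + L13 * S3 * a02 + L23 * S2 * a01 + L23 * S3 * a01 := by positivity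
  have q6 : 0 ≤ L01 * L01 * a01 + L02 * L02 * a02 + L03 * L03 * a03 + L12 * L12 * a12 + L13 * L13 * a13 + L23 * L23 * a23 := by positivity
  have q7 : 0 ≤ C1 * L01 * S0 + C1 * L01 * S1 + C1 * L23 * S2 + C1 * L23 * S3 + C2 * L02 * S0 + C2 * L02 * S2 + C2 * L13 * S1 + C2 * L13 * S3 + C3 * L03 * S0 + C3 * L03 * S3 + C3 * L12 * S1 + C3 * L12 * S2 := by positivity
  have q8 : 0 ≤ L01 * L01 * S0 + L01 * L01 * S1 + L02 * L02 * S0 + L02 * L02 * S2 + L03 * L03 * S0 + L03 * L03 * S3 + L12 * L12 * S1 + L12 * L12 * S2 + L13 * L13 * S1 + L13 * L13 * S3 + L23 * L23 * S2 + L23 * L23 * S3 := by positivity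
  have q9 : 0 ≤ H * L01 * L23 + H * L02 * L13 + H * L03 * L12 := by positivity
  unfold tree
  subst e01 e02 e03 e12 e13 e23 f0 f1 f2 f3 g1 g2 g3 eH
  linarith [q0, q1, q2, q3, q4, q5, q6, q7, q8, q9]

theorem tree_mid (a01 a02 a03 a12 a13 a23 : ℝ) (h01 : 0 ≤ a01) (h02 : 0 ≤ a02) (h03 : 0 ≤ a03) (h12 : 0 ≤ a12) (h13 : 0 ≤ a13) (h23 : 0 ≤ a23)
    (l01 : 45 ≤ a02 + a03 + a12 + a13 + a23)
    (l02 : 45 ≤ a01 + a03 + a12 + a13 + a23)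
    (l03 : 45 ≤ a01 + a02 + a12 + a13 + a23)
    (l12 : 45 ≤ a01 + a02 + a03 + a13 + a23)
    (l13 : 45 ≤ a01 + a02 + a03 + a12 + a23)
    (l23 : 45 ≤ a01 + a02 + a03 + a12 + a13)
    (s0 : 23.8 ≤ a01 + a02 + a03)
    (s1 : 23.8 ≤ a01 + a12 + a13)
    (s2 : 23.8 ≤ a02 + a12 + a23)
    (s3 : 23.8 ≤ a03 + a13 + a23)
    (c1 : 23.8 ≤ a02 + a03 + a12 + a13)
    (c2 : 23.8 ≤ a01 + a03 + a12 + a23)
    (c3 : 23.8 ≤ a01 + a02 + a13 + a23)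
    (lo : 60 ≤ a01 + a02 + a03 + a12 + a13 + a23) (hi : a01 + a02 + a03 + a12 + a13 + a23 ≤ 70)
    : 11664 ≤ tree a01 a02 a03 a12 a13 a23 := by
  obtain ⟨L01, e01⟩ : ∃ t, t = a02 + a03 + a12 + a13 + a23 - 45 := ⟨_, rfl⟩
  have k01 : 0 ≤ L01 := by linarith
  obtain ⟨L02, e02⟩ : ∃ t, t = a01 + a03 + a12 + a13 + a23 - 45 := ⟨_, rfl⟩
  have k02 : 0 ≤ L02 := by linarith
  obtain ⟨L03, e03⟩ : ∃ t, t = a01 + a02 + a12 + a13 + a23 - 45 := ⟨_, rfl⟩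
  have k03 : 0 ≤ L03 := by linarith
  obtain ⟨L12, e12⟩ : ∃ t, t = a01 + a02 + a03 + a13 + a23 - 45 := ⟨_, rfl⟩
  have k12 : 0 ≤ L12 := by linarith
  obtain ⟨L13, e13⟩ : ∃ t, t = a01 + a02 + a03 + a12 + a23 - 45 := ⟨_, rfl⟩
  have k13 : 0 ≤ L13 := by linarith
  obtain ⟨L23, e23⟩ : ∃ t, t = a01 + a02 + a03 + a12 + a13 - 45 := ⟨_, rfl⟩
  have k23 : 0 ≤ L23 := by linarith
  obtain ⟨S0, f0⟩ : ∃ t, t = a01 + a02 + a03 - 23.8 := ⟨_, rfl⟩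
  have m0 : 0 ≤ S0 := by linarith
  obtain ⟨S1, f1⟩ : ∃ t, t = a01 + a12 + a13 - 23.8 := ⟨_, rfl⟩
  have m1 : 0 ≤ S1 := by linarith
  obtain ⟨S2, f2⟩ : ∃ t, t = a02 + a12 + a23 - 23.8 := ⟨_, rfl⟩
  have m2 : 0 ≤ S2 := by linarith
  obtain ⟨S3, f3⟩ : ∃ t, t = a03 + a13 + a23 - 23.8 := ⟨_, rfl⟩
  have m3 : 0 ≤ S3 := by linarith
  obtain ⟨C1, g1⟩ : ∃ t, t = a02 + a03 + a12 + a13 - 23.8 := ⟨_, rfl⟩
  have n1 : 0 ≤ C1 := by linarith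
  obtain ⟨C2, g2⟩ : ∃ t, t = a01 + a03 + a12 + a23 - 23.8 := ⟨_, rfl⟩
  have n2 : 0 ≤ C2 := by linarith
  obtain ⟨C3, g3⟩ : ∃ t, t = a01 + a02 + a13 + a23 - 23.8 := ⟨_, rfl⟩
  have n3 : 0 ≤ C3 := by linarith
  obtain ⟨H, eH⟩ : ∃ t, t = 70 - (a01 + a02 + a03 + a12 + a13 + a23) := ⟨_, rfl⟩
  have kH : 0 ≤ H := by linarith
  obtain ⟨G, eG⟩ : ∃ t, t = (a01 + a02 + a03 + a12 + a13 + a23) - 60 := ⟨_, rfl⟩
  have kG : 0 ≤ G := by linarith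
  have q0 : 0 ≤ L01 * S0 * a23 + L01 * S1 * a23 + L02 * S0 * a13 + L02 * S2 * a13 + L03 * S0 * a12 + L03 * S3 * a12 + L12 * S1 * a03 + L12 * S2 * a03 + L13 * S1 * a02 + L13 * S3 * a02 + L23 * S2 * a01 + L23 * S3 * a01 := by positivity
  have q1 : 0 ≤ H * L01 * S0 + H * L01 * S1 + H * L02 * S0 + H * L02 * S2 + H * L03 * S0 + H * L03 * S3 + H * L12 * S1 + H * L12 * S2 + H * L13 * S1 + H * L13 * S3 + H * L23 * S2 + H * L23 * S3 := by positivity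
  have q2 : 0 ≤ G * H * H := by positivity
  have q3 : 0 ≤ C1 * S0 * a23 + C1 * S1 * a23 + C1 * S2 * a01 + C1 * S3 * a01 + C2 * S0 * a13 + C2 * S1 * a02 + C2 * S2 * a13 + C2 * S3 * a02 + C3 * S0 * a12 + C3 * S1 * a03 + C3 * S2 * a03 + C3 * S3 * a12 := by positivity
  have q4 : 0 ≤ C1 * C2 * L03 + C1 * C2 * L12 + C1 * C3 * L02 + C1 * C3 * L13 + C2 * C3 * L01 + C2 * C3 * L23 := by positivity
  have q5 : 0 ≤ L01 * L02 * L03 + L01 * L12 * L13 + L02 * L12 * L23 + L03 * L13 * L23 := by positivity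
  have q6 : 0 ≤ H * L01 * a01 + H * L02 * a02 + H * L03 * a03 + H * L12 * a12 + H * L13 * a13 + H * L23 * a23 := by positivity
  have q7 : 0 ≤ C1 * G * H + C2 * G * H + C3 * G * H := by positivity
  have q8 : 0 ≤ C1 * a01 * a23 + C2 * a02 * a13 + C3 * a03 * a12 := by positivity
  have q9 : 0 ≤ S0 * S1 * a23 + S0 * S2 * a13 + S0 * S3 * a12 + S1 * S2 * a03 + S1 * S3 * a02 + S2 * S3 * a01 := by positivity
  unfold tree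
  subst e01 e02 e03 e12 e13 e23 f0 f1 f2 f3 g1 g2 g3 eH eG
  linarith [q0, q1, q2, q3, q4, q5, q6, q7, q8, q9]

theorem tree_high (a01 a02 a03 a12 a13 a23 : ℝ) (h01 : 0 ≤ a01) (h02 : 0 ≤ a02) (h03 : 0 ≤ a03) (h12 : 0 ≤ a12) (h13 : 0 ≤ a13) (h23 : 0 ≤ a23)
    (l01 : 45 ≤ a02 + a03 + a12 + a13 + a23)
    (l02 : 45 ≤ a01 + a03 + a12 + a13 + a23)
    (l03 : 45 ≤ a01 + a02 + a12 + a13 + a23)
    (l12 : 45 ≤ a01 + a02 + a03 + a13 + a23)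
    (l13 : 45 ≤ a01 + a02 + a03 + a12 + a23)
    (l23 : 45 ≤ a01 + a02 + a03 + a12 + a13)
    (s0 : 23.8 ≤ a01 + a02 + a03)
    (s1 : 23.8 ≤ a01 + a12 + a13)
    (s2 : 23.8 ≤ a02 + a12 + a23)
    (s3 : 23.8 ≤ a03 + a13 + a23)
    (c1 : 23.8 ≤ a02 + a03 + a12 + a13)
    (c2 : 23.8 ≤ a01 + a03 + a12 + a23)
    (c3 : 23.8 ≤ a01 + a02 + a13 + a23)
    (lo : 70 ≤ a01 + a02 + a03 + a12 + a13 + a23)
    : 11664 ≤ tree a01 a02 a03 a12 a13 a23 := by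
  obtain ⟨L01, e01⟩ : ∃ t, t = a02 + a03 + a12 + a13 + a23 - 45 := ⟨_, rfl⟩
  have k01 : 0 ≤ L01 := by linarith
  obtain ⟨L02, e02⟩ : ∃ t, t = a01 + a03 + a12 + a13 + a23 - 45 := ⟨_, rfl⟩
  have k02 : 0 ≤ L02 := by linarith
  obtain ⟨L03, e03⟩ : ∃ t, t = a01 + a02 + a12 + a13 + a23 - 45 := ⟨_, rfl⟩
  have k03 : 0 ≤ L03 := by linarith
  obtain ⟨L12, e12⟩ : ∃ t, t = a01 + a02 + a03 + a13 + a23 - 45 := ⟨_, rfl⟩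
  have k12 : 0 ≤ L12 := by linarith
  obtain ⟨L13, e13⟩ : ∃ t, t = a01 + a02 + a03 + a12 + a23 - 45 := ⟨_, rfl⟩
  have k13 : 0 ≤ L13 := by linarith
  obtain ⟨L23, e23⟩ : ∃ t, t = a01 + a02 + a03 + a12 + a13 - 45 := ⟨_, rfl⟩
  have k23 : 0 ≤ L23 := by linarith
  obtain ⟨S0, f0⟩ : ∃ t, t = a01 + a02 + a03 - 23.8 := ⟨_, rfl⟩
  have m0 : 0 ≤ S0 := by linarith
  obtain ⟨S1, f1⟩ : ∃ t, t = a01 + a12 + a13 - 23.8 := ⟨_, rfl⟩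
  have m1 : 0 ≤ S1 := by linarith
  obtain ⟨S2, f2⟩ : ∃ t, t = a02 + a12 + a23 - 23.8 := ⟨_, rfl⟩
  have m2 : 0 ≤ S2 := by linarith
  obtain ⟨S3, f3⟩ : ∃ t, t = a03 + a13 + a23 - 23.8 := ⟨_, rfl⟩
  have m3 : 0 ≤ S3 := by linarith
  obtain ⟨C1, g1⟩ : ∃ t, t = a02 + a03 + a12 + a13 - 23.8 := ⟨_, rfl⟩
  have n1 : 0 ≤ C1 := by linarith
  obtain ⟨C2, g2⟩ : ∃ t, t = a01 + a03 + a12 + a23 - 23.8 := ⟨_, rfl⟩
  have n2 : 0 ≤ C2 := by linarith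
  obtain ⟨C3, g3⟩ : ∃ t, t = a01 + a02 + a13 + a23 - 23.8 := ⟨_, rfl⟩
  have n3 : 0 ≤ C3 := by linarith
  obtain ⟨G, eG⟩ : ∃ t, t = (a01 + a02 + a03 + a12 + a13 + a23) - 70 := ⟨_, rfl⟩
  have kG : 0 ≤ G := by linarith
  have q0 : 0 ≤ S0 * a12 * a13 + S0 * a12 * a23 + S0 * a13 * a23 + S1 * a02 * a03 + S1 * a02 * a23 + S1 * a03 * a23 + S2 * a01 * a03 + S2 * a01 * a13 + S2 * a03 * a13 + S3 * a01 * a02 + S3 * a01 * a12 + S3 * a02 * a12 := by positivity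
  have q1 : 0 ≤ G := by positivity
  have q2 : 0 ≤ C1 * a01 * a23 + C2 * a02 * a13 + C3 * a03 * a12 := by positivity
  have q3 : 0 ≤ L01 * a01 + L02 * a02 + L03 * a03 + L12 * a12 + L13 * a13 + L23 * a23 := by positivity
  unfold tree
  subst e01 e02 e03 e12 e13 e23 f0 f1 f2 f3 g1 g2 g3 eG
  linarith [q0, q1, q2, q3]

theorem tree_ge (a01 a02 a03 a12 a13 a23 : ℝ) (h01 : 0 ≤ a01) (h02 : 0 ≤ a02) (h03 : 0 ≤ a03)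
    (h12 : 0 ≤ a12) (h13 : 0 ≤ a13) (h23 : 0 ≤ a23)
    (l01 : 45 ≤ a02 + a03 + a12 + a13 + a23)
    (l02 : 45 ≤ a01 + a03 + a12 + a13 + a23)
    (l03 : 45 ≤ a01 + a02 + a12 + a13 + a23)
    (l12 : 45 ≤ a01 + a02 + a03 + a13 + a23)
    (l13 : 45 ≤ a01 + a02 + a03 + a12 + a23)
    (l23 : 45 ≤ a01 + a02 + a03 + a12 + a13)
    (s0 : 23.8 ≤ a01 + a02 + a03)
    (s1 : 23.8 ≤ a01 + a12 + a13)
    (s2 : 23.8 ≤ a02 + a12 + a23)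
    (s3 : 23.8 ≤ a03 + a13 + a23)
    (c1 : 23.8 ≤ a02 + a03 + a12 + a13)
    (c2 : 23.8 ≤ a01 + a03 + a12 + a23)
    (c3 : 23.8 ≤ a01 + a02 + a13 + a23)
    : 11664 ≤ tree a01 a02 a03 a12 a13 a23 := by
  rcases le_total (a01 + a02 + a03 + a12 + a13 + a23) 60 with hi | lo
  · exact tree_low a01 a02 a03 a12 a13 a23 h01 h02 h03 h12 h13 h23 l01 l02 l03 l12 l13 l23 s0 s1 s2 s3 c1 c2 c3 hi
  rcases le_total (a01 + a02 + a03 + a12 + a13 + a23) 70 with hi | lo2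
  · exact tree_mid a01 a02 a03 a12 a13 a23 h01 h02 h03 h12 h13 h23 l01 l02 l03 l12 l13 l23 s0 s1 s2 s3 c1 c2 c3 lo hi
  · exact tree_high a01 a02 a03 a12 a13 a23 h01 h02 h03 h12 h13 h23 l01 l02 l03 l12 l13 l23 s0 s1 s2 s3 c1 c2 c3 lo2

end Pool.Agent.H16.Dav
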