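import Pool.Agent.H16.Dav.GoldenPt
import Pool.Agent.H16.Dav.TLemma
import Pool.Agent.H16.Dav.Gram
import Pool.Agent.H16.Dav.Obtuse
import Pool.Agent.H16.Dav.Prim
import Pool.Agent.H16.Dav.GAsm
import Pool.Agent.H16.Dav.Pair

/-!
# Classification of the admissible lattices of small determinant with attained minimum

MODULE D11.  If `Pos 1 h`, `0 < |det h| < 27` and `h k = (1,1,1,1)` for an integer vector `k`, then
the rows of `h` are, up to order, the rows of `gK * im U`.

Proof.
(1) `k` is primitive: `k = m • k'` gives `P h (ic k') = 1/m^4`.  So (`exists_unimodular`) after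
multiplying `h` by a unimodular matrix the first column of `h` is `(1,1,1,1)`.
(2) By `exists_obtuse` we may also assume that the columns `x, y, z` and `w = -(x+y+z)` are an obtuse
superbase.  The six numbers `a = -B` are `≥ 0` and `16 det² = tree(a)` (`det_sq_eq_tree`), so
`tree(a) < 11664`.
(3) One of the seven vectors `x, y, z, w, x+y, x+z, y+z` is golden: otherwise `single_bound` and
`pair_bound` give the hypotheses of `tree_ge`:  `Q x = a_wx + a_xy + a_xz` etc. (the sum of the four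
vectors is `0`), `Q (x+y) = a_wx + a_wy + a_xz + a_yz` etc., and
`Q x + Q y + Q (x+y) = 2 (sum of the five a's other than a_wz)` etc. (for the pairs `(w, x)` use
`w + x = -(y+z)`, `Q (-v) = Q v`, `Golden (-v) ↔ Golden v`).
(4) If one of them, `v`, is golden, there is a unimodular matrix fixing the first basis vector which
makes `v` (or `-v`) the column 1.  By `golden_point` a permutation of the coordinates and an integer
translation (subtract a multiple of column 0) make it `γ`.  Permuting the rows of `h` does not change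
`P h` and changes only the sign of the determinant.  Then `golden_case` applies.
-/

namespace Pool.Agent.H16.Dav

open Matrix Pool.Agent.H89.CSD

/-- The conclusion of the classification. -/
def Concl (h : Matrix (Fin 4) (Fin 4) ℝ) : Prop :=
  ∃ (U : (Matrix (Fin 4) (Fin 4) ℤ)ˣ) (π : Equiv.Perm (Fin 4)),
      ∀ i j, h i j = (gK * im (U : Matrix (Fin 4) (Fin 4) ℤ)) (π i) j

theorem Concl.of_mul {h : Matrix (Fin 4) (Fin 4) ℝ} (V : (Matrix (Fin 4) (Fin 4) ℤ)ˣ)
    (H : Concl (h * im (V : Matrix (Fin 4) (Fin 4) ℤ))) : Concl h := by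
  obtain ⟨U, π, hU⟩ := H
  refine ⟨U * V⁻¹, π, fun i j => ?_⟩
  have h1 : h = h * im (V : Matrix (Fin 4) (Fin 4) ℤ) *
      im ((V⁻¹ : (Matrix (Fin 4) (Fin 4) ℤ)ˣ) : Matrix (Fin 4) (Fin 4) ℤ) := by
    rw [Matrix.mul_assoc, ← im_mul, Units.mul_inv, im_one, Matrix.mul_one]
  rw [Units.val_mul, im_mul, ← Matrix.mul_assoc]
  rw [congrFun (congrFun h1 i) j, Matrix.mul_apply, Matrix.mul_apply]
  exact Finset.sum_congr rfl fun k _ => by rw [hU i k]

theorem Concl.of_perm {h : Matrix (Fin 4) (Fin 4) ℝ} (σ : Equiv.Perm (Fin 4))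
    (H : Concl (h.submatrix σ id)) : Concl h := by
  obtain ⟨U, π, hU⟩ := H
  refine ⟨U, σ.symm.trans π, fun i j => ?_⟩
  have := hU (σ.symm i) j
  simpa using this

theorem P_perm (h : Matrix (Fin 4) (Fin 4) ℝ) (σ : Equiv.Perm (Fin 4)) (x : Fin 4 → ℝ) :
    P (h.submatrix σ id) x = P h x := by
  unfold P
  exact Equiv.prod_comp σ (fun i => ∑ j, h i j * x j)

theorem abs_det_perm (h : Matrix (Fin 4) (Fin 4) ℝ) (σ : Equiv.Perm (Fin 4)) :
    |(h.submatrix σ id).det| = |h.det| := by
  rw [Matrix.det_permute, abs_mul]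
  have : |((Equiv.Perm.sign σ : ℤ) : ℝ)| = 1 := by
    rcases Int.units_eq_one_or (Equiv.Perm.sign σ) with h | h <;> simp [h]
  rw [this, one_mul]

theorem posl {h : Matrix (Fin 4) (Fin 4) ℝ} (h1 : ∀ i, h i 0 = 1) (hpos : Pos 1 h)
    (n a b c : ℤ) (hne : ¬ (n = 0 ∧ a = 0 ∧ b = 0 ∧ c = 0)) :
    1 ≤ |∏ i, ((n : ℝ) + a * h i 1 + b * h i 2 + c * h i 3)| := by
  have h2 := hpos ![n, a, b, c] (by
    intro h0
    apply hne
    have e0 := congrFun h0 0
    have e1 := congrFun h0 1
    have e2 := congrFun h0 2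
    have e3 := congrFun h0 3
    simp at e0 e1 e2 e3
    exact ⟨e0, e1, e2, e3⟩)
  have h3 : P h (ic ![n, a, b, c]) = ∏ i, ((n : ℝ) + a * h i 1 + b * h i 2 + c * h i 3) := by
    unfold P
    refine Finset.prod_congr rfl fun i _ => ?_
    rw [Fin.sum_univ_four, h1 i]
    simp [ic]
    ring
  rwa [h3] at h2

/-- The shear subtracting `n` times the first column from the second. -/
def shearU (n : ℤ) : (Matrix (Fin 4) (Fin 4) ℤ)ˣ where
  val := !![1, -n, 0, 0; 0, 1, 0, 0; 0, 0, 1, 0; 0, 0, 0, 1]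
  inv := !![1, n, 0, 0; 0, 1, 0, 0; 0, 0, 1, 0; 0, 0, 0, 1]
  val_inv := by
    ext i j
    fin_cases i <;> fin_cases j <;> simp [Matrix.mul_apply, Fin.sum_univ_four]
  inv_val := by
    ext i j
    fin_cases i <;> fin_cases j <;> simp [Matrix.mul_apply, Fin.sum_univ_four]

def unitA (b c : ℤ) : (Matrix (Fin 4) (Fin 4) ℤ)ˣ where
  val := !![1, 0, 0, 0; 0, 1, 0, 0; 0, b, 1, 0; 0, c, 0, 1]
  inv := !![1, 0, 0, 0; 0, 1, 0, 0; 0, -b, 1, 0; 0, -c, 0, 1]
  val_inv := by
    ext i j
    fin_cases i <;> fin_cases j <;> simp [Matrix.mul_apply, Fin.sum_univ_four]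
  inv_val := by
    ext i j
    fin_cases i <;> fin_cases j <;> simp [Matrix.mul_apply, Fin.sum_univ_four]

def unitB (c : ℤ) : (Matrix (Fin 4) (Fin 4) ℤ)ˣ where
  val := !![1, 0, 0, 0; 0, 0, 1, 0; 0, 1, 0, 0; 0, c, 0, 1]
  inv := !![1, 0, 0, 0; 0, 0, 1, 0; 0, 1, 0, 0; 0, 0, -c, 1]
  val_inv := by
    ext i j
    fin_cases i <;> fin_cases j <;> simp [Matrix.mul_apply, Fin.sum_univ_four]
  inv_val := by
    ext i j
    fin_cases i <;> fin_cases j <;> simp [Matrix.mul_apply, Fin.sum_univ_four]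

def unitC : (Matrix (Fin 4) (Fin 4) ℤ)ˣ where
  val := !![1, 0, 0, 0; 0, 0, 0, 1; 0, 0, 1, 0; 0, 1, 0, 0]
  inv := !![1, 0, 0, 0; 0, 0, 0, 1; 0, 0, 1, 0; 0, 1, 0, 0]
  val_inv := by
    ext i j
    fin_cases i <;> fin_cases j <;> simp [Matrix.mul_apply, Fin.sum_univ_four]
  inv_val := by
    ext i j
    fin_cases i <;> fin_cases j <;> simp [Matrix.mul_apply, Fin.sum_univ_four]

theorem mul_im_abs_det (h : Matrix (Fin 4) (Fin 4) ℝ) (V : (Matrix (Fin 4) (Fin 4) ℤ)ˣ) :
    |(h * im (V : Matrix (Fin 4) (Fin 4) ℤ)).det| = |h.det| := by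
  rw [Matrix.det_mul, abs_mul, abs_det_im_unit, mul_one]

theorem mul_im_det_ne {h : Matrix (Fin 4) (Fin 4) ℝ} (hdet : h.det ≠ 0)
    (V : (Matrix (Fin 4) (Fin 4) ℤ)ˣ) : (h * im (V : Matrix (Fin 4) (Fin 4) ℤ)).det ≠ 0 := by
  rw [← abs_pos, mul_im_abs_det, abs_pos]
  exact hdet

theorem golden_concl (h : Matrix (Fin 4) (Fin 4) ℝ) (h1 : ∀ i, h i 0 = 1) (hdet0 : h.det ≠ 0)
    (hdet : |h.det| < 27) (hpos : Pos 1 h) (hG : Golden fun i => h i 1) : Concl h := by
  obtain ⟨n, π, hn⟩ := golden_point (fun i => h i 1) hG (by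
    intro n
    have := posl h1 hpos n 1 0 0 (by simp)
    refine this.trans_eq ?_
    congr 1
    refine Finset.prod_congr rfl fun i _ => ?_
    push_cast
    ring)
  apply Concl.of_mul (shearU n)
  apply Concl.of_perm π
  have hc0 : ∀ i, (h * im (shearU n : Matrix (Fin 4) (Fin 4) ℤ)) i 0 = 1 := by
    intro i
    rw [Matrix.mul_apply, Fin.sum_univ_four]
    simp [im, shearU, h1]
  have hc1 : ∀ i, (h * im (shearU n : Matrix (Fin 4) (Fin 4) ℤ)) i 1 = h i 1 - n := by
    intro i
    rw [Matrix.mul_apply, Fin.sum_univ_four]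
    simp [im, shearU, h1]
    ring
  have hd : |((h * im (shearU n : Matrix (Fin 4) (Fin 4) ℤ)).submatrix π id).det| = |h.det| := by
    rw [abs_det_perm, mul_im_abs_det]
  apply golden_case
  · intro i
    rw [Matrix.submatrix_apply]
    exact hc0 _
  · intro i
    have h4 : h (π i) 1 = n + gam i := hn i
    have h5 := hc1 (π i)
    rw [h4] at h5
    have h6 : ((h * im (shearU n : Matrix (Fin 4) (Fin 4) ℤ)).submatrix π id) i 1 =
        (h * im (shearU n : Matrix (Fin 4) (Fin 4) ℤ)) (π i) 1 := rfl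
    rw [h6, h5]
    ring
  · rw [← abs_pos, hd, abs_pos]
    exact hdet0
  · rw [hd]
    exact hdet
  · intro x hx
    rw [P_perm]
    exact hpos.mul_im (det_unit_ne _) x hx

theorem golden_concl' (h : Matrix (Fin 4) (Fin 4) ℝ) (h1 : ∀ i, h i 0 = 1) (hdet0 : h.det ≠ 0)
    (hdet : |h.det| < 27) (hpos : Pos 1 h) (V : (Matrix (Fin 4) (Fin 4) ℤ)ˣ)
    (hV : ∀ i, (V : Matrix (Fin 4) (Fin 4) ℤ) i 0 = if i = 0 then 1 else 0)
    (hG : Golden fun i => (h * im (V : Matrix (Fin 4) (Fin 4) ℤ)) i 1) : Concl h := by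
  apply Concl.of_mul V
  apply golden_concl _ _ (mul_im_det_ne hdet0 V) (by rwa [mul_im_abs_det])
    (hpos.mul_im (det_unit_ne _)) hG
  intro i
  rw [Matrix.mul_apply, Fin.sum_univ_four]
  simp [im, hV, h1]

theorem cl_golden_neg {v : Fin 4 → ℝ} (h : Golden (-v)) : Golden v := by
  obtain ⟨n, hn⟩ := h
  refine ⟨-(n + 3), fun i => ?_⟩
  have := hn i
  simp only [Pi.neg_apply] at this
  push_cast
  constructor <;> linarith [this.1, this.2]

theorem classify_ob (h : Matrix (Fin 4) (Fin 4) ℝ) (h1 : ∀ i, h i 0 = 1) (hdet0 : h.det ≠ 0)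
    (hdet : |h.det| < 27) (hpos : Pos 1 h) (x y z w : Fin 4 → ℝ) (hx : ∀ i, x i = h i 1)
    (hy : ∀ i, y i = h i 2) (hz : ∀ i, z i = h i 3) (hw : ∀ i, w i = -(x i + y i + z i))
    (hob : B w x ≤ 0 ∧ B w y ≤ 0 ∧ B w z ≤ 0 ∧ B x y ≤ 0 ∧ B x z ≤ 0 ∧ B y z ≤ 0) :
    Concl h := by
  by_contra hC
  obtain ⟨o1, o2, o3, o4, o5, o6⟩ := hob
  -- the seven vectors are not golden
  have gx : ¬ Golden x := by
    intro hg
    apply hC
    apply golden_concl' h h1 hdet0 hdet hpos (unitA 0 0)
    · intro i; fin_cases i <;> simp [unitA]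
    · convert hg using 2 with i
      rw [Matrix.mul_apply, Fin.sum_univ_four]
      simp [im, unitA, hx]
  have gy : ¬ Golden y := by
    intro hg
    apply hC
    apply golden_concl' h h1 hdet0 hdet hpos (unitB 0)
    · intro i; fin_cases i <;> simp [unitB]
    · convert hg using 2 with i
      rw [Matrix.mul_apply, Fin.sum_univ_four]
      simp [im, unitB, hy]
  have gz : ¬ Golden z := by
    intro hg
    apply hC
    apply golden_concl' h h1 hdet0 hdet hpos unitC
    · intro i; fin_cases i <;> simp [unitC]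
    · convert hg using 2 with i
      rw [Matrix.mul_apply, Fin.sum_univ_four]
      simp [im, unitC, hz]
  have gxyz : ¬ Golden (x + y + z) := by
    intro hg
    apply hC
    apply golden_concl' h h1 hdet0 hdet hpos (unitA 1 1)
    · intro i; fin_cases i <;> simp [unitA]
    · convert hg using 2 with i
      rw [Matrix.mul_apply, Fin.sum_univ_four]
      simp [im, unitA, hx, hy, hz]
  have gxy : ¬ Golden (x + y) := by
    intro hg
    apply hC
    apply golden_concl' h h1 hdet0 hdet hpos (unitA 1 0)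
    · intro i; fin_cases i <;> simp [unitA]
    · convert hg using 2 with i
      rw [Matrix.mul_apply, Fin.sum_univ_four]
      simp [im, unitA, hx, hy]
  have gxz : ¬ Golden (x + z) := by
    intro hg
    apply hC
    apply golden_concl' h h1 hdet0 hdet hpos (unitA 0 1)
    · intro i; fin_cases i <;> simp [unitA]
    · convert hg using 2 with i
      rw [Matrix.mul_apply, Fin.sum_univ_four]
      simp [im, unitA, hx, hz]
  have gyz : ¬ Golden (y + z) := by
    intro hg
    apply hC
    apply golden_concl' h h1 hdet0 hdet hpos (unitB 1)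
    · intro i; fin_cases i <;> simp [unitB]
    · convert hg using 2 with i
      rw [Matrix.mul_apply, Fin.sum_univ_four]
      simp [im, unitB, hy, hz]
  obtain rfl : w = -(x + y + z) := by
    ext i
    rw [hw i]
    simp
  obtain rfl : x = fun i => h i 1 := funext hx
  obtain rfl : y = fun i => h i 2 := funext hy
  obtain rfl : z = fun i => h i 3 := funext hz
  have gw : ¬ Golden (-((fun i => h i 1) + (fun i => h i 2) + (fun i => h i 3))) :=
    fun hg => gxyz (cl_golden_neg hg)
  -- the products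
  have sx : ∀ (a b c : ℤ), ¬ (a = 0 ∧ b = 0 ∧ c = 0) → ∀ v : Fin 4 → ℝ,
      (∀ i, v i = a * h i 1 + b * h i 2 + c * h i 3) → ¬ Golden v → 23.8 ≤ Q v := by
    intro a b c habc v hv hg
    apply single_bound v _ hg
    intro n
    refine (posl h1 hpos n a b c (fun hh => habc hh.2)).trans_eq ?_
    congr 1
    refine Finset.prod_congr rfl fun i _ => ?_
    rw [hv i]
    ring
  have px : ∀ (a b c a' b' c' : ℤ), (∀ p q : ℤ, p * a + q * a' = 0 → p * b + q * b' = 0 →
      p * c + q * c' = 0 → p = 0 ∧ q = 0) → ∀ v v' : Fin 4 → ℝ,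
      (∀ i, v i = a * h i 1 + b * h i 2 + c * h i 3) →
      (∀ i, v' i = a' * h i 1 + b' * h i 2 + c' * h i 3) →
      ¬ Golden v → ¬ Golden v' → ¬ Golden (v + v') → 90 ≤ Q v + Q v' + Q (v + v') := by
    intro a b c a' b' c' hind v v' hv hv' hg hg' hgg
    apply pair_bound v v' _ hg hg' hgg
    intro n p q hne
    refine (posl h1 hpos n (p * a + q * a') (p * b + q * b') (p * c + q * c') ?_).trans_eq ?_
    · rintro ⟨e0, e1, e2, e3⟩
      obtain ⟨rfl, rfl⟩ := hind p q e1 e2 e3
      exact hne (by rw [e0])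
    · congr 1
      refine Finset.prod_congr rfl fun i _ => ?_
      rw [hv i, hv' i]
      push_cast
      ring
  have s0 := sx (-1) (-1) (-1) (by norm_num) _
    (fun i => by simp only [Pi.neg_apply, Pi.add_apply]; push_cast; ring) gw
  have s1 := sx 1 0 0 (by norm_num) _ (fun i => by push_cast; ring) gx
  have s2 := sx 0 1 0 (by norm_num) _ (fun i => by push_cast; ring) gy
  have s3 := sx 0 0 1 (by norm_num) _ (fun i => by push_cast; ring) gz
  have c1 := sx 0 1 1 (by norm_num) _
    (fun i => by simp only [Pi.add_apply]; push_cast; ring) gyz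
  have c2 := sx 1 0 1 (by norm_num) _
    (fun i => by simp only [Pi.add_apply]; push_cast; ring) gxz
  have c3 := sx 1 1 0 (by norm_num) _
    (fun i => by simp only [Pi.add_apply]; push_cast; ring) gxy
  have pwx := px (-1) (-1) (-1) 1 0 0 (by intro p q; omega) _ _
    (fun i => by simp only [Pi.neg_apply, Pi.add_apply]; push_cast; ring)
    (fun i => by push_cast; ring) gw gx (fun hg => gyz (cl_golden_neg (by
      convert hg using 1
      ext i
      simp only [Pi.neg_apply, Pi.add_apply]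
      ring)))
  have pwy := px (-1) (-1) (-1) 0 1 0 (by intro p q; omega) _ _
    (fun i => by simp only [Pi.neg_apply, Pi.add_apply]; push_cast; ring)
    (fun i => by push_cast; ring) gw gy (fun hg => gxz (cl_golden_neg (by
      convert hg using 1
      ext i
      simp only [Pi.neg_apply, Pi.add_apply]
      ring)))
  have pwz := px (-1) (-1) (-1) 0 0 1 (by intro p q; omega) _ _
    (fun i => by simp only [Pi.neg_apply, Pi.add_apply]; push_cast; ring)
    (fun i => by push_cast; ring) gw gz (fun hg => gxy (cl_golden_neg (by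
      convert hg using 1
      ext i
      simp only [Pi.neg_apply, Pi.add_apply]
      ring)))
  have pxy := px 1 0 0 0 1 0 (by intro p q; omega) _ _
    (fun i => by push_cast; ring) (fun i => by push_cast; ring) gx gy gxy
  have pxz := px 1 0 0 0 0 1 (by intro p q; omega) _ _
    (fun i => by push_cast; ring) (fun i => by push_cast; ring) gx gz gxz
  have pyz := px 0 1 0 0 0 1 (by intro p q; omega) _ _
    (fun i => by push_cast; ring) (fun i => by push_cast; ring) gy gz gyz
  have hgram := det_sq_eq_tree h h1 _ _ _ (-((fun i => h i 1) + (fun i => h i 2) + (fun i => h i 3)))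
    hx hy hz (fun i => by simp only [Pi.neg_apply, Pi.add_apply])
  have htree := tree_ge _ _ _ _ _ _ (neg_nonneg.2 o1) (neg_nonneg.2 o2) (neg_nonneg.2 o3)
    (neg_nonneg.2 o4) (neg_nonneg.2 o5) (neg_nonneg.2 o6)
    (by
      simp only [Q, B, Fin.sum_univ_four, Pi.neg_apply, Pi.add_apply] at pyz ⊢
      linarith)
    (by
      simp only [Q, B, Fin.sum_univ_four, Pi.neg_apply, Pi.add_apply] at pxz ⊢
      linarith)
    (by
      simp only [Q, B, Fin.sum_univ_four, Pi.neg_apply, Pi.add_apply] at pxy ⊢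
      linarith)
    (by
      simp only [Q, B, Fin.sum_univ_four, Pi.neg_apply, Pi.add_apply] at pwz ⊢
      linarith)
    (by
      simp only [Q, B, Fin.sum_univ_four, Pi.neg_apply, Pi.add_apply] at pwy ⊢
      linarith)
    (by
      simp only [Q, B, Fin.sum_univ_four, Pi.neg_apply, Pi.add_apply] at pwx ⊢
      linarith)
    (by
      simp only [Q, B, Fin.sum_univ_four, Pi.neg_apply, Pi.add_apply] at s0 ⊢
      linarith)
    (by
      simp only [Q, B, Fin.sum_univ_four, Pi.neg_apply, Pi.add_apply] at s1 ⊢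
      linarith)
    (by
      simp only [Q, B, Fin.sum_univ_four, Pi.neg_apply, Pi.add_apply] at s2 ⊢
      linarith)
    (by
      simp only [Q, B, Fin.sum_univ_four, Pi.neg_apply, Pi.add_apply] at s3 ⊢
      linarith)
    (by
      simp only [Q, B, Fin.sum_univ_four, Pi.neg_apply, Pi.add_apply] at c1 ⊢
      linarith)
    (by
      simp only [Q, B, Fin.sum_univ_four, Pi.neg_apply, Pi.add_apply] at c2 ⊢
      linarith)
    (by
      simp only [Q, B, Fin.sum_univ_four, Pi.neg_apply, Pi.add_apply] at c3 ⊢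
      linarith)
  rw [← hgram] at htree
  have h27 : h.det ^ 2 < 27 ^ 2 := by
    rw [← sq_abs]
    exact pow_lt_pow_left₀ hdet (abs_nonneg _) two_ne_zero
  linarith

theorem classify (h : Matrix (Fin 4) (Fin 4) ℝ) (hdet0 : h.det ≠ 0) (hdet : |h.det| < 27)
    (hpos : Pos 1 h) (k : Fin 4 → ℤ) (hk : h *ᵥ ic k = fun _ => 1) :
    ∃ (U : (Matrix (Fin 4) (Fin 4) ℤ)ˣ) (π : Equiv.Perm (Fin 4)),
      ∀ i j, h i j = (gK * im (U : Matrix (Fin 4) (Fin 4) ℤ)) (π i) j := by
  change Concl h
  -- `k` is primitive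
  have hprim : ∀ (m : ℤ) (k' : Fin 4 → ℤ), k = m • k' → m = 1 ∨ m = -1 := by
    intro m k' hm
    have hk0 : k' ≠ 0 := by
      rintro rfl
      rw [hm] at hk
      have := congrFun hk 0
      simp [Matrix.mulVec, dotProduct, ic] at this
    have h2 : P h (ic k) = m ^ 4 * P h (ic k') := by
      rw [hm]
      simp only [P, ic, Pi.smul_apply, smul_eq_mul]
      have : ∀ i : Fin 4, ∑ j, h i j * ((m * k' j : ℤ) : ℝ) = m * ∑ j, h i j * (k' j : ℝ) := by
        intro i
        rw [Finset.mul_sum]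
        refine Finset.sum_congr rfl fun j _ => ?_
        push_cast
        ring
      simp only [this]
      rw [Finset.prod_mul_distrib]
      simp
    have h3 : P h (ic k) = 1 := by
      rw [P_eq, hk]
      simp
    have h4 := hpos k' hk0
    have h5 : (|m| : ℝ) ^ 4 * |P h (ic k')| = 1 := by
      rw [← abs_pow, ← abs_mul, ← h2, h3, abs_one]
    have hm0 : m ≠ 0 := by
      rintro rfl
      simp at h5
    have h6 : (1 : ℝ) ≤ |(m : ℝ)| := by
      rw [← Int.cast_abs]
      exact_mod_cast Int.one_le_abs hm0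
    have h7 : |(m : ℝ)| ≤ 1 := by
      by_contra hlt
      push Not at hlt
      have : (1 : ℝ) < |(m : ℝ)| ^ 4 := one_lt_pow₀ hlt (by norm_num)
      nlinarith
    have h8 : |m| = 1 := by
      have : |(m : ℝ)| = 1 := le_antisymm h7 h6
      rw [← Int.cast_abs] at this
      exact_mod_cast this
    rcases abs_eq (zero_le_one) |>.1 h8 with h9 | h9
    · exact Or.inl h9
    · exact Or.inr h9
  obtain ⟨V, hV⟩ := exists_unimodular k hprim
  apply Concl.of_mul V
  have hc0 : ∀ i, (h * im (V : Matrix (Fin 4) (Fin 4) ℤ)) i 0 = 1 := by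
    intro i
    have := congrFun hk i
    rw [← this]
    simp only [Matrix.mul_apply, Matrix.mulVec, dotProduct, im, ic, Matrix.map_apply, hV]
  have hd0 := mul_im_det_ne hdet0 V
  have hd1 : |(h * im (V : Matrix (Fin 4) (Fin 4) ℤ)).det| < 27 := by rwa [mul_im_abs_det]
  have hp1 : Pos 1 (h * im (V : Matrix (Fin 4) (Fin 4) ℤ)) := hpos.mul_im (det_unit_ne _)
  obtain ⟨U, hU1, hU2⟩ := exists_obtuse _ hd0 hc0
  apply Concl.of_mul U
  exact classify_ob _ hU1 (mul_im_det_ne hd0 U) (by rwa [mul_im_abs_det])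
    (hp1.mul_im (det_unit_ne _)) _ _ _ _ (fun _ => rfl) (fun _ => rfl) (fun _ => rfl)
    (fun _ => rfl) (hU2 _ _ _ _ (fun _ => rfl) (fun _ => rfl) (fun _ => rfl) (fun _ => rfl))

end Pool.Agent.H16.Dav
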