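import Pool.Agent.H89.CSD.IntForm

/-!
# Products of four real linear forms: definitions

Notation from `Pool.Agent.H89.CSD`: `P g x = ∏ i, ∑ j, g i j * x j`, `ic` casts an integer vector,
`im` casts an integer matrix, `Pos c g` says `c ≤ |P g (ic x)|` for all nonzero integer `x`.
-/

namespace Pool.Agent.H16.Dav

open Matrix

/-- `∑_{i<j} (v i - v j)^2`. -/
def Q (v : Fin 4 → ℝ) : ℝ := 4 * ∑ i, v i ^ 2 - (∑ i, v i) ^ 2

/-- The bilinear form with `B v v = Q v`. -/
def B (v w : Fin 4 → ℝ) : ℝ := 4 * ∑ i, v i * w i - (∑ i, v i) * (∑ i, w i)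

/-- All coordinates lie strictly between two integers at distance `3`. -/
def Golden (v : Fin 4 → ℝ) : Prop := ∃ n : ℤ, ∀ i, (n : ℝ) < v i ∧ v i < n + 3

/-- `(φ, φ, ψ, ψ)`. -/
noncomputable def gam : Fin 4 → ℝ :=
  ![Real.goldenRatio, Real.goldenRatio, Real.goldenConj, Real.goldenConj]

/-- The roots of `X^4 - X^3 - 3X^2 + X + 1`. -/
noncomputable def rho : Fin 4 → ℝ :=
  ![(Real.goldenConj + √(6 - Real.goldenRatio)) / 2, (Real.goldenConj - √(6 - Real.goldenRatio)) / 2,
    (Real.goldenRatio + √(6 - Real.goldenConj)) / 2, (Real.goldenRatio - √(6 - Real.goldenConj)) / 2]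

/-- The Vandermonde matrix of the roots: its integer points are the conjugate vectors of the
elements of `ℤ[ρ]`, the ring of integers of the quartic field of discriminant `725`. -/
noncomputable def gK : Matrix (Fin 4) (Fin 4) ℝ := Matrix.of fun i j => rho i ^ (j : ℕ)

/-- The spanning tree polynomial of the complete graph on `0, 1, 2, 3`. -/
def tree (a01 a02 a03 a12 a13 a23 : ℝ) : ℝ :=
  a01 * a02 * a03 + a01 * a12 * a13 + a02 * a12 * a23 + a03 * a13 * a23 +
  a01 * a02 * a13 + a01 * a02 * a23 + a01 * a03 * a12 + a01 * a03 * a23 +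
  a01 * a12 * a23 + a01 * a13 * a23 + a02 * a03 * a12 + a02 * a03 * a13 +
  a02 * a12 * a13 + a02 * a13 * a23 + a03 * a12 * a13 + a03 * a12 * a23

end Pool.Agent.H16.Dav
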