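import Pool.Agent.H16.Dav.Defs

/-!
# The certificate checker for the pair inequality

Variables `x, y : Fin 4 → ℝ`.  For a triple `k = (n, a, b)` of integers put
`λ_i = n + a x_i + b y_i`.  If the signs of the four numbers are known and `|∏ λ_i| ≥ 1` then for
natural numbers `W_i`, `c` with `c^4 ≤ 256 ∏ W_i` the arithmetic-geometric inequality gives the
linear inequality `∑ W_i |λ_i| ≥ c`.  A leaf of a certificate is a nonnegative combination of such
inequalities, of known linear facts and of a linearisation of `S ≤ S0`, which adds up to a negative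
constant.  A certificate is a tree of case distinctions `(a x + b y)_i ≤ n` or `≥ n`, coded as a
natural number in base `2^28`.
-/

namespace Pool.Agent.H16.Dav

/-- A linear form in `x, y` with integer coefficients. -/
structure Row where
  a0 : Int
  a1 : Int
  a2 : Int
  a3 : Int
  b0 : Int
  b1 : Int
  b2 : Int
  b3 : Int
  c : Int

/-- Its value. -/
def Row.eval (r : Row) (x y : Fin 4 → ℝ) : ℝ :=
  r.a0 * x 0 + r.a1 * x 1 + r.a2 * x 2 + r.a3 * x 3 +
    r.b0 * y 0 + r.b1 * y 1 + r.b2 * y 2 + r.b3 * y 3 + r.c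

/-- Sum. -/
def Row.add (r t : Row) : Row :=
  ⟨r.a0 + t.a0, r.a1 + t.a1, r.a2 + t.a2, r.a3 + t.a3, r.b0 + t.b0, r.b1 + t.b1, r.b2 + t.b2,
    r.b3 + t.b3, r.c + t.c⟩

theorem Row.eval_add (r t : Row) (x y : Fin 4 → ℝ) :
    (r.add t).eval x y = r.eval x y + t.eval x y := by
  simp only [Row.eval, Row.add]
  push_cast
  ring

/-- Four integers. -/
structure F4 where
  p0 : Int
  p1 : Int
  p2 : Int
  p3 : Int

/-- Entry. -/
def F4.get (f : F4) (i : Nat) : Int :=
  match i with
  | 0 => f.p0
  | 1 => f.p1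
  | 2 => f.p2
  | _ => f.p3

/-- The fact `(a x + b y)_i ≥ n` (`s = true`) or `≤ n` (`s = false`). -/
structure Fact where
  a : Int
  b : Int
  i : Nat
  n : Int
  s : Bool

/-- Entry of a vector. -/
def vget (v : Fin 4 → ℝ) (i : Nat) : ℝ :=
  match i with
  | 0 => v 0
  | 1 => v 1
  | 2 => v 2
  | _ => v 3

/-- The fact holds. -/
def Fact.Holds (f : Fact) (x y : Fin 4 → ℝ) : Prop :=
  match f.s with
  | true => (f.n : ℝ) ≤ f.a * vget x f.i + f.b * vget y f.i
  | false => f.a * vget x f.i + f.b * vget y f.i ≤ (f.n : ℝ)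

/-- A row with the coefficients `p, q` at `x_i, y_i`. -/
def mkRow (i : Nat) (p q c : Int) : Row :=
  match i with
  | 0 => ⟨p, 0, 0, 0, q, 0, 0, 0, c⟩
  | 1 => ⟨0, p, 0, 0, 0, q, 0, 0, c⟩
  | 2 => ⟨0, 0, p, 0, 0, 0, q, 0, c⟩
  | _ => ⟨0, 0, 0, p, 0, 0, 0, q, c⟩

theorem mkRow_eval (i : Nat) (p q c : Int) (x y : Fin 4 → ℝ) :
    (mkRow i p q c).eval x y = p * vget x i + q * vget y i + c := by
  rcases i with _ | _ | _ | i <;> simp [mkRow, Row.eval, vget]

/-- The row of `e` times a fact. -/
def Fact.row (f : Fact) (e : Int) : Row :=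
  match f.s with
  | true => mkRow f.i (e * f.a) (e * f.b) (-(e * f.n))
  | false => mkRow f.i (-(e * f.a)) (-(e * f.b)) (e * f.n)

theorem Fact.row_nonneg (f : Fact) (e : Nat) (x y : Fin 4 → ℝ) (h : f.Holds x y) :
    0 ≤ (f.row (e : Int)).eval x y := by
  have he : (0 : ℝ) ≤ e := Nat.cast_nonneg e
  unfold Fact.Holds at h
  unfold Fact.row
  cases hs : f.s
  · rw [hs] at h
    simp only at h
    simp only [mkRow_eval]
    push_cast
    nlinarith [mul_nonneg he (sub_nonneg.2 h)]
  · rw [hs] at h
    simp only at h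
    simp only [mkRow_eval]
    push_cast
    nlinarith [mul_nonneg he (sub_nonneg.2 h)]

/-- The state: floors of `x`, `y`, `x + y` and further facts. -/
structure State where
  fx : F4
  fy : F4
  fs : F4
  ex : List Fact

/-- Bounds from floors. -/
def FloorOK (f : F4) (v : Fin 4 → ℝ) : Prop :=
  ∀ i : Nat, (f.get i : ℝ) ≤ vget v i ∧ vget v i ≤ f.get i + 1

/-- The state holds. -/
def State.Holds (st : State) (x y : Fin 4 → ℝ) : Prop :=
  FloorOK st.fx x ∧ FloorOK st.fy y ∧ FloorOK st.fs (x + y) ∧ ∀ f ∈ st.ex, f.Holds x y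

/-- Sign of `n + v_i` from the floor: `1` for `≥ 0`, `2` for `≤ 0`. -/
def cmp (f n : Int) : Nat := bif decide (0 ≤ f + n) then 1 else 2

/-- Sign of `n + a x_i + b y_i` from a list of facts: `1` for `≥ 0`, `2` for `≤ 0`, `0` unknown. -/
def signEx (a b : Int) (i : Nat) (n : Int) : List Fact → Nat
  | [] => 0
  | f :: l =>
    bif decide (f.a = a) && (decide (f.b = b) && Nat.beq f.i i) then
      (match f.s with
      | true => bif decide (0 ≤ f.n + n) then 1 else signEx a b i n l
      | false => bif decide (f.n + n ≤ 0) then 2 else signEx a b i n l)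
    else signEx a b i n l

/-- Sign of `n + a x_i + b y_i`. -/
def signOf (st : State) (a b : Int) (i : Nat) (n : Int) : Nat :=
  bif decide (a = 1) && decide (b = 0) then cmp (st.fx.get i) n
  else bif decide (a = 0) && decide (b = 1) then cmp (st.fy.get i) n
  else bif decide (a = 1) && decide (b = 1) then cmp (st.fs.get i) n
  else signEx a b i n st.ex

/-- Signed weight. -/
def swt (s W : Nat) : Int :=
  match s with
  | 1 => (W : Int)
  | 2 => -(W : Int)
  | _ => 0

/-- The sign is known. -/
def okSign (s : Nat) : Bool :=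
  match s with
  | 1 => true
  | 2 => true
  | _ => false

/-- The row of an arithmetic-geometric inequality. -/
def termRow (a b n : Int) (w0 w1 w2 w3 : Int) (c : Nat) : Row :=
  ⟨w0 * a, w1 * a, w2 * a, w3 * a, w0 * b, w1 * b, w2 * b, w3 * b,
    (w0 + w1 + w2 + w3) * n - (c : Int)⟩

/-- Digit `j` in base `2^28`. -/
def dg (m j : Nat) : Nat := Nat.shiftRight m (28 * j) % 268435456

/-- Signed digit. -/
def sd (m j off : Nat) : Int := (dg m j : Int) - (off : Int)

/-- The terms of a leaf. -/
def terms (sg : Bool) (st : State) : Nat → Nat → Row → Option (Row × Nat)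
  | 0, m, acc => some (acc, m)
  | k + 1, m, acc =>
    let a := sd m 0 8
    let b := sd m 1 8
    let n := sd m 2 64
    let s0 := signOf st a b 0 n
    let s1 := signOf st a b 1 n
    let s2 := signOf st a b 2 n
    let s3 := signOf st a b 3 n
    bif okSign s0 && (okSign s1 && (okSign s2 && (okSign s3 &&
        (Nat.ble (dg m 7 ^ 4) (256 * (dg m 3 * dg m 4 * (dg m 5 * dg m 6))) &&
          (bif sg then decide (a = 1) && decide (b = 0)
            else !(decide (a = 0) && decide (b = 0))))))) then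
      terms sg st k (Nat.shiftRight m 224)
        (acc.add (termRow a b n (swt s0 (dg m 3)) (swt s1 (dg m 4)) (swt s2 (dg m 5))
          (swt s3 (dg m 6)) (dg m 7)))
    else none

/-- A fact of the root. -/
def rootFact (st : State) (g i : Nat) (hi : Bool) : Fact :=
  match g with
  | 0 => ⟨1, 0, i, bif hi then st.fx.get i + 1 else st.fx.get i, !hi⟩
  | 1 => ⟨0, 1, i, bif hi then st.fy.get i + 1 else st.fy.get i, !hi⟩
  | _ => ⟨1, 1, i, bif hi then st.fs.get i + 1 else st.fs.get i, !hi⟩

/-- Fact number `k`. -/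
def factOf (st : State) (k : Nat) : Option Fact :=
  bif Nat.ble 24 k then st.ex[k - 24]?
  else some (rootFact st (k / 8) (k / 2 % 4) (Nat.beq (k % 2) 1))

/-- The facts of a leaf. -/
def facts (st : State) : Nat → Nat → Row → Option (Row × Nat)
  | 0, m, acc => some (acc, m)
  | k + 1, m, acc =>
    match factOf st (dg m 0) with
    | none => none
    | some f => facts st k (Nat.shiftRight m 56) (acc.add (f.row (dg m 1 : Int)))

/-- The row of the linearised quadratic inequality `S ≤ S0 / 100`. -/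
def quadRow (S0 : Int) (nu q u0 u1 u2 u3 v0 v1 v2 v3 : Int) : Row :=
  let sx := u0 + u1 + u2 + u3
  let sy := v0 + v1 + v2 + v3
  let gx (u v : Int) : Int := 4 * (2 * u + v) - (2 * sx + sy)
  let gy (u v : Int) : Int := 4 * (u + 2 * v) - (sx + 2 * sy)
  ⟨-(200 * nu * q * gx u0 v0), -(200 * nu * q * gx u1 v1), -(200 * nu * q * gx u2 v2),
    -(200 * nu * q * gx u3 v3), -(200 * nu * q * gy u0 v0), -(200 * nu * q * gy u1 v1),
    -(200 * nu * q * gy u2 v2), -(200 * nu * q * gy u3 v3),
    nu * (q * q * S0 + 100 * (gx u0 v0 * u0 + gx u1 v1 * u1 + gx u2 v2 * u2 + gx u3 v3 * u3 +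
      gy u0 v0 * v0 + gy u1 v1 * v1 + gy u2 v2 * v2 + gy u3 v3 * v3))⟩

/-- The final test: all coefficients vanish and the constant is negative. -/
def Row.bad (r : Row) : Bool :=
  decide (r.a0 = 0) && (decide (r.a1 = 0) && (decide (r.a2 = 0) && (decide (r.a3 = 0) &&
    (decide (r.b0 = 0) && (decide (r.b1 = 0) && (decide (r.b2 = 0) && (decide (r.b3 = 0) &&
      decide (r.c < 0))))))))

/-- The quadratic part of a leaf, the final test; returns the rest of the stream. -/
def quad (S0 : Int) (m : Nat) (acc : Row) : Option Nat :=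
  bif Nat.beq (dg m 0) 0 then (bif acc.bad then some (Nat.shiftRight m 28) else none)
  else
    bif (acc.add (quadRow S0 (dg m 0) (dg m 1) (sd m 2 65536) (sd m 3 65536) (sd m 4 65536)
      (sd m 5 65536) (sd m 6 65536) (sd m 7 65536) (sd m 8 65536) (sd m 9 65536))).bad
    then some (Nat.shiftRight m 280) else none

/-- A leaf. -/
def leaf (sg : Bool) (S0 : Int) (st : State) (m : Nat) : Option Nat :=
  match terms sg st (dg m 0) (Nat.shiftRight m 28) ⟨0, 0, 0, 0, 0, 0, 0, 0, 0⟩ with
  | none => none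
  | some (acc, m1) =>
    match facts st (dg m1 0) (Nat.shiftRight m1 28) acc with
    | none => none
    | some (acc2, m2) => quad S0 m2 acc2

/-- The tree. -/
def tcheck (sg : Bool) (S0 : Int) : Nat → State → Nat → Option Nat
  | 0, _, _ => none
  | fuel + 1, st, m =>
    bif Nat.beq (dg m 0) 0 then leaf sg S0 st (Nat.shiftRight m 28)
    else
      let a := sd m 1 8
      let b := sd m 2 8
      let i := dg m 3
      let n := sd m 4 64
      match tcheck sg S0 fuel ⟨st.fx, st.fy, st.fs, st.ex ++ [⟨a, b, i, n, false⟩]⟩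
          (Nat.shiftRight m 140) with
      | none => none
      | some m1 => tcheck sg S0 fuel ⟨st.fx, st.fy, st.fs, st.ex ++ [⟨a, b, i, n, true⟩]⟩ m1

/-- The quadratic function. -/
def SS (x y : Fin 4 → ℝ) : ℝ := Q x + Q y + Q (x + y)

/-- The arithmetic hypothesis. -/
def Adm (sg : Bool) (x y : Fin 4 → ℝ) : Prop :=
  ∀ n a b : ℤ, (if sg then a = 1 ∧ b = 0 else ¬ (a = 0 ∧ b = 0)) →
    1 ≤ |∏ i, ((n : ℝ) + a * x i + b * y i)|

theorem amgm4 (a b c d : ℝ) (ha : 0 ≤ a) (hb : 0 ≤ b) (hc : 0 ≤ c) (hd : 0 ≤ d) :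
    256 * (a * b * (c * d)) ≤ (a + b + c + d) ^ 4 := by
  have h1 : 4 * (a * b) ≤ (a + b) ^ 2 := by nlinarith [sq_nonneg (a - b)]
  have h2 : 4 * (c * d) ≤ (c + d) ^ 2 := by nlinarith [sq_nonneg (c - d)]
  have h3 : 4 * ((a + b) * (c + d)) ≤ (a + b + c + d) ^ 2 := by nlinarith [sq_nonneg (a + b - c - d)]
  have h4 : 16 * ((a * b) * (c * d)) ≤ (a + b) ^ 2 * (c + d) ^ 2 := by
    have := mul_le_mul h1 h2 (by positivity) (by positivity)
    nlinarith
  have h5 : (4 * ((a + b) * (c + d))) ^ 2 ≤ ((a + b + c + d) ^ 2) ^ 2 :=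
    pow_le_pow_left₀ (by positivity) h3 2
  nlinarith

theorem signEx_sound (a b : Int) (i : Nat) (n : Int) (l : List Fact) (x y : Fin 4 → ℝ)
    (h : ∀ f ∈ l, f.Holds x y) :
    (signEx a b i n l = 1 → (0 : ℝ) ≤ n + a * vget x i + b * vget y i) ∧
    (signEx a b i n l = 2 → (n : ℝ) + a * vget x i + b * vget y i ≤ 0) := by
  induction l with
  | nil => simp [signEx]
  | cons f l ih =>
    have ih' := ih fun g hg => h g (List.mem_cons_of_mem _ hg)
    have hf := h f List.mem_cons_self
    unfold signEx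
    cases hc : (decide (f.a = a) && (decide (f.b = b) && Nat.beq f.i i))
    · simpa using ih'
    · simp only [Bool.and_eq_true, decide_eq_true_eq] at hc
      obtain ⟨h1, h2, h3'⟩ := hc
      have h3 := Nat.eq_of_beq_eq_true h3'
      unfold Fact.Holds at hf
      simp only [cond_true]
      cases hs : f.s
      · rw [hs] at hf
        simp only at hf ⊢
        by_cases hn : f.n + n ≤ 0
        · simp only [hn, decide_true, cond_true]
          refine ⟨fun h => by simp at h, fun _ => ?_⟩
          rw [h1, h2, h3] at hf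
          have : ((f.n + n : ℤ) : ℝ) ≤ 0 := by exact_mod_cast hn
          push_cast at this
          linarith
        · simp only [hn, decide_false, cond_false]
          exact ih'
      · rw [hs] at hf
        simp only at hf ⊢
        by_cases hn : 0 ≤ f.n + n
        · simp only [hn, decide_true, cond_true]
          refine ⟨fun _ => ?_, fun h => by simp at h⟩
          rw [h1, h2, h3] at hf
          have : (0 : ℝ) ≤ ((f.n + n : ℤ) : ℝ) := by exact_mod_cast hn
          push_cast at this
          linarith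
        · simp only [hn, decide_false, cond_false]
          exact ih'

theorem cmp_sound (f n : Int) (t : ℝ) (h1 : (f : ℝ) ≤ t) (h2 : t ≤ f + 1) :
    (cmp f n = 1 → (0 : ℝ) ≤ n + t) ∧ (cmp f n = 2 → (n : ℝ) + t ≤ 0) := by
  unfold cmp
  by_cases h : 0 ≤ f + n
  · have h' : (0 : ℝ) ≤ ((f + n : ℤ) : ℝ) := by exact_mod_cast h
    push_cast at h'
    simp only [h, decide_true, cond_true]
    exact ⟨fun _ => by linarith, fun h => by simp at h⟩
  · have h' : ((f + n + 1 : ℤ) : ℝ) ≤ 0 := by exact_mod_cast (by omega : f + n + 1 ≤ 0)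
    push_cast at h'
    simp only [h, decide_false, cond_false]
    exact ⟨fun h => by simp at h, fun _ => by linarith⟩

theorem signOf_sound (st : State) (a b : Int) (i : Nat) (n : Int) (x y : Fin 4 → ℝ)
    (h : st.Holds x y) :
    (signOf st a b i n = 1 → (0 : ℝ) ≤ n + a * vget x i + b * vget y i) ∧
    (signOf st a b i n = 2 → (n : ℝ) + a * vget x i + b * vget y i ≤ 0) := by
  obtain ⟨hx, hy, hs, he⟩ := h
  unfold signOf
  cases h1 : (decide (a = 1) && decide (b = 0))
  · simp only [cond_false]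
    cases h2 : (decide (a = 0) && decide (b = 1))
    · simp only [cond_false]
      cases h3 : (decide (a = 1) && decide (b = 1))
      · simp only [cond_false]
        exact signEx_sound a b i n st.ex x y he
      · simp only [Bool.and_eq_true, decide_eq_true_eq] at h3
        obtain ⟨rfl, rfl⟩ := h3
        simp only [cond_true]
        have := cmp_sound (st.fs.get i) n (vget (x + y) i) (hs i).1 (hs i).2
        have he : vget (x + y) i = vget x i + vget y i := by
          rcases i with _ | _ | _ | i <;> simp [vget]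
        rw [he] at this
        push_cast
        constructor
        · intro h
          have := this.1 h
          linarith
        · intro h
          have := this.2 h
          linarith
    · simp only [Bool.and_eq_true, decide_eq_true_eq] at h2
      obtain ⟨rfl, rfl⟩ := h2
      simp only [cond_true]
      have := cmp_sound (st.fy.get i) n (vget y i) (hy i).1 (hy i).2
      push_cast
      constructor
      · intro h
        have := this.1 h
        linarith
      · intro h
        have := this.2 h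
        linarith
  · simp only [Bool.and_eq_true, decide_eq_true_eq] at h1
    obtain ⟨rfl, rfl⟩ := h1
    simp only [cond_true]
    have := cmp_sound (st.fx.get i) n (vget x i) (hx i).1 (hx i).2
    push_cast
    constructor
    · intro h
      have := this.1 h
      linarith
    · intro h
      have := this.2 h
      linarith

theorem swt_sound (s W : Nat) (t : ℝ) (hs : okSign s = true) (h1 : s = 1 → 0 ≤ t)
    (h2 : s = 2 → t ≤ 0) : ((swt s W : Int) : ℝ) * t = W * |t| := by
  rcases s with _ | _ | _ | s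
  · simp [okSign] at hs
  · simp [swt, abs_of_nonneg (h1 rfl)]
  · simp [swt, abs_of_nonpos (h2 rfl)]
  · simp [okSign] at hs

theorem termRow_nonneg (a b n : Int) (s0 s1 s2 s3 W0 W1 W2 W3 c : Nat) (x y : Fin 4 → ℝ)
    (hN : 1 ≤ |∏ i, ((n : ℝ) + a * x i + b * y i)|)
    (hs0 : okSign s0 = true) (hs1 : okSign s1 = true) (hs2 : okSign s2 = true)
    (hs3 : okSign s3 = true)
    (h0 : (s0 = 1 → (0 : ℝ) ≤ n + a * x 0 + b * y 0) ∧ (s0 = 2 → (n : ℝ) + a * x 0 + b * y 0 ≤ 0))
    (h1 : (s1 = 1 → (0 : ℝ) ≤ n + a * x 1 + b * y 1) ∧ (s1 = 2 → (n : ℝ) + a * x 1 + b * y 1 ≤ 0))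
    (h2 : (s2 = 1 → (0 : ℝ) ≤ n + a * x 2 + b * y 2) ∧ (s2 = 2 → (n : ℝ) + a * x 2 + b * y 2 ≤ 0))
    (h3 : (s3 = 1 → (0 : ℝ) ≤ n + a * x 3 + b * y 3) ∧ (s3 = 2 → (n : ℝ) + a * x 3 + b * y 3 ≤ 0))
    (hc : c ^ 4 ≤ 256 * (W0 * W1 * (W2 * W3))) :
    0 ≤ (termRow a b n (swt s0 W0) (swt s1 W1) (swt s2 W2) (swt s3 W3) c).eval x y := by
  have e0 := swt_sound s0 W0 _ hs0 h0.1 h0.2
  have e1 := swt_sound s1 W1 _ hs1 h1.1 h1.2
  have e2 := swt_sound s2 W2 _ hs2 h2.1 h2.2
  have e3 := swt_sound s3 W3 _ hs3 h3.1 h3.2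
  set l0 : ℝ := n + a * x 0 + b * y 0
  set l1 : ℝ := n + a * x 1 + b * y 1
  set l2 : ℝ := n + a * x 2 + b * y 2
  set l3 : ℝ := n + a * x 3 + b * y 3
  have hN' : 1 ≤ |l0| * |l1| * (|l2| * |l3|) := by
    rw [Fin.prod_univ_four] at hN
    rw [← abs_mul, ← abs_mul, ← abs_mul]
    rwa [mul_assoc] at hN
  have key : (c : ℝ) ≤ W0 * |l0| + W1 * |l1| + W2 * |l2| + W3 * |l3| := by
    have h4 := amgm4 (W0 * |l0|) (W1 * |l1|) (W2 * |l2|) (W3 * |l3|) (by positivity)
      (by positivity) (by positivity) (by positivity)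
    have h5 : (c : ℝ) ^ 4 ≤ 256 * (W0 * W1 * (W2 * W3)) := by exact_mod_cast hc
    have h6 : 256 * ((W0 : ℝ) * W1 * (W2 * W3)) ≤
        256 * (W0 * |l0| * (W1 * |l1|) * (W2 * |l2| * (W3 * |l3|))) := by
      have h7 : (0 : ℝ) ≤ W0 * W1 * (W2 * W3) := by positivity
      nlinarith [mul_le_mul_of_nonneg_left hN' h7]
    have h8 := (h5.trans h6).trans h4
    exact le_of_pow_le_pow_left₀ (by norm_num) (by positivity) h8
  have : (termRow a b n (swt s0 W0) (swt s1 W1) (swt s2 W2) (swt s3 W3) c).eval x y =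
      swt s0 W0 * l0 + swt s1 W1 * l1 + swt s2 W2 * l2 + swt s3 W3 * l3 - c := by
    simp only [termRow, Row.eval, l0, l1, l2, l3]
    push_cast
    ring
  rw [this, e0, e1, e2, e3]
  linarith

theorem terms_sound (sg : Bool) (st : State) (x y : Fin 4 → ℝ) (hst : st.Holds x y)
    (hA : Adm sg x y) : ∀ (k m : Nat) (acc : Row) (r : Row × Nat),
    terms sg st k m acc = some r → 0 ≤ acc.eval x y → 0 ≤ r.1.eval x y := by
  intro k
  induction k with
  | zero =>
    intro m acc r h hacc
    simp only [terms, Option.some.injEq] at h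
    rw [← h]
    exact hacc
  | succ k ih =>
    intro m acc r h hacc
    rw [terms] at h
    cases hc : (okSign (signOf st (sd m 0 8) (sd m 1 8) 0 (sd m 2 64)) &&
      (okSign (signOf st (sd m 0 8) (sd m 1 8) 1 (sd m 2 64)) &&
        (okSign (signOf st (sd m 0 8) (sd m 1 8) 2 (sd m 2 64)) &&
          (okSign (signOf st (sd m 0 8) (sd m 1 8) 3 (sd m 2 64)) &&
        (Nat.ble (dg m 7 ^ 4) (256 * (dg m 3 * dg m 4 * (dg m 5 * dg m 6))) &&
          (bif sg then decide (sd m 0 8 = 1) && decide (sd m 1 8 = 0)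
            else !(decide (sd m 0 8 = 0) && decide (sd m 1 8 = 0)))))))) with
    | false =>
      rw [hc] at h
      simp at h
    | true =>
      rw [hc] at h
      simp only [cond_true] at h
      rw [Bool.and_eq_true, Bool.and_eq_true, Bool.and_eq_true, Bool.and_eq_true,
        Bool.and_eq_true] at hc
      obtain ⟨c0, c1, c2, c3, c4, c5⟩ := hc
      refine ih _ _ _ h ?_
      rw [Row.eval_add]
      refine add_nonneg hacc (termRow_nonneg _ _ _ _ _ _ _ _ _ _ _ _ x y ?_ c0 c1 c2 c3
        (signOf_sound st _ _ 0 _ x y hst) (signOf_sound st _ _ 1 _ x y hst)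
        (signOf_sound st _ _ 2 _ x y hst) (signOf_sound st _ _ 3 _ x y hst)
        (Nat.le_of_ble_eq_true c4))
      apply hA
      cases sg
      · simp only [cond_false, Bool.not_eq_true', Bool.and_eq_false_iff, decide_eq_false_iff_not]
          at c5
        simp only [Bool.false_eq_true, if_false]
        tauto
      · simp only [cond_true, Bool.and_eq_true, decide_eq_true_eq] at c5
        simpa using c5

theorem rootFact_sound (st : State) (g i : Nat) (hi : Bool) (x y : Fin 4 → ℝ)
    (hst : st.Holds x y) : (rootFact st g i hi).Holds x y := by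
  obtain ⟨hx, hy, hs, _⟩ := hst
  have hv : ∀ i, vget (x + y) i = vget x i + vget y i := by
    intro i
    rcases i with _ | _ | _ | i <;> simp [vget]
  rcases g with _ | _ | g
  · cases hi
    · simpa [Fact.Holds, rootFact] using (hx _).1
    · simpa [Fact.Holds, rootFact] using (hx _).2
  · cases hi
    · simpa [Fact.Holds, rootFact] using (hy _).1
    · simpa [Fact.Holds, rootFact] using (hy _).2
  · cases hi
    · simpa [Fact.Holds, hv, rootFact] using (hs _).1
    · simpa [Fact.Holds, hv, rootFact] using (hs _).2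

theorem factOf_sound (st : State) (k : Nat) (f : Fact) (x y : Fin 4 → ℝ) (hst : st.Holds x y)
    (h : factOf st k = some f) : f.Holds x y := by
  unfold factOf at h
  cases hk : Nat.ble 24 k
  · rw [hk] at h
    simp only [cond_false, Option.some.injEq] at h
    rw [← h]
    exact rootFact_sound st _ _ _ x y hst
  · rw [hk] at h
    exact hst.2.2.2 f (List.mem_of_getElem? h)

theorem facts_sound (st : State) (x y : Fin 4 → ℝ) (hst : st.Holds x y) :
    ∀ (k m : Nat) (acc : Row) (r : Row × Nat),
    facts st k m acc = some r → 0 ≤ acc.eval x y → 0 ≤ r.1.eval x y := by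
  intro k
  induction k with
  | zero =>
    intro m acc r h hacc
    simp only [facts, Option.some.injEq] at h
    rw [← h]
    exact hacc
  | succ k ih =>
    intro m acc r h hacc
    rw [facts] at h
    split at h
    · simp at h
    · rename_i f hf
      refine ih _ _ _ h ?_
      rw [Row.eval_add]
      exact add_nonneg hacc (f.row_nonneg _ x y (factOf_sound st _ f x y hst hf))

theorem Q_nonneg (v : Fin 4 → ℝ) : 0 ≤ Q v := by
  unfold Q
  rw [Fin.sum_univ_four, Fin.sum_univ_four]
  nlinarith [sq_nonneg (v 0 - v 1), sq_nonneg (v 0 - v 2), sq_nonneg (v 0 - v 3),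
    sq_nonneg (v 1 - v 2), sq_nonneg (v 1 - v 3), sq_nonneg (v 2 - v 3)]

theorem quadRow_nonneg (S0 : Int) (nu q : Nat) (u0 u1 u2 u3 v0 v1 v2 v3 : Int)
    (x y : Fin 4 → ℝ) (hS : SS x y ≤ S0 / 100) :
    0 ≤ (quadRow S0 nu q u0 u1 u2 u3 v0 v1 v2 v3).eval x y := by
  have hn : (0 : ℝ) ≤ nu := Nat.cast_nonneg nu
  have h1 : (quadRow S0 nu q u0 u1 u2 u3 v0 v1 v2 v3).eval x y =
      nu * (q ^ 2 * (S0 - 100 * SS x y) + 100 *
        (Q (fun i => q * x i - ![(u0 : ℝ), u1, u2, u3] i) +
          Q (fun i => q * y i - ![(v0 : ℝ), v1, v2, v3] i) +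
          Q (fun i => q * (x + y) i - (![(u0 : ℝ), u1, u2, u3] i + ![(v0 : ℝ), v1, v2, v3] i)))) := by
    simp only [quadRow, Row.eval, SS, Q, Fin.sum_univ_four, Pi.add_apply, Matrix.cons_val_zero,
      Matrix.cons_val_one, Matrix.cons_val]
    push_cast
    ring
  rw [h1]
  have h2 : (0 : ℝ) ≤ S0 - 100 * SS x y := by linarith
  have h3 := Q_nonneg (fun i => (q : ℝ) * x i - ![(u0 : ℝ), u1, u2, u3] i)
  have h4 := Q_nonneg (fun i => (q : ℝ) * y i - ![(v0 : ℝ), v1, v2, v3] i)
  have h5 := Q_nonneg (fun i => (q : ℝ) * (x + y) i -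
    (![(u0 : ℝ), u1, u2, u3] i + ![(v0 : ℝ), v1, v2, v3] i))
  positivity

theorem Row.not_bad (r : Row) (x y : Fin 4 → ℝ) (h : 0 ≤ r.eval x y) : r.bad = false := by
  by_contra hb
  rw [Bool.not_eq_false] at hb
  simp only [Row.bad, Bool.and_eq_true, decide_eq_true_eq] at hb
  obtain ⟨h0, h1, h2, h3, h4, h5, h6, h7, h8⟩ := hb
  rw [Row.eval, h0, h1, h2, h3, h4, h5, h6, h7] at h
  have : ((r.c : ℤ) : ℝ) < 0 := by exact_mod_cast h8
  push_cast at h
  linarith

theorem leaf_sound (sg : Bool) (S0 : Int) (st : State) (m : Nat) (x y : Fin 4 → ℝ)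
    (hst : st.Holds x y) (hA : Adm sg x y) (hS : SS x y ≤ S0 / 100) :
    leaf sg S0 st m = none := by
  unfold leaf
  have h0 : (0 : ℝ) ≤ (⟨0, 0, 0, 0, 0, 0, 0, 0, 0⟩ : Row).eval x y := by simp [Row.eval]
  split
  · rfl
  · rename_i acc m1 h1
    have h2 := terms_sound sg st x y hst hA _ _ _ _ h1 h0
    split
    · rfl
    · rename_i acc2 m2 h3
      have h4 := facts_sound st x y hst _ _ _ _ h3 h2
      unfold quad
      simp only at h4
      rw [Row.not_bad acc2 x y h4]
      cases Nat.beq (dg m2 0) 0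
      · simp only [cond_false]
        rw [Row.not_bad _ x y]
        · rfl
        · rw [Row.eval_add]
          exact add_nonneg h4 (quadRow_nonneg _ _ _ _ _ _ _ _ _ _ _ x y hS)
      · rfl

theorem tcheck_sound (sg : Bool) (S0 : Int) (x y : Fin 4 → ℝ) (hA : Adm sg x y)
    (hS : SS x y ≤ S0 / 100) : ∀ (fuel : Nat) (st : State) (m : Nat), st.Holds x y →
    tcheck sg S0 fuel st m = none := by
  intro fuel
  induction fuel with
  | zero => intro st m _; rfl
  | succ fuel ih =>
    intro st m hst
    rw [tcheck]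
    simp only
    cases Nat.beq (dg m 0) 0
    · simp only [cond_false]
      obtain ⟨hx, hy, hs, he⟩ := hst
      rcases le_total (((sd m 1 8 : Int) : ℝ) * vget x (dg m 3) + ((sd m 2 8 : Int) : ℝ) *
        vget y (dg m 3)) ((sd m 4 64 : Int) : ℝ) with h | h
      · have hL : State.Holds ⟨st.fx, st.fy, st.fs,
            st.ex ++ [(⟨sd m 1 8, sd m 2 8, dg m 3, sd m 4 64, false⟩ : Fact)]⟩ x y := by
          refine ⟨hx, hy, hs, fun f hf => ?_⟩
          rcases List.mem_append.1 hf with hf | hf
          · exact he f hf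
          · rw [List.mem_singleton.1 hf]
            exact h
        rw [ih _ (Nat.shiftRight m 140) hL]
      · split
        · rfl
        · apply ih
          refine ⟨hx, hy, hs, fun f hf => ?_⟩
          rcases List.mem_append.1 hf with hf | hf
          · exact he f hf
          · rw [List.mem_singleton.1 hf]
            exact h
    · simp only [cond_true]
      exact leaf_sound sg S0 st _ x y hst hA hS

end Pool.Agent.H16.Dav
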