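import Pool.Agent.H16.Dav.Units
import Pool.Agent.H89.CSD.Magnify

/-!
# Isolation of the norm form

MODULE D8.  If translates `y n = diagonal (b n) * g * im (V n)` with `Pos 1` and constant
`|det|` converge to `h`, whose rows are a permutation of the rows of `gK * im U`, then some `y n` is
`diagonal d * h`.

Proof.  Otherwise, for all large `n`, `E n = y n * h⁻¹ - 1` (→ 0) has a nonzero entry off the
diagonal.  (If `1 + E n` is diagonal then `y n = diagonal * h`.)  Pass to the tail and apply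
`Pool.Agent.H89.CSD.magnify` with `c = 1`, the constant sequence `h` and `E n`
(`(1 + E n) * h = y n`; `Pos 1 h` by `Pos.of_tendsto`).  We get `k ≠ l`, `|s| = 1`,
`w = lim diagonal (a n) * h * im (U n)`, `∏ a n = 1`, with `Pos 1 ((1 + single k l s) * w)`.
`P h` takes integer values (`P_gK_int`, permutation of the rows), so by `eventually_P_eq` and
`diag_of_prod_eq` (as in the proof of `hasT_of_intForm`) `w = diagonal d * h * im U'` for some
`U' ∈ GL(4,ℤ)`, `|∏ d| = 1`.  For integer `x` with `(w x) k ≠ 0`: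
`P ((1 + single k l s) * w) x = (∏ i, (w x) i) * (1 + s (w x) l / (w x) k)`
and with `U U' x` the vector of a unit `u` (`exists_unit`, `β = s d_l / d_k`), the first factor is
`±1` and the second is in `(-1, 1)`: contradiction with `Pos 1`.
-/

namespace Pool.Agent.H16.Dav

open Matrix Pool.Agent.H89.CSD Filter Topology

theorem shear_P (w : Matrix (Fin 4) (Fin 4) ℝ) (k l : Fin 4) (s : ℝ) (x : Fin 4 → ℝ)
    (hx : (w *ᵥ x) k ≠ 0) :
    P ((1 + Matrix.single k l s) * w) x = P w x * (1 + s * ((w *ᵥ x) l / (w *ᵥ x) k)) := by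
  have hrow : ∀ i, (((1 + Matrix.single k l s) * w) *ᵥ x) i =
      (w *ᵥ x) i + (if i = k then s * (w *ᵥ x) l else 0) := by
    intro i
    rw [← Matrix.mulVec_mulVec, Matrix.add_mulVec, Matrix.one_mulVec, Pi.add_apply]
    congr 1
    by_cases hik : i = k
    · subst hik
      simp [Matrix.mulVec, dotProduct, Matrix.single_apply]
    · rw [if_neg hik]
      simp only [Matrix.mulVec, dotProduct, Matrix.single_apply]
      refine Finset.sum_eq_zero fun j _ => ?_
      rw [if_neg (fun h => hik h.1.symm), zero_mul]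
  rw [P_eq, P_eq, ← Finset.mul_prod_erase _ _ (Finset.mem_univ k),
    ← Finset.mul_prod_erase _ (fun i => (w *ᵥ x) i) (Finset.mem_univ k), hrow k, if_pos rfl]
  have h1 : ∏ i ∈ Finset.univ.erase k, (((1 + Matrix.single k l s) * w) *ᵥ x) i =
      ∏ i ∈ Finset.univ.erase k, (w *ᵥ x) i := by
    refine Finset.prod_congr rfl fun i hi => ?_
    rw [hrow i, if_neg (Finset.ne_of_mem_erase hi), add_zero]
  rw [h1]
  field_simp

theorem isolate (g h : Matrix (Fin 4) (Fin 4) ℝ) (b : ℕ → Fin 4 → ℝ)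
    (V : ℕ → (Matrix (Fin 4) (Fin 4) ℤ)ˣ) (U : (Matrix (Fin 4) (Fin 4) ℤ)ˣ)
    (π : Equiv.Perm (Fin 4)) (hb : ∀ n i, b n i ≠ 0)
    (hpos : ∀ n, Pos 1 (diagonal (b n) * g * im (V n : Matrix (Fin 4) (Fin 4) ℤ)))
    (hdet : ∀ n, |(diagonal (b n) * g * im (V n : Matrix (Fin 4) (Fin 4) ℤ)).det| = |h.det|)
    (hlim : Tendsto (fun n => diagonal (b n) * g * im (V n : Matrix (Fin 4) (Fin 4) ℤ)) atTop (𝓝 h))
    (hh : ∀ i j, h i j = (gK * im (U : Matrix (Fin 4) (Fin 4) ℤ)) (π i) j) :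
    ∃ (n : ℕ) (d : Fin 4 → ℝ),
      diagonal (b n) * g * im (V n : Matrix (Fin 4) (Fin 4) ℤ) = diagonal d * h := by
  by_contra hcon
  push Not at hcon
  set y : ℕ → Matrix (Fin 4) (Fin 4) ℝ := fun n =>
    diagonal (b n) * g * im (V n : Matrix (Fin 4) (Fin 4) ℤ) with hy
  have hsub : h = (gK * im (U : Matrix (Fin 4) (Fin 4) ℤ)).submatrix π id := by
    ext i j
    rw [hh i j]
    rfl
  have hgK : gK.det ≠ 0 := by
    intro h0
    have := det_gK_sq
    rw [h0] at this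
    norm_num at this
  have hdet0 : h.det ≠ 0 := by
    rw [hsub, Matrix.det_permute, Matrix.det_mul, det_im]
    have h1 : ((U : Matrix (Fin 4) (Fin 4) ℤ).det : ℝ) ≠ 0 := by
      exact_mod_cast det_unit_ne U
    have h2 : (((Equiv.Perm.sign π : ℤˣ) : ℤ) : ℝ) ≠ 0 := by
      exact_mod_cast (Equiv.Perm.sign π).ne_zero
    exact mul_ne_zero h2 (mul_ne_zero hgK h1)
  have hunit : IsUnit h.det := isUnit_iff_ne_zero.2 hdet0
  have hpos_h : Pos 1 h := Pos.of_tendsto hlim hpos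
  -- values of the linear forms of `h`
  have hval : ∀ (z : Fin 4 → ℤ) (i : Fin 4), (h *ᵥ ic z) i =
      (gK *ᵥ ic ((U : Matrix (Fin 4) (Fin 4) ℤ) *ᵥ z)) (π i) := by
    intro z i
    have h1 : (h *ᵥ ic z) i = ((gK * im (U : Matrix (Fin 4) (Fin 4) ℤ)) *ᵥ ic z) (π i) := by
      simp only [Matrix.mulVec, dotProduct]
      exact Finset.sum_congr rfl fun j _ => by rw [hh i j]
    rw [h1, ← Matrix.mulVec_mulVec, im_mulVec]
  have hPval : ∀ z : Fin 4 → ℤ, P h (ic z) = P gK (ic ((U : Matrix (Fin 4) (Fin 4) ℤ) *ᵥ z)) := by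
    intro z
    rw [P_eq, P_eq]
    rw [Finset.prod_congr rfl fun i _ => hval z i]
    exact Equiv.prod_comp π (fun i => (gK *ᵥ ic ((U : Matrix (Fin 4) (Fin 4) ℤ) *ᵥ z)) i)
  -- displacement
  set E : ℕ → Matrix (Fin 4) (Fin 4) ℝ := fun n => y n * h⁻¹ - 1 with hE
  have hEy : ∀ n, (1 + E n) * h = y n := by
    intro n
    simp only [hE]
    rw [add_sub_cancel, Matrix.mul_assoc, Matrix.nonsing_inv_mul _ hunit, Matrix.mul_one]
  have hElim : Tendsto E atTop (𝓝 0) := by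
    have h3 := (hlim.mul (tendsto_const_nhds (x := h⁻¹))).sub
      (tendsto_const_nhds (x := (1 : Matrix (Fin 4) (Fin 4) ℝ)))
    rwa [Matrix.mul_nonsing_inv _ hunit, sub_self] at h3
  have hoff : ∀ n, ∃ i j, i ≠ j ∧ E n i j ≠ 0 := by
    intro n
    by_contra hcon2
    push Not at hcon2
    have hdiag : 1 + E n = diagonal (fun i => 1 + E n i i) := by
      ext i j
      by_cases hij : i = j
      · subst hij
        simp
      · simp [Matrix.one_apply_ne hij, Matrix.diagonal_apply_ne _ hij, hcon2 i j hij]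
    have h1 := hEy n
    rw [hdiag] at h1
    exact hcon n _ h1.symm
  obtain ⟨k, l, s, w, φ, a, W, hkl, hs, hw1, hw2, hw3, hw4, hφ, ha, hprod, hwlim⟩ :=
    magnify one_pos (abs_pos.2 hdet0) (abs_nonneg h.det) (fun _ => h) E (fun _ => le_rfl)
      (fun _ => le_rfl) (fun _ => hpos_h) (fun n => by rw [hEy]; exact hpos n) hElim hoff
  set z : ℕ → Matrix (Fin 4) (Fin 4) ℝ := fun n =>
    diagonal (a n) * h * im (W n : Matrix (Fin 4) (Fin 4) ℤ) with hz
  have hzval : ∀ n (x : Fin 4 → ℤ), ∃ m : ℤ, (1 : ℝ) * P (z n) (ic x) = m := by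
    intro n x
    simp only [hz]
    rw [P_mul_im, P_diag_mul, hprod, one_mul, one_mul, hPval]
    exact P_gK_int _
  have hev := eventually_P_eq one_ne_zero hwlim hzval
  have hzdet : ∀ n, (z n).det ≠ 0 := by
    intro n
    simp only [hz]
    rw [Matrix.det_mul, Matrix.det_mul, Matrix.det_diagonal, hprod, one_mul, det_im]
    exact mul_ne_zero hdet0 (by exact_mod_cast det_unit_ne (W n))
  have hwdet : w.det ≠ 0 := by
    intro h0
    rw [h0, abs_zero] at hw1
    exact hdet0 (abs_eq_zero.1 (le_antisymm hw1 (abs_nonneg _)))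
  -- `w * (z n)⁻¹` is close to `1`
  have hMlim : Tendsto (fun n => w * (z n)⁻¹) atTop (𝓝 1) := by
    have h1 : Tendsto (fun n => (z n)⁻¹) atTop (𝓝 w⁻¹) :=
      (continuousAt_inv hwdet).tendsto.comp hwlim
    have h2 := (tendsto_const_nhds (x := w)).mul h1
    rwa [Matrix.mul_nonsing_inv _ (isUnit_iff_ne_zero.2 hwdet)] at h2
  have hsmall : ∀ᶠ n in atTop, ∀ i : Fin 4, |(w * (z n)⁻¹) i i - 1| ≤ 1 / 4 := by
    rw [eventually_all]
    intro i
    have h1 : Tendsto (fun n => |(w * (z n)⁻¹) i i - 1|) atTop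
        (𝓝 |(1 : Matrix (Fin 4) (Fin 4) ℝ) i i - 1|) :=
      ((((continuous_id.matrix_elem i i).tendsto (1 : Matrix (Fin 4) (Fin 4) ℝ)).comp
        hMlim).sub_const 1).abs
    rw [Matrix.one_apply_eq, sub_self, abs_zero] at h1
    exact h1.eventually (ge_mem_nhds (by norm_num))
  obtain ⟨n, hn1, hn2⟩ := (hsmall.and hev).exists
  set M : Matrix (Fin 4) (Fin 4) ℝ := w * (z n)⁻¹ with hM
  have hMz : M * z n = w := by
    rw [hM, Matrix.mul_assoc, Matrix.nonsing_inv_mul _ (isUnit_iff_ne_zero.2 (hzdet n)),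
      Matrix.mul_one]
  have hMp : ∀ v : Fin 4 → ℝ, ∏ i, (M *ᵥ v) i = ∏ i, v i := by
    intro v
    have h5 : (z n) *ᵥ ((z n)⁻¹ *ᵥ v) = v := by
      rw [Matrix.mulVec_mulVec, Matrix.mul_nonsing_inv _ (isUnit_iff_ne_zero.2 (hzdet n)),
        Matrix.one_mulVec]
    have h6 : P (M * z n) ((z n)⁻¹ *ᵥ v) = P (z n) ((z n)⁻¹ *ᵥ v) := by
      rw [hMz, hn2]
    rw [P_mul, h5, P_eq, P_eq, h5] at h6
    exact h6
  have hMd := diag_of_prod_eq hMp (fun i => by
    have := abs_le.1 (hn1 i)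
    intro h0
    rw [h0] at this
    linarith [this.1])
  have hMdiag : M = diagonal (fun i => M i i) := by
    ext i j
    by_cases hij : i = j
    · subst hij
      simp
    · rw [hMd i j hij, Matrix.diagonal_apply_ne _ hij]
  set e : Fin 4 → ℝ := fun i => M i i * a n i with he
  have hwe : w = diagonal e * h * im (W n : Matrix (Fin 4) (Fin 4) ℤ) := by
    rw [← hMz, hMdiag]
    simp only [hz]
    rw [← Matrix.mul_assoc, ← Matrix.mul_assoc, Matrix.diagonal_mul_diagonal]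
  have he0 : |∏ i, e i| = 1 := by
    have h1 : |w.det| = |h.det| := le_antisymm hw2 hw1
    rw [hwe, Matrix.det_mul, Matrix.det_mul, Matrix.det_diagonal, abs_mul, abs_mul,
      abs_det_im_unit, mul_one] at h1
    have h2 : 0 < |h.det| := abs_pos.2 hdet0
    exact mul_right_cancel₀ h2.ne' (by rw [h1, one_mul])
  have hene : ∀ i, e i ≠ 0 := by
    intro i h0
    have : ∏ i, e i = 0 := Finset.prod_eq_zero (Finset.mem_univ i) h0
    rw [this, abs_zero] at he0
    norm_num at he0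
  have hsne : s ≠ 0 := by
    intro h0
    rw [h0, abs_zero] at hs
    norm_num at hs
  have hβ : s * e l / e k ≠ 0 := div_ne_zero (mul_ne_zero hsne (hene l)) (hene k)
  have hπ : π k ≠ π l := fun h0 => hkl (π.injective h0)
  obtain ⟨x0, hx1, hx2, hx3, hx4⟩ := exists_unit (π k) (π l) hπ _ hβ
  set x : Fin 4 → ℤ := (((W n)⁻¹ : (Matrix (Fin 4) (Fin 4) ℤ)ˣ) : Matrix (Fin 4) (Fin 4) ℤ) *ᵥ
    (((U⁻¹ : (Matrix (Fin 4) (Fin 4) ℤ)ˣ) : Matrix (Fin 4) (Fin 4) ℤ) *ᵥ x0) with hxdef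
  have hUx : (U : Matrix (Fin 4) (Fin 4) ℤ) *ᵥ ((W n : Matrix (Fin 4) (Fin 4) ℤ) *ᵥ x) = x0 := by
    have e1 : ∀ (A : (Matrix (Fin 4) (Fin 4) ℤ)ˣ) (t : Fin 4 → ℤ),
        (A : Matrix (Fin 4) (Fin 4) ℤ) *ᵥ
          (((A⁻¹ : (Matrix (Fin 4) (Fin 4) ℤ)ˣ) : Matrix (Fin 4) (Fin 4) ℤ) *ᵥ t) = t := by
      intro A t
      rw [Matrix.mulVec_mulVec, Units.mul_inv, Matrix.one_mulVec]
    rw [hxdef, e1, e1]
  have hwx : ∀ i, (w *ᵥ ic x) i = e i * (gK *ᵥ ic x0) (π i) := by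
    intro i
    rw [hwe, ← Matrix.mulVec_mulVec, im_mulVec, ← Matrix.mulVec_mulVec, Matrix.mulVec_diagonal,
      hval, hUx]
  have hwk : (w *ᵥ ic x) k ≠ 0 := by
    rw [hwx]
    exact mul_ne_zero (hene k) hx2
  have hx0 : x ≠ 0 := by
    intro h0
    apply hwk
    rw [h0]
    have : ic (0 : Fin 4 → ℤ) = 0 := by
      ext i; simp [ic]
    rw [this, Matrix.mulVec_zero]
    rfl
  have h1 := hw4 x hx0
  rw [shear_P w k l s (ic x) hwk] at h1
  have h2 : |P w (ic x)| = 1 := by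
    have h3 : P w (ic x) = (∏ i, e i) * P gK (ic x0) := by
      rw [P_eq, P_eq, Finset.prod_congr rfl fun i _ => hwx i, Finset.prod_mul_distrib]
      congr 1
      exact Equiv.prod_comp π (fun i => (gK *ᵥ ic x0) i)
    rw [h3, abs_mul, he0, hx1, one_mul]
  rw [abs_mul, h2, one_mul, hwx, hwx] at h1
  have h4 : s * (e l * (gK *ᵥ ic x0) (π l) / (e k * (gK *ᵥ ic x0) (π k))) =
      s * e l / e k * ((gK *ᵥ ic x0) (π l) / (gK *ᵥ ic x0) (π k)) := by
    have := hene k
    field_simp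
  rw [h4] at h1
  set r : ℝ := s * e l / e k * ((gK *ᵥ ic x0) (π l) / (gK *ᵥ ic x0) (π k)) with hr
  have h5 : |1 + r| < 1 := abs_lt.2 ⟨by linarith, by linarith⟩
  linarith

end Pool.Agent.H16.Dav
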