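import Pool.Agent.H16.Dav.Defs
import Pool.Agent.H89.CSD.Return

/-!
# A limit in which the minimum is attained

MODULE D6.  Let `ν > 0` be the infimum of `|P g|` over the nonzero integer vectors.  There are
diagonal matrices `b n` (nonzero entries, `|∏ b n| = 1/ν`) and `V n ∈ GL(4, ℤ)` such that
`diagonal (b n) * g * im (V n)` converges to a matrix `h` with `h k = (1,1,1,1)` for some integer `k`.
Then automatically `|det h| = |det g| / ν` and `Pos 1 h`.

Proof.  Take `v n` with `|P g (ic (v n))| → ν` and `b' n i = 1 / (g (v n)) i`.  The matrices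
`diagonal (b' n) * g` have `Pos (ν / |P g v n|)` and determinant in a compact subset of `(0, ∞)`;
`Pool.Agent.H89.CSD.mahler` (with `Pos.short`) gives `V n` with bounded entries of
`y n = diagonal (b' n) * g * im (V n)`; compactness (`isCompact_KK`) gives a convergent subsequence
(`y n → h`).  `y n` sends the integer vector `k n = (V n)⁻¹ (v n)` to `(1,1,1,1)`; as `y n → h`
invertible, `(y n)⁻¹` is bounded, the `k n` are bounded integer vectors, so constant on a subsequence.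
Finally rescale: `b n = λ n • b' n` with `λ n = (|P g v n| / ν)^(1/4) → 1`, which makes
`|∏ b n| = 1/ν` exactly and does not change the limit.
-/

namespace Pool.Agent.H16.Dav

open Matrix Pool.Agent.H89.CSD Filter Topology

theorem exists_limit (g : Matrix (Fin 4) (Fin 4) ℝ) (hg : g.det ≠ 0) (ν : ℝ) (hν : 0 < ν)
    (hpos : Pos ν g) (hinf : ∀ ε > 0, ∃ x : Fin 4 → ℤ, x ≠ 0 ∧ |P g (ic x)| < ν + ε) :
    ∃ (b : ℕ → Fin 4 → ℝ) (V : ℕ → (Matrix (Fin 4) (Fin 4) ℤ)ˣ) (h : Matrix (Fin 4) (Fin 4) ℝ)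
      (k : Fin 4 → ℤ),
      (∀ n i, b n i ≠ 0) ∧ (∀ n, |∏ i, b n i| = ν⁻¹) ∧
      Tendsto (fun n => diagonal (b n) * g * im (V n : Matrix (Fin 4) (Fin 4) ℤ)) atTop (𝓝 h) ∧
      h *ᵥ ic k = (fun _ => 1) ∧ |h.det| = |g.det| / ν ∧ Pos 1 h := by
  classical
  have hdet : 0 < |g.det| := abs_pos.2 hg
  choose v hv0 hv using fun n : ℕ => hinf (1 / ((n : ℝ) + 1)) (by positivity)
  set p : ℕ → ℝ := fun n => |P g (ic (v n))| with hp
  have hpν : ∀ n, ν ≤ p n := fun n => hpos _ (hv0 n)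
  have hp0 : ∀ n, 0 < p n := fun n => hν.trans_le (hpν n)
  have hplim : Tendsto p atTop (𝓝 ν) := by
    have h1 : Tendsto (fun n : ℕ => ν + 1 / ((n : ℝ) + 1)) atTop (𝓝 (ν + 0)) :=
      tendsto_const_nhds.add tendsto_one_div_add_atTop_nhds_zero_nat
    rw [add_zero] at h1
    exact tendsto_of_tendsto_of_tendsto_of_le_of_le tendsto_const_nhds h1 hpν
      (fun n => (hv n).le)
  set w : ℕ → Fin 4 → ℝ := fun n => g *ᵥ ic (v n) with hw
  have hPw : ∀ n, P g (ic (v n)) = ∏ i, w n i := fun n => P_eq _ _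
  have hw0 : ∀ n i, w n i ≠ 0 := by
    intro n i h
    have h1 : ∏ i, w n i = 0 := Finset.prod_eq_zero (Finset.mem_univ i) h
    have h2 := hp0 n
    simp only [hp] at h2
    rw [hPw, h1, abs_zero] at h2
    exact lt_irrefl _ h2
  set lam : ℕ → ℝ := fun n => (p n / ν) ^ ((1 : ℝ) / 4) with hlam
  have hlam0 : ∀ n, 0 < lam n := fun n => Real.rpow_pos_of_pos (div_pos (hp0 n) hν) _
  have hlam4 : ∀ n, lam n ^ 4 = p n / ν := by
    intro n
    simp only [hlam]
    rw [← Real.rpow_natCast, ← Real.rpow_mul (div_pos (hp0 n) hν).le]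
    norm_num
  have hlamlim : Tendsto lam atTop (𝓝 1) := by
    have h1 : Tendsto (fun n => p n / ν) atTop (𝓝 (ν / ν)) := hplim.div_const ν
    rw [div_self hν.ne'] at h1
    have h2 := h1.rpow_const (p := (1 : ℝ) / 4) (Or.inl one_ne_zero)
    rwa [Real.one_rpow] at h2
  set b : ℕ → Fin 4 → ℝ := fun n i => lam n / w n i with hb
  have hb0 : ∀ n i, b n i ≠ 0 := fun n i => div_ne_zero (hlam0 n).ne' (hw0 n i)
  have hbprod : ∀ n, |∏ i, b n i| = ν⁻¹ := by
    intro n
    have h1 : ∏ i, b n i = lam n ^ 4 / ∏ i, w n i := by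
      simp only [hb]
      rw [Finset.prod_div_distrib, Finset.prod_const, Finset.card_univ, Fintype.card_fin]
    have h2 : |∏ i, w n i| = p n := by
      simp only [hp]
      rw [hPw]
    rw [h1, abs_div, h2, hlam4, abs_of_pos (div_pos (hp0 n) hν), div_div, mul_comm ν,
      ← div_div, div_self (hp0 n).ne', one_div]
  have hzpos : ∀ n, Pos 1 (diagonal (b n) * g) := by
    intro n x hx
    rw [P_diag_mul, abs_mul, hbprod, ← div_eq_inv_mul, le_div_iff₀ hν, one_mul]
    exact hpos x hx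
  have hzdet : ∀ n, |(diagonal (b n) * g).det| = |g.det| / ν := by
    intro n
    rw [Matrix.det_mul, Matrix.det_diagonal, abs_mul, hbprod, ← div_eq_inv_mul]
  obtain ⟨R, hR0, hR⟩ := mahler 4 (min 1 1) (|g.det| / ν) (|g.det| / ν) (by norm_num)
    (div_pos hdet hν) (div_pos hdet hν).le
  choose U hU using fun n => hR (diagonal (b n) * g) (hzdet n).ge (hzdet n).le
    (fun x hx => (hzpos n).short hx)
  set y : ℕ → Matrix (Fin 4) (Fin 4) ℝ := fun n =>
    diagonal (b n) * g * im (U n : Matrix (Fin 4) (Fin 4) ℤ) with hy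
  have hydet : ∀ n, |(y n).det| = |g.det| / ν := by
    intro n
    simp only [hy]
    rw [Matrix.det_mul (diagonal (b n) * g), abs_mul _ (im _).det, abs_det_im_unit, mul_one,
      hzdet]
  have hyK : ∀ n, y n ∈ KK 4 R (|g.det| / ν) (|g.det| / ν) := fun n =>
    ⟨hU n, (hydet n).ge, (hydet n).le⟩
  obtain ⟨h, hhK, φ, hφ, hlim⟩ := (isCompact_KK R (|g.det| / ν) (|g.det| / ν)).tendsto_subseq hyK
  have hhdet : |h.det| = |g.det| / ν := le_antisymm hhK.2.2 hhK.2.1
  have hh0 : h.det ≠ 0 := by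
    intro h0
    rw [h0, abs_zero] at hhdet
    exact absurd hhdet (div_pos hdet hν).ne
  have hy0 : ∀ n, (y n).det ≠ 0 := by
    intro n h0
    have h1 := hydet n
    rw [h0, abs_zero] at h1
    exact absurd h1 (div_pos hdet hν).ne
  -- the integer vectors
  set k : ℕ → Fin 4 → ℤ := fun n =>
    ((U n)⁻¹ : (Matrix (Fin 4) (Fin 4) ℤ)ˣ).val *ᵥ v n with hk
  have hyk : ∀ n, y n *ᵥ ic (k n) = fun _ => lam n := by
    intro n
    have h1 : (U n : Matrix (Fin 4) (Fin 4) ℤ) *ᵥ k n = v n := by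
      simp only [hk]
      rw [Matrix.mulVec_mulVec, Units.mul_inv, Matrix.one_mulVec]
    simp only [hy]
    rw [← Matrix.mulVec_mulVec, im_mulVec, h1, ← Matrix.mulVec_mulVec]
    ext i
    rw [Matrix.mulVec_diagonal]
    simp only [hb]
    exact div_mul_cancel₀ _ (hw0 n i)
  have hinv : Tendsto (fun n => (y (φ n))⁻¹) atTop (𝓝 h⁻¹) :=
    (continuousAt_inv hh0).tendsto.comp hlim
  have hkinv : ∀ n, ic (k n) = (y n)⁻¹ *ᵥ (fun _ => lam n) := by
    intro n
    rw [← hyk n, Matrix.mulVec_mulVec, Matrix.nonsing_inv_mul _ (isUnit_iff_ne_zero.2 (hy0 n)),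
      Matrix.one_mulVec]
  have hklim : ∀ i, Tendsto (fun n => ic (k (φ n)) i) atTop (𝓝 ((h⁻¹ *ᵥ fun _ => (1 : ℝ)) i)) := by
    intro i
    have h1 : (fun n => ic (k (φ n)) i) = fun n => ∑ j, (y (φ n))⁻¹ i j * lam (φ n) := by
      ext n
      rw [hkinv]
      rfl
    rw [h1]
    have h2 : (h⁻¹ *ᵥ fun _ => (1 : ℝ)) i = ∑ j, h⁻¹ i j * 1 := rfl
    rw [h2]
    refine tendsto_finsetSum _ fun j _ => ?_
    exact ((((continuous_id.matrix_elem i j).tendsto h⁻¹).comp hinv)).mul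
      (hlamlim.comp hφ.tendsto_atTop)
  have hev : ∀ᶠ n in atTop, ∀ i, ic (k (φ n)) i = (h⁻¹ *ᵥ fun _ => (1 : ℝ)) i := by
    rw [eventually_all]
    intro i
    exact eventually_eq_of_int (hklim i) (fun n => ⟨k (φ n) i, rfl⟩)
  obtain ⟨n0, hn0⟩ := hev.exists
  refine ⟨fun n => b (φ n), fun n => U (φ n), h, k (φ n0), fun n i => hb0 _ i,
    fun n => hbprod _, hlim, ?_, hhdet, ?_⟩
  · have h1 : ic (k (φ n0)) = h⁻¹ *ᵥ fun _ => (1 : ℝ) := funext hn0
    rw [h1, Matrix.mulVec_mulVec, Matrix.mul_nonsing_inv _ (isUnit_iff_ne_zero.2 hh0),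
      Matrix.one_mulVec]
  · exact Pos.of_tendsto hlim fun n => (hzpos _).mul_im (det_unit_ne _)

end Pool.Agent.H16.Dav
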