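import Pool.Agent.H16.Dav.Classify
import Pool.Agent.H16.Dav.Isolate
import Pool.Agent.H16.Dav.Limit

/-!
# Products of four linear forms with normalised minimum above `1/27`

MODULE D12.

Proof.  `ν` = infimum of `|P g|` over the nonzero integer vectors, `ν ≥ c |det g| > |det g| / 27`.
`exists_limit` gives `b, V, h, k`; `|det h| = |det g| / ν < 27`; `classify` gives `U, π`; the
matrices `y n` satisfy `Pos 1` (`Pos.diag_mul`, `Pos.mul_im` as in `H89.CSD`, `|∏ b n| ν = 1`) and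
`|det y n| = |det g| / ν = |det h|`; `isolate` gives `n`, `d` with `diagonal (b n) * g * im (V n) = diagonal d * h`.
So `P g x = κ P gK (W x)` with `κ = ∏ d / ∏ b n`, `W = U (V n)⁻¹`.  Determinants:
`|det g| = |κ| √725` (`det_gK_sq`).  `P gK` is integer valued and nonzero at nonzero integer points
(`Pos`), and is `1` at `e_0`, so the minimum of `|P g|` is `|κ|`.
-/

namespace Pool.Agent.H16.Dav

open Matrix Pool.Agent.H89.CSD

theorem main_thm (g : Matrix (Fin 4) (Fin 4) ℝ) (hg : g.det ≠ 0) (c : ℝ) (hc : 1 / 27 < c)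
    (hpos : ∀ x : Fin 4 → ℤ, x ≠ 0 → c * |g.det| ≤ |∏ i, ∑ j, g i j * (x j : ℝ)|) :
    ∃ (κ : ℝ) (W : Matrix (Fin 4) (Fin 4) ℤ), |κ| = |g.det| / √725 ∧ (W.det = 1 ∨ W.det = -1) ∧
      (∀ x : Fin 4 → ℤ, ∏ i, ∑ j, g i j * (x j : ℝ) =
        κ * ((∑ j : Fin 4, (W *ᵥ x) j • comp4 ^ (j : ℕ)).det : ℤ)) ∧
      (∀ x : Fin 4 → ℤ, x ≠ 0 → |g.det| / √725 ≤ |∏ i, ∑ j, g i j * (x j : ℝ)|) ∧
      (∃ x : Fin 4 → ℤ, x ≠ 0 ∧ |∏ i, ∑ j, g i j * (x j : ℝ)| = |g.det| / √725) := by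
  have hPg : ∀ x : Fin 4 → ℤ, ∏ i, ∑ j, g i j * (x j : ℝ) = P g (ic x) := fun x => rfl
  simp only [hPg] at hpos ⊢
  have hc0 : 0 < c := lt_trans (by norm_num) hc
  have hg0 : 0 < |g.det| := abs_pos.2 hg
  -- the infimum
  set S : Set ℝ := {r | ∃ x : Fin 4 → ℤ, x ≠ 0 ∧ r = |P g (ic x)|} with hS
  have e0 : (Pi.single 0 1 : Fin 4 → ℤ) ≠ 0 := by
    intro h
    have := congrFun h 0
    simp at this
  have hSne : S.Nonempty := ⟨_, Pi.single 0 1, e0, rfl⟩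
  have hSbdd : BddBelow S := ⟨c * |g.det|, by
    rintro r ⟨x, hx, rfl⟩
    exact hpos x hx⟩
  set ν := sInf S with hν
  have hνc : c * |g.det| ≤ ν := le_csInf hSne (by
    rintro r ⟨x, hx, rfl⟩
    exact hpos x hx)
  have hν0 : 0 < ν := lt_of_lt_of_le (mul_pos hc0 hg0) hνc
  have hposν : Pos ν g := fun x hx => csInf_le hSbdd ⟨x, hx, rfl⟩
  have hinf : ∀ ε > 0, ∃ x : Fin 4 → ℤ, x ≠ 0 ∧ |P g (ic x)| < ν + ε := by
    intro ε hε
    obtain ⟨r, ⟨x, hx, rfl⟩, hr⟩ := exists_lt_of_csInf_lt hSne (lt_add_of_pos_right ν hε)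
    exact ⟨x, hx, hr⟩
  obtain ⟨b, V, h, k, hb0, hbprod, hlim, hk, hdet, hpos1⟩ := exists_limit g hg ν hν0 hposν hinf
  have hhdet : |h.det| < 27 := by
    rw [hdet, div_lt_iff₀ hν0]
    have h1 : |g.det| < 27 * (c * |g.det|) := by
      have : 1 < 27 * c := by linarith
      nlinarith
    nlinarith
  have hdet0 : h.det ≠ 0 := by
    have h1 : 0 < |h.det| := by
      rw [hdet]
      exact div_pos hg0 hν0
    exact abs_pos.1 h1
  obtain ⟨U, π, hU⟩ := classify h hdet0 hhdet hpos1 k hk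
  have hPn : ∀ n (x : Fin 4 → ℤ), P (diagonal (b n) * g * im (V n : Matrix (Fin 4) (Fin 4) ℤ)) (ic x) =
      (∏ i, b n i) * P g (ic ((V n : Matrix (Fin 4) (Fin 4) ℤ) *ᵥ x)) := by
    intro n x
    rw [P_mul_im, P_diag_mul]
  have hposn : ∀ n, Pos 1 (diagonal (b n) * g * im (V n : Matrix (Fin 4) (Fin 4) ℤ)) := by
    intro n x hx
    rw [hPn, abs_mul, hbprod]
    have h1 := hposν _ (mulVec_ne (det_unit_ne (V n)) hx)
    rw [inv_mul_eq_div, le_div_iff₀ hν0, one_mul]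
    exact h1
  have hdetn : ∀ n, |(diagonal (b n) * g * im (V n : Matrix (Fin 4) (Fin 4) ℤ)).det| = |h.det| := by
    intro n
    rw [Matrix.det_mul, Matrix.det_mul, Matrix.det_diagonal, abs_mul, abs_mul, abs_det_im_unit,
      hbprod, hdet, mul_one, inv_mul_eq_div]
  obtain ⟨n, d, hnd⟩ := isolate g h b V U π hb0 hposn hdetn hlim hU
  -- values of `P h`
  have hPh : ∀ x : Fin 4 → ℤ, P h (ic x) = P gK (ic ((U : Matrix (Fin 4) (Fin 4) ℤ) *ᵥ x)) := by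
    intro x
    have h1 : ∀ i, (h *ᵥ ic x) i = (gK *ᵥ ic ((U : Matrix (Fin 4) (Fin 4) ℤ) *ᵥ x)) (π i) := by
      intro i
      have h2 : (h *ᵥ ic x) i = ((gK * im (U : Matrix (Fin 4) (Fin 4) ℤ)) *ᵥ ic x) (π i) := by
        simp only [Matrix.mulVec, dotProduct]
        exact Finset.sum_congr rfl fun j _ => by rw [hU i j]
      rw [h2, ← Matrix.mulVec_mulVec, im_mulVec]
    rw [P_eq, P_eq, Finset.prod_congr rfl fun i _ => h1 i]
    exact Equiv.prod_comp π (fun i => (gK *ᵥ ic ((U : Matrix (Fin 4) (Fin 4) ℤ) *ᵥ x)) i)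
  have hbn0 : (∏ i, b n i) ≠ 0 := Finset.prod_ne_zero_iff.2 fun i _ => hb0 n i
  set κ : ℝ := (∏ i, d i) / ∏ i, b n i with hκ
  set Wu : (Matrix (Fin 4) (Fin 4) ℤ)ˣ := U * (V n)⁻¹ with hWu
  have hVV : ∀ x : Fin 4 → ℤ, (V n : Matrix (Fin 4) (Fin 4) ℤ) *ᵥ
      (((V n)⁻¹ : (Matrix (Fin 4) (Fin 4) ℤ)ˣ) : Matrix (Fin 4) (Fin 4) ℤ) *ᵥ x = x := by
    intro x
    rw [Matrix.mulVec_mulVec, ← Units.val_mul, mul_inv_cancel, Units.val_one, Matrix.one_mulVec]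
  have hmain : ∀ x : Fin 4 → ℤ, P g (ic x) = κ * P gK (ic ((Wu : Matrix (Fin 4) (Fin 4) ℤ) *ᵥ x)) := by
    intro x
    have h1 := hPn n ((((V n)⁻¹ : (Matrix (Fin 4) (Fin 4) ℤ)ˣ) : Matrix (Fin 4) (Fin 4) ℤ) *ᵥ x)
    rw [hVV, hnd, P_diag_mul, hPh, Matrix.mulVec_mulVec, ← Units.val_mul, ← hWu] at h1
    rw [hκ, div_mul_eq_mul_div, h1]
    field_simp
  have hgKdet : |gK.det| = √725 := by
    rw [← det_gK_sq, Real.sqrt_sq_eq_abs]
  have hhK : |h.det| = √725 := by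
    have hsub : h = (gK * im (U : Matrix (Fin 4) (Fin 4) ℤ)).submatrix π id := by
      ext i j
      rw [hU i j]
      rfl
    rw [hsub, Matrix.det_permute, Matrix.det_mul, abs_mul, abs_mul, abs_det_im_unit, hgKdet, mul_one]
    have h2 : |(((Equiv.Perm.sign π : ℤˣ) : ℤ) : ℝ)| = 1 := by
      rcases Int.units_eq_one_or (Equiv.Perm.sign π) with h | h <;> simp [h]
    rw [h2, one_mul]
  have h725 : 0 < √725 := Real.sqrt_pos.2 (by norm_num)
  have hκabs : |κ| = |g.det| / √725 := by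
    have h1 := congrArg (fun M : Matrix (Fin 4) (Fin 4) ℝ => |M.det|) hnd
    simp only [Matrix.det_mul, Matrix.det_diagonal, abs_mul, abs_det_im_unit, mul_one] at h1
    rw [hhK] at h1
    rw [hκ, abs_div, div_eq_div_iff (abs_pos.2 hbn0).ne' h725.ne', ← h1]
    ring
  have hκ0 : 0 < |κ| := by
    rw [hκabs]
    exact div_pos hg0 h725
  refine ⟨κ, (Wu : Matrix (Fin 4) (Fin 4) ℤ), hκabs, ?_, ?_, ?_, ?_⟩
  · have := abs_det_unit Wu
    rcases abs_eq (zero_le_one' ℤ) |>.1 this with h | h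
    · exact Or.inl h
    · exact Or.inr h
  · intro x
    rw [hmain x, P_gK_eq_det]
  · intro x hx
    rw [← hκabs, hmain x, abs_mul]
    have h1 : P gK (ic ((Wu : Matrix (Fin 4) (Fin 4) ℤ) *ᵥ x)) ≠ 0 := by
      intro h0
      have h2 := hposν x hx
      rw [hmain x, h0, mul_zero, abs_zero] at h2
      linarith
    obtain ⟨m, hm⟩ := P_gK_int ((Wu : Matrix (Fin 4) (Fin 4) ℤ) *ᵥ x)
    rw [hm] at h1 ⊢
    have hm0 : m ≠ 0 := by
      intro h
      apply h1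
      rw [h, Int.cast_zero]
    have h3 : (1 : ℝ) ≤ |(m : ℝ)| := by
      rw [← Int.cast_abs]
      exact_mod_cast Int.one_le_abs hm0
    nlinarith
  · refine ⟨(((Wu)⁻¹ : (Matrix (Fin 4) (Fin 4) ℤ)ˣ) : Matrix (Fin 4) (Fin 4) ℤ) *ᵥ Pi.single 0 1,
      mulVec_ne (det_unit_ne _) e0, ?_⟩
    rw [hmain, Matrix.mulVec_mulVec, ← Units.val_mul, mul_inv_cancel, Units.val_one,
      Matrix.one_mulVec, abs_mul, hκabs]
    have h1 : P gK (ic (Pi.single 0 1 : Fin 4 → ℤ)) = 1 := by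
      simp [P, ic, gK, Pi.single_apply]
    rw [h1, abs_one, mul_one]

end Pool.Agent.H16.Dav
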