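import Pool.Agent.H16.Dav.GRed
import Pool.Agent.H16.Dav.Engine

/-!
# The certificate checker for the golden case

Variables `v 0, ..., v 3` and the number `φ`; the norms of `v + p + q γ` are used, where
`γ = (φ, φ, ψ, ψ)`.  As in `Engine`, a certificate is a tree of case distinctions
`v i + p + q γ i ≥ 0` or `≤ 0`.  The leaves are either infeasible, or they lie in one of the boxes
of `GLoc`.
-/

namespace Pool.Agent.H16.Dav

open Real

/-- Linear form in `v` and `φ`. -/
structure GRow where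
  a0 : Int
  a1 : Int
  a2 : Int
  a3 : Int
  f : Int
  c : Int

/-- Value. -/
noncomputable def GRow.eval (r : GRow) (v : Fin 4 → ℝ) : ℝ :=
  r.a0 * v 0 + r.a1 * v 1 + r.a2 * v 2 + r.a3 * v 3 + r.f * goldenRatio + r.c

/-- Sum. -/
def GRow.add (r t : GRow) : GRow :=
  ⟨r.a0 + t.a0, r.a1 + t.a1, r.a2 + t.a2, r.a3 + t.a3, r.f + t.f, r.c + t.c⟩

theorem GRow.eval_add (r t : GRow) (v : Fin 4 → ℝ) :
    (r.add t).eval v = r.eval v + t.eval v := by
  simp only [GRow.eval, GRow.add]
  push_cast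
  ring

/-- Multiple. -/
def GRow.smul (e : Int) (r : GRow) : GRow :=
  ⟨e * r.a0, e * r.a1, e * r.a2, e * r.a3, e * r.f, e * r.c⟩

theorem GRow.eval_smul (e : Int) (r : GRow) (v : Fin 4 → ℝ) :
    (GRow.smul e r).eval v = e * r.eval v := by
  simp only [GRow.eval, GRow.smul]
  push_cast
  ring

/-- `γ i` -/
noncomputable def gm (i : Nat) : ℝ :=
  match i with
  | 0 => goldenRatio
  | 1 => goldenRatio
  | _ => goldenConj

/-- The fact `v i + p + q γ i ≥ 0` (`s = true`) or `≤ 0`. -/
structure GFact where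
  i : Nat
  p : Int
  q : Int
  s : Bool

/-- The fact holds. -/
def GFact.Holds (f : GFact) (v : Fin 4 → ℝ) : Prop :=
  match f.s with
  | true => 0 ≤ vget v f.i + (f.p + f.q * gm f.i)
  | false => vget v f.i + (f.p + f.q * gm f.i) ≤ 0

/-- `e (v i + p + q γ i)` as a row. -/
def lamRow (i : Nat) (e p q : Int) : GRow :=
  match i with
  | 0 => ⟨e, 0, 0, 0, e * q, e * p⟩
  | 1 => ⟨0, e, 0, 0, e * q, e * p⟩
  | 2 => ⟨0, 0, e, 0, -(e * q), e * (p + q)⟩
  | _ => ⟨0, 0, 0, e, -(e * q), e * (p + q)⟩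

theorem conj_eq : goldenConj = 1 - goldenRatio := by
  have := goldenRatio_add_goldenConj
  linarith

theorem lamRow_eval (i : Nat) (e p q : Int) (v : Fin 4 → ℝ) :
    (lamRow i e p q).eval v = e * (vget v i + (p + q * gm i)) := by
  rcases i with _ | _ | _ | i
  · simp only [lamRow, GRow.eval, vget, gm]
    push_cast
    ring
  · simp only [lamRow, GRow.eval, vget, gm]
    push_cast
    ring
  · simp only [lamRow, GRow.eval, vget, gm, conj_eq]
    push_cast
    ring
  · simp only [lamRow, GRow.eval, vget, gm, conj_eq]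
    push_cast
    ring

/-- The row of a fact. -/
def GFact.row (f : GFact) (e : Int) : GRow :=
  match f.s with
  | true => lamRow f.i e f.p f.q
  | false => lamRow f.i (-e) f.p f.q

theorem GFact.row_nonneg (f : GFact) (e : Nat) (v : Fin 4 → ℝ) (h : f.Holds v) :
    0 ≤ (f.row (e : Int)).eval v := by
  have he : (0 : ℝ) ≤ e := Nat.cast_nonneg e
  unfold GFact.Holds at h
  unfold GFact.row
  cases hs : f.s
  · rw [hs] at h
    simp only at h
    simp only [lamRow_eval]
    push_cast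
    nlinarith [mul_nonneg he (sub_nonneg.2 h)]
  · rw [hs] at h
    simp only at h
    simp only [lamRow_eval]
    push_cast
    exact mul_nonneg he h

theorem phi_lo : (1.618033988 : ℝ) < goldenRatio := by
  have h1 : goldenRatio ^ 2 = goldenRatio + 1 := goldenRatio_sq
  have h2 : 1 < goldenRatio := one_lt_goldenRatio
  nlinarith

theorem phi_hi : goldenRatio < (1.618033989 : ℝ) := by
  have h1 : goldenRatio ^ 2 = goldenRatio + 1 := goldenRatio_sq
  have h2 : 1 < goldenRatio := one_lt_goldenRatio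
  nlinarith

/-- Test for `0 ≤ A + B φ`. -/
def geoP (A B : Int) : Bool :=
  bif decide (0 ≤ B) then decide (0 ≤ 1000000000 * A + 1618033988 * B)
  else decide (0 ≤ 1000000000 * A + 1618033989 * B)

/-- Test for `0 ≤ A + B γ i`. -/
def geo (i : Nat) (A B : Int) : Bool :=
  match i with
  | 0 => geoP A B
  | 1 => geoP A B
  | _ => geoP (A + B) (-B)

theorem geoP_sound (A B : Int) (h : geoP A B = true) : (0 : ℝ) ≤ A + B * goldenRatio := by
  unfold geoP at h
  by_cases hB : 0 ≤ B
  · simp only [hB, decide_true, cond_true, decide_eq_true_eq] at h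
    have h1 : (0 : ℝ) ≤ ((1000000000 * A + 1618033988 * B : ℤ) : ℝ) := by exact_mod_cast h
    have h2 : (0 : ℝ) ≤ B := by exact_mod_cast hB
    push_cast at h1
    nlinarith [mul_nonneg h2 (sub_nonneg.2 phi_lo.le)]
  · simp only [hB, decide_false, cond_false, decide_eq_true_eq] at h
    have h1 : (0 : ℝ) ≤ ((1000000000 * A + 1618033989 * B : ℤ) : ℝ) := by exact_mod_cast h
    have h2 : (0 : ℝ) ≤ -B := by
      rw [not_le] at hB
      have : (B : ℝ) < 0 := by exact_mod_cast hB
      linarith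
    push_cast at h1
    nlinarith [mul_nonneg h2 (sub_nonneg.2 phi_hi.le)]

theorem geo_sound (i : Nat) (A B : Int) (h : geo i A B = true) : (0 : ℝ) ≤ A + B * gm i := by
  rcases i with _ | _ | i
  · exact geoP_sound A B h
  · exact geoP_sound A B h
  · have := geoP_sound (A + B) (-B) h
    simp only [gm, conj_eq]
    push_cast at this
    linarith

/-- Sign of `v i + p + q γ i`: `1` for `≥ 0`, `2` for `≤ 0`, `0` unknown. -/
def gsign (i : Nat) (p q : Int) : List GFact → Nat
  | [] => 0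
  | f :: l =>
    bif Nat.beq f.i i then
      (match f.s with
      | true => bif geo i (p - f.p) (q - f.q) then 1 else gsign i p q l
      | false => bif geo i (f.p - p) (f.q - q) then 2 else gsign i p q l)
    else gsign i p q l

theorem gsign_sound (i : Nat) (p q : Int) (l : List GFact) (v : Fin 4 → ℝ)
    (h : ∀ f ∈ l, f.Holds v) :
    (gsign i p q l = 1 → 0 ≤ vget v i + (p + q * gm i)) ∧
    (gsign i p q l = 2 → vget v i + (p + q * gm i) ≤ 0) := by
  induction l with
  | nil => simp [gsign]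
  | cons f l ih =>
    have ih' := ih fun g hg => h g (List.mem_cons_of_mem _ hg)
    have hf := h f List.mem_cons_self
    unfold gsign
    cases hc : Nat.beq f.i i
    · simpa using ih'
    · have h3 := Nat.eq_of_beq_eq_true hc
      unfold GFact.Holds at hf
      simp only [cond_true]
      cases hs : f.s
      · rw [hs] at hf
        simp only at hf ⊢
        cases hg : geo i (f.p - p) (f.q - q)
        · simp only [cond_false]
          exact ih'
        · simp only [cond_true]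
          refine ⟨fun h => by simp at h, fun _ => ?_⟩
          have := geo_sound _ _ _ hg
          rw [h3] at hf
          push_cast at this
          linarith
      · rw [hs] at hf
        simp only at hf ⊢
        cases hg : geo i (p - f.p) (q - f.q)
        · simp only [cond_false]
          exact ih'
        · simp only [cond_true]
          refine ⟨fun _ => ?_, fun h => by simp at h⟩
          have := geo_sound _ _ _ hg
          rw [h3] at hf
          push_cast at this
          linarith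

/-- Lower bound test: `v i + p + q γ i ≥ -L / 100`. -/
def lob (i : Nat) (p q L : Int) : List GFact → Bool
  | [] => false
  | f :: l =>
    (Nat.beq f.i i && (f.s && geo i (100 * (p - f.p) + L) (100 * (q - f.q)))) || lob i p q L l

/-- Upper bound test: `v i + p + q γ i ≤ U / 100`. -/
def upb (i : Nat) (p q U : Int) : List GFact → Bool
  | [] => false
  | f :: l =>
    (Nat.beq f.i i && (!f.s && geo i (100 * (f.p - p) + U) (100 * (f.q - q)))) || upb i p q U l

theorem lob_sound (i : Nat) (p q L : Int) (l : List GFact) (v : Fin 4 → ℝ)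
    (h : ∀ f ∈ l, f.Holds v) (hl : lob i p q L l = true) :
    -(L : ℝ) / 100 ≤ vget v i + (p + q * gm i) := by
  induction l with
  | nil => simp [lob] at hl
  | cons f l ih =>
    rw [lob, Bool.or_eq_true] at hl
    rcases hl with hl | hl
    · rw [Bool.and_eq_true, Bool.and_eq_true] at hl
      obtain ⟨h1, h2, h3⟩ := hl
      have h4 := Nat.eq_of_beq_eq_true h1
      have hf := h f List.mem_cons_self
      unfold GFact.Holds at hf
      rw [h2, h4] at hf
      simp only at hf
      have := geo_sound _ _ _ h3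
      push_cast at this
      linarith
    · exact ih (fun g hg => h g (List.mem_cons_of_mem _ hg)) hl

theorem upb_sound (i : Nat) (p q U : Int) (l : List GFact) (v : Fin 4 → ℝ)
    (h : ∀ f ∈ l, f.Holds v) (hl : upb i p q U l = true) :
    vget v i + (p + q * gm i) ≤ (U : ℝ) / 100 := by
  induction l with
  | nil => simp [upb] at hl
  | cons f l ih =>
    rw [upb, Bool.or_eq_true] at hl
    rcases hl with hl | hl
    · rw [Bool.and_eq_true, Bool.and_eq_true, Bool.not_eq_true'] at hl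
      obtain ⟨h1, h2, h3⟩ := hl
      have h4 := Nat.eq_of_beq_eq_true h1
      have hf := h f List.mem_cons_self
      unfold GFact.Holds at hf
      rw [h2, h4] at hf
      simp only at hf
      have := geo_sound _ _ _ h3
      push_cast at this
      linarith
    · exact ih (fun g hg => h g (List.mem_cons_of_mem _ hg)) hl

/-- The terms of a leaf. -/
def gterms (l : List GFact) : Nat → Nat → GRow → Option (GRow × Nat)
  | 0, m, acc => some (acc, m)
  | k + 1, m, acc =>
    let p := sd m 0 64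
    let q := sd m 1 64
    let s0 := gsign 0 p q l
    let s1 := gsign 1 p q l
    let s2 := gsign 2 p q l
    let s3 := gsign 3 p q l
    bif okSign s0 && (okSign s1 && (okSign s2 && (okSign s3 &&
        Nat.ble (Nat.pow (dg m 6) 4) (256 * (dg m 2 * dg m 3 * (dg m 4 * dg m 5)))))) then
      gterms l k (Nat.shiftRight m 196)
        (((((acc.add (lamRow 0 (swt s0 (dg m 2)) p q)).add (lamRow 1 (swt s1 (dg m 3)) p q)).add
          (lamRow 2 (swt s2 (dg m 4)) p q)).add (lamRow 3 (swt s3 (dg m 5)) p q)).add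
          ⟨0, 0, 0, 0, 0, -(dg m 6 : Int)⟩)
    else none

/-- The rows of the domain. -/
def domRow : Nat → GRow
  | 0 => ⟨1, -1, 0, 0, 0, 0⟩
  | 1 => ⟨0, 0, 1, -1, 0, 0⟩
  | 2 => ⟨-100, 100, 162, -162, 0, 1⟩
  | 3 => ⟨162, -162, -100, 100, 0, 1⟩
  | 4 => ⟨-100, 100, -100, 100, 0, 479⟩
  | 5 => ⟨-1, -1, 1, 1, 2, -1⟩
  | 6 => ⟨1, 1, -1, -1, 2, -1⟩
  | 7 => ⟨-62, -62, -162, -162, 0, 225⟩
  | _ => ⟨62, 62, 162, 162, 0, 225⟩

/-- The facts of a leaf. -/
def gfacts (l : List GFact) : Nat → Nat → GRow → Option (GRow × Nat)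
  | 0, m, acc => some (acc, m)
  | k + 1, m, acc =>
    bif Nat.ble 16 (dg m 0) then
      (match l[dg m 0 - 16]? with
      | none => none
      | some f => gfacts l k (Nat.shiftRight m 56) (acc.add (f.row (dg m 1 : Int))))
    else gfacts l k (Nat.shiftRight m 56) (acc.add (GRow.smul (dg m 1 : Int) (domRow (dg m 0))))

/-- The final test. -/
def GRow.bad (r : GRow) : Bool :=
  decide (r.a0 = 0) && (decide (r.a1 = 0) && (decide (r.a2 = 0) && (decide (r.a3 = 0) &&
    (bif decide (0 ≤ r.f) then decide (1000000000 * r.c + 1618033989 * r.f < 0)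
      else decide (1000000000 * r.c + 1618033988 * r.f < 0)))))

/-- An infeasible leaf. -/
def gleaf (l : List GFact) (m : Nat) : Option Nat :=
  match gterms l (dg m 0) (Nat.shiftRight m 28) ⟨0, 0, 0, 0, 0, 0⟩ with
  | none => none
  | some (acc, m1) =>
    match gfacts l (dg m1 0) (Nat.shiftRight m1 28) acc with
    | none => none
    | some (acc2, m2) => bif acc2.bad then some m2 else none

/-- The box `A`. -/
def boxA (p q : Int) (l : List GFact) : Bool :=
  lob 0 p q 40 l && (upb 0 p q 109 l && (lob 1 p q 171 l && (upb 1 p q (-50) l &&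
    (lob 2 p q (-120) l && (upb 2 p q 227 l && (lob 3 p q 66 l && upb 3 p q 110 l))))))

/-- The box `B`. -/
def boxB (p q : Int) (l : List GFact) : Bool :=
  lob 0 p q (-120) l && (upb 0 p q 227 l && (lob 1 p q 66 l && (upb 1 p q 110 l &&
    (lob 2 p q 40 l && (upb 2 p q 109 l && (lob 3 p q 171 l && upb 3 p q (-50) l))))))

/-- The tree. -/
def gcheck : Nat → List GFact → Nat → Option Nat
  | 0, _, _ => none
  | fuel + 1, l, m =>
    match dg m 0 with
    | 0 => gleaf l (Nat.shiftRight m 28)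
    | 1 =>
      (match gcheck fuel (l ++ [⟨dg m 3, sd m 1 64, sd m 2 64, false⟩]) (Nat.shiftRight m 112) with
      | none => none
      | some m1 => gcheck fuel (l ++ [⟨dg m 3, sd m 1 64, sd m 2 64, true⟩]) m1)
    | 2 => bif boxA (sd m 1 64) (sd m 2 64) l then some (Nat.shiftRight m 84) else none
    | _ => bif boxB (sd m 1 64) (sd m 2 64) l then some (Nat.shiftRight m 84) else none

theorem gam_gm (i : Fin 4) : gam i = gm i.val := by
  fin_cases i <;> rfl

theorem gterm_nonneg (v : Fin 4 → ℝ) (p q : Int) (s0 s1 s2 s3 W0 W1 W2 W3 c : Nat)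
    (hN : 1 ≤ |∏ i, (v i + (p + q * gam i))|)
    (hs0 : okSign s0 = true) (hs1 : okSign s1 = true) (hs2 : okSign s2 = true)
    (hs3 : okSign s3 = true)
    (h0 : (s0 = 1 → 0 ≤ v 0 + (p + q * gm 0)) ∧ (s0 = 2 → v 0 + (p + q * gm 0) ≤ 0))
    (h1 : (s1 = 1 → 0 ≤ v 1 + (p + q * gm 1)) ∧ (s1 = 2 → v 1 + (p + q * gm 1) ≤ 0))
    (h2 : (s2 = 1 → 0 ≤ v 2 + (p + q * gm 2)) ∧ (s2 = 2 → v 2 + (p + q * gm 2) ≤ 0))
    (h3 : (s3 = 1 → 0 ≤ v 3 + (p + q * gm 3)) ∧ (s3 = 2 → v 3 + (p + q * gm 3) ≤ 0))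
    (hc : c ^ 4 ≤ 256 * (W0 * W1 * (W2 * W3))) :
    0 ≤ (lamRow 0 (swt s0 W0) p q).eval v + (lamRow 1 (swt s1 W1) p q).eval v +
      (lamRow 2 (swt s2 W2) p q).eval v + (lamRow 3 (swt s3 W3) p q).eval v +
      (⟨0, 0, 0, 0, 0, -(c : Int)⟩ : GRow).eval v := by
  have e0 := swt_sound s0 W0 _ hs0 h0.1 h0.2
  have e1 := swt_sound s1 W1 _ hs1 h1.1 h1.2
  have e2 := swt_sound s2 W2 _ hs2 h2.1 h2.2
  have e3 := swt_sound s3 W3 _ hs3 h3.1 h3.2
  have hN1 : 1 ≤ |(v 0 + (p + q * gm 0)) * (v 1 + (p + q * gm 1)) * (v 2 + (p + q * gm 2)) *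
      (v 3 + (p + q * gm 3))| := by
    rw [Fin.prod_univ_four, gam_gm, gam_gm, gam_gm, gam_gm] at hN
    exact hN
  rw [lamRow_eval, lamRow_eval, lamRow_eval, lamRow_eval]
  simp only [vget]
  set l0 : ℝ := v 0 + (p + q * gm 0)
  set l1 : ℝ := v 1 + (p + q * gm 1)
  set l2 : ℝ := v 2 + (p + q * gm 2)
  set l3 : ℝ := v 3 + (p + q * gm 3)
  have hN' : 1 ≤ |l0| * |l1| * (|l2| * |l3|) := by
    rw [← abs_mul, ← abs_mul, ← abs_mul]
    rwa [mul_assoc] at hN1
  have key : (c : ℝ) ≤ W0 * |l0| + W1 * |l1| + W2 * |l2| + W3 * |l3| := by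
    have h4 := amgm4 (W0 * |l0|) (W1 * |l1|) (W2 * |l2|) (W3 * |l3|) (by positivity)
      (by positivity) (by positivity) (by positivity)
    have h5 : (c : ℝ) ^ 4 ≤ 256 * (W0 * W1 * (W2 * W3)) := by exact_mod_cast hc
    have h6 : 256 * ((W0 : ℝ) * W1 * (W2 * W3)) ≤
        256 * (W0 * |l0| * (W1 * |l1|) * (W2 * |l2| * (W3 * |l3|))) := by
      have h7 : (0 : ℝ) ≤ W0 * W1 * (W2 * W3) := by positivity
      nlinarith [mul_le_mul_of_nonneg_left hN' h7]
    have h8 := (h5.trans h6).trans h4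
    exact le_of_pow_le_pow_left₀ (by norm_num) (by positivity) h8
  rw [e0, e1, e2, e3]
  simp only [GRow.eval]
  push_cast
  linarith

theorem gterms_sound (l : List GFact) (v : Fin 4 → ℝ) (hl : ∀ f ∈ l, f.Holds v)
    (hA : ∀ p q : ℤ, 1 ≤ |∏ i, (v i + (p + q * gam i))|) :
    ∀ (k m : Nat) (acc : GRow) (r : GRow × Nat),
    gterms l k m acc = some r → 0 ≤ acc.eval v → 0 ≤ r.1.eval v := by
  intro k
  induction k with
  | zero =>
    intro m acc r h hacc
    simp only [gterms, Option.some.injEq] at h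
    rw [← h]
    exact hacc
  | succ k ih =>
    intro m acc r h hacc
    rw [gterms] at h
    cases hc : (okSign (gsign 0 (sd m 0 64) (sd m 1 64) l) &&
      (okSign (gsign 1 (sd m 0 64) (sd m 1 64) l) &&
        (okSign (gsign 2 (sd m 0 64) (sd m 1 64) l) &&
          (okSign (gsign 3 (sd m 0 64) (sd m 1 64) l) &&
        Nat.ble (Nat.pow (dg m 6) 4) (256 * (dg m 2 * dg m 3 * (dg m 4 * dg m 5))))))) with
    | false =>
      rw [hc] at h
      simp at h
    | true =>
      rw [hc] at h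
      simp only [cond_true] at h
      rw [Bool.and_eq_true, Bool.and_eq_true, Bool.and_eq_true, Bool.and_eq_true] at hc
      obtain ⟨c0, c1, c2, c3, c4⟩ := hc
      refine ih _ _ _ h ?_
      rw [GRow.eval_add, GRow.eval_add, GRow.eval_add, GRow.eval_add, GRow.eval_add]
      have := gterm_nonneg v (sd m 0 64) (sd m 1 64) _ _ _ _ _ _ _ _ _ (hA _ _) c0 c1 c2 c3
        (gsign_sound 0 _ _ l v hl) (gsign_sound 1 _ _ l v hl) (gsign_sound 2 _ _ l v hl)
        (gsign_sound 3 _ _ l v hl) (Nat.le_of_ble_eq_true c4)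
      linarith

theorem gfacts_sound (l : List GFact) (v : Fin 4 → ℝ) (hl : ∀ f ∈ l, f.Holds v)
    (hD : ∀ k, 0 ≤ (domRow k).eval v) :
    ∀ (k m : Nat) (acc : GRow) (r : GRow × Nat),
    gfacts l k m acc = some r → 0 ≤ acc.eval v → 0 ≤ r.1.eval v := by
  intro k
  induction k with
  | zero =>
    intro m acc r h hacc
    simp only [gfacts, Option.some.injEq] at h
    rw [← h]
    exact hacc
  | succ k ih =>
    intro m acc r h hacc
    rw [gfacts] at h
    cases hk : Nat.ble 16 (dg m 0)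
    · rw [hk] at h
      simp only [cond_false] at h
      refine ih _ _ _ h ?_
      rw [GRow.eval_add, GRow.eval_smul]
      have h1 := hD (dg m 0)
      have h2 : (0 : ℝ) ≤ ((dg m 1 : ℤ) : ℝ) := by positivity
      have := mul_nonneg h2 h1
      linarith
    · rw [hk] at h
      simp only [cond_true] at h
      split at h
      · simp at h
      · rename_i f hf
        refine ih _ _ _ h ?_
        rw [GRow.eval_add]
        exact add_nonneg hacc (f.row_nonneg _ v (hl f (List.mem_of_getElem? hf)))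

theorem GRow.not_bad (r : GRow) (v : Fin 4 → ℝ) (h : 0 ≤ r.eval v) : r.bad = false := by
  by_contra hb
  rw [Bool.not_eq_false] at hb
  simp only [GRow.bad, Bool.and_eq_true, decide_eq_true_eq] at hb
  obtain ⟨h0, h1, h2, h3, h4⟩ := hb
  rw [GRow.eval, h0, h1, h2, h3] at h
  push_cast at h
  by_cases hf : 0 ≤ r.f
  · simp only [hf, decide_true, cond_true, decide_eq_true_eq] at h4
    have h5 : ((1000000000 * r.c + 1618033989 * r.f : ℤ) : ℝ) < 0 := by exact_mod_cast h4
    have h6 : (0 : ℝ) ≤ r.f := by exact_mod_cast hf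
    push_cast at h5
    nlinarith [mul_nonneg h6 (sub_nonneg.2 phi_hi.le)]
  · simp only [hf, decide_false, cond_false, decide_eq_true_eq] at h4
    have h5 : ((1000000000 * r.c + 1618033988 * r.f : ℤ) : ℝ) < 0 := by exact_mod_cast h4
    have h6 : (0 : ℝ) ≤ -r.f := by
      rw [not_le] at hf
      have : (r.f : ℝ) < 0 := by exact_mod_cast hf
      linarith
    push_cast at h5
    nlinarith [mul_nonneg h6 (sub_nonneg.2 phi_lo.le)]

/-- The conclusion of the tree. -/
def InBox (v : Fin 4 → ℝ) : Prop :=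
  (∃ p q : ℤ, (-0.4 ≤ v 0 + (p + q * gam 0) ∧ v 0 + (p + q * gam 0) ≤ 1.09) ∧
    (-1.71 ≤ v 1 + (p + q * gam 1) ∧ v 1 + (p + q * gam 1) ≤ -0.5) ∧
    (1.2 ≤ v 2 + (p + q * gam 2) ∧ v 2 + (p + q * gam 2) ≤ 2.275) ∧
    (-0.66 ≤ v 3 + (p + q * gam 3) ∧ v 3 + (p + q * gam 3) ≤ 1.1)) ∨
  (∃ p q : ℤ, (1.2 ≤ v 0 + (p + q * gam 0) ∧ v 0 + (p + q * gam 0) ≤ 2.275) ∧
    (-0.66 ≤ v 1 + (p + q * gam 1) ∧ v 1 + (p + q * gam 1) ≤ 1.1) ∧
    (-0.4 ≤ v 2 + (p + q * gam 2) ∧ v 2 + (p + q * gam 2) ≤ 1.09) ∧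
    (-1.71 ≤ v 3 + (p + q * gam 3) ∧ v 3 + (p + q * gam 3) ≤ -0.5))

theorem boxA_sound (p q : Int) (l : List GFact) (v : Fin 4 → ℝ) (hl : ∀ f ∈ l, f.Holds v)
    (h : boxA p q l = true) : InBox v := by
  simp only [boxA, Bool.and_eq_true] at h
  obtain ⟨h0, h1, h2, h3, h4, h5, h6, h7⟩ := h
  left
  refine ⟨p, q, ?_⟩
  rw [gam_gm, gam_gm, gam_gm, gam_gm]
  have g0 := lob_sound _ _ _ _ l v hl h0
  have g1 := upb_sound _ _ _ _ l v hl h1
  have g2 := lob_sound _ _ _ _ l v hl h2
  have g3 := upb_sound _ _ _ _ l v hl h3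
  have g4 := lob_sound _ _ _ _ l v hl h4
  have g5 := upb_sound _ _ _ _ l v hl h5
  have g6 := lob_sound _ _ _ _ l v hl h6
  have g7 := upb_sound _ _ _ _ l v hl h7
  simp only [vget] at g0 g1 g2 g3 g4 g5 g6 g7
  push_cast at g0 g1 g2 g3 g4 g5 g6 g7
  refine ⟨⟨?_, ?_⟩, ⟨?_, ?_⟩, ⟨?_, ?_⟩, ⟨?_, ?_⟩⟩
  · show _ ≤ v 0 + (p + q * gm 0)
    linarith
  · show v 0 + (p + q * gm 0) ≤ _
    linarith
  · show _ ≤ v 1 + (p + q * gm 1)
    linarith
  · show v 1 + (p + q * gm 1) ≤ _
    linarith
  · show _ ≤ v 2 + (p + q * gm 2)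
    linarith
  · show v 2 + (p + q * gm 2) ≤ _
    linarith
  · show _ ≤ v 3 + (p + q * gm 3)
    linarith
  · show v 3 + (p + q * gm 3) ≤ _
    linarith

theorem boxB_sound (p q : Int) (l : List GFact) (v : Fin 4 → ℝ) (hl : ∀ f ∈ l, f.Holds v)
    (h : boxB p q l = true) : InBox v := by
  simp only [boxB, Bool.and_eq_true] at h
  obtain ⟨h0, h1, h2, h3, h4, h5, h6, h7⟩ := h
  right
  refine ⟨p, q, ?_⟩
  rw [gam_gm, gam_gm, gam_gm, gam_gm]
  have g0 := lob_sound _ _ _ _ l v hl h0
  have g1 := upb_sound _ _ _ _ l v hl h1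
  have g2 := lob_sound _ _ _ _ l v hl h2
  have g3 := upb_sound _ _ _ _ l v hl h3
  have g4 := lob_sound _ _ _ _ l v hl h4
  have g5 := upb_sound _ _ _ _ l v hl h5
  have g6 := lob_sound _ _ _ _ l v hl h6
  have g7 := upb_sound _ _ _ _ l v hl h7
  simp only [vget] at g0 g1 g2 g3 g4 g5 g6 g7
  push_cast at g0 g1 g2 g3 g4 g5 g6 g7
  refine ⟨⟨?_, ?_⟩, ⟨?_, ?_⟩, ⟨?_, ?_⟩, ⟨?_, ?_⟩⟩
  · show _ ≤ v 0 + (p + q * gm 0)
    linarith
  · show v 0 + (p + q * gm 0) ≤ _
    linarith
  · show _ ≤ v 1 + (p + q * gm 1)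
    linarith
  · show v 1 + (p + q * gm 1) ≤ _
    linarith
  · show _ ≤ v 2 + (p + q * gm 2)
    linarith
  · show v 2 + (p + q * gm 2) ≤ _
    linarith
  · show _ ≤ v 3 + (p + q * gm 3)
    linarith
  · show v 3 + (p + q * gm 3) ≤ _
    linarith

theorem gleaf_sound (l : List GFact) (v : Fin 4 → ℝ) (hl : ∀ f ∈ l, f.Holds v)
    (hA : ∀ p q : ℤ, 1 ≤ |∏ i, (v i + (p + q * gam i))|)
    (hD : ∀ k, 0 ≤ (domRow k).eval v) (m : Nat) : gleaf l m = none := by
  unfold gleaf
  have h0 : (0 : ℝ) ≤ (⟨0, 0, 0, 0, 0, 0⟩ : GRow).eval v := by simp [GRow.eval]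
  split
  · rfl
  · rename_i acc m1 h1
    have h2 := gterms_sound l v hl hA _ _ _ _ h1 h0
    split
    · rfl
    · rename_i acc2 m2 h3
      have h4 := gfacts_sound l v hl hD _ _ _ _ h3 h2
      simp only at h4
      rw [GRow.not_bad acc2 v h4]
      rfl

theorem gcheck_sound (v : Fin 4 → ℝ)
    (hA : ∀ p q : ℤ, 1 ≤ |∏ i, (v i + (p + q * gam i))|)
    (hD : ∀ k, 0 ≤ (domRow k).eval v) : ∀ (fuel : Nat) (l : List GFact) (m r : Nat),
    (∀ f ∈ l, f.Holds v) → gcheck fuel l m = some r → InBox v := by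
  intro fuel
  induction fuel with
  | zero =>
    intro l m r _ h
    simp [gcheck] at h
  | succ fuel ih =>
    intro l m r hl h
    rw [gcheck] at h
    split at h
    · rw [gleaf_sound l v hl hA hD] at h
      simp at h
    · split at h
      · simp at h
      · rename_i m1 h1
        rcases le_total (vget v (dg m 3) + ((sd m 1 64 : Int) + (sd m 2 64 : Int) * gm (dg m 3))) 0
          with hs | hs
        · refine ih _ _ _ ?_ h1
          intro f hf
          rcases List.mem_append.1 hf with hf | hf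
          · exact hl f hf
          · rw [List.mem_singleton.1 hf]
            exact hs
        · refine ih _ _ _ ?_ h
          intro f hf
          rcases List.mem_append.1 hf with hf | hf
          · exact hl f hf
          · rw [List.mem_singleton.1 hf]
            exact hs
    · cases hb : boxA (sd m 1 64) (sd m 2 64) l
      · rw [hb] at h
        simp at h
      · exact boxA_sound _ _ l v hl hb
    · cases hb : boxB (sd m 1 64) (sd m 2 64) l
      · rw [hb] at h
        simp at h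
      · exact boxB_sound _ _ l v hl hb

/-- The facts of the root. -/
def root : List GFact :=
  [⟨0, -10, 7, true⟩, ⟨0, 15, -11, false⟩, ⟨1, -15, 11, true⟩, ⟨1, 10, -7, false⟩,
    ⟨2, 7, 10, true⟩, ⟨2, -6, -6, false⟩, ⟨3, 6, 6, true⟩, ⟨3, -7, -10, false⟩]

theorem dom_rows (v : Fin 4 → ℝ) (h : Dom v) (k : ℕ) : 0 ≤ (domRow k).eval v := by
  obtain ⟨h0, h1, h2, h3, h4, h5, h6⟩ := h
  rw [abs_le] at h5 h6
  have f1 := phi_lo
  have f2 := phi_hi
  -- bounds for `A + B`
  have hB : |v 2 + v 3| ≤ 1.6181 := by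
    rw [abs_le]
    constructor <;> nlinarith
  have hAB : |v 0 + v 1 + (v 2 + v 3)| ≤ 5.5 := by
    rw [abs_le] at hB ⊢
    constructor <;> linarith [h5.1, h5.2, hB.1, hB.2]
  rw [abs_le] at hAB
  rcases k with _ | _ | _ | _ | _ | _ | _ | _ | k
  all_goals simp only [domRow, GRow.eval]
  all_goals push_cast
  · linarith
  · linarith
  · linarith
  · linarith
  · linarith
  · linarith
  · linarith
  · nlinarith
  · nlinarith

theorem root_holds (v : Fin 4 → ℝ) (h : Dom v) : ∀ f ∈ root, f.Holds v := by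
  obtain ⟨h0, h1, h2, h3, h4, h5, h6⟩ := h
  rw [abs_le] at h5 h6
  have f1 := phi_lo
  have f2 := phi_hi
  have hB : |v 2 + v 3| ≤ 1.6181 := by
    rw [abs_le]
    constructor <;> nlinarith
  have hA : |v 0 + v 1| ≤ 2.6181 := by
    rw [abs_le]
    constructor <;> nlinarith
  rw [abs_le] at hA hB
  have hs : v 0 - v 1 ≤ 2.9610 := by linarith
  have ht : v 2 - v 3 ≤ 2.9610 := by linarith
  intro f hf
  simp only [root, List.mem_cons, List.not_mem_nil, or_false] at hf
  rcases hf with rfl | rfl | rfl | rfl | rfl | rfl | rfl | rfl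
  all_goals simp only [GFact.Holds, vget, gm, conj_eq]
  all_goals push_cast
  all_goals linarith

end Pool.Agent.H16.Dav
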