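import Pool.Agent.H16.Dav.Defs

/-!
# The golden case: uniqueness near the algebraic points

Write `g = (ψ, ψ, φ, φ)` in the case `A` and `g = (φ, φ, ψ, ψ)` in the case `B`
(`φ = Real.goldenRatio`, `ψ = Real.goldenConj`), and `u_i = w_i ^ 2 - g_i w_i`; note
`g_i ^ 2 = g_i + 1`.  The elements `0` (twice), `-g` (twice), `-1`, `1 - g`, `g - 1`, `1 - 2 g` are
of the form `p + q * gam i`, and
`w ^ 2 (w - g) ^ 2 = u ^ 2`, `(w - 1) (w + 1 - g) = u - (1 - g)`,
`(w + g - 1) (w + 1 - 2 g) = u - (3 - g)`.  So the product of the corresponding eight norms is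
`∏ h_{g_i} (u_i)` with `h_g u = u ^ 2 (u - 1 + g) (u - 3 + g)`, hence `1 ≤ ∏ |h_{g_i} (u_i)|`.

For `c = 1 - g` (the conjugate of `g`) one has
`c - h_g u = (u - 1) ^ 2 (- u ^ 2 + 2 c u + c)`.

* `g = ψ`, `c = φ`: `|h u| ≤ φ` for `-0.43 ≤ u ≤ 1.87`, with equality only for `u = 1`
  (the second factor is positive, and `h u > -φ` on this interval, for instance `h (1.87) ≈ -1.53`).
* `g = φ`, `c = ψ`: `|h u| ≤ -ψ` for `-0.66 ≤ u ≤ 1.505`, with equality only for `u = 1`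
  (the second factor is negative for every `u`, and `h u < -ψ` on this interval,
  for instance `h (1.505) ≈ 0.593`).

The boxes below imply these bounds for the `u_i` (`u = (w - g/2) ^ 2 - g ^ 2 / 4`).  Since
`φ ^ 2 ψ ^ 2 = 1`, all four `u_i` are `1`.  As `w 0 ≠ w 1` and `w 2 ≠ w 3`, subtracting gives
`w 0 + w 1 = g 0`, `w 2 + w 3 = g 2`, and `(w 0 - w 1) ^ 2 = g_0 ^ 2 + 4 = 5 + g_0`.
-/

namespace Pool.Agent.H16.Dav

open Real

theorem phi_bds : 1.618 < goldenRatio ∧ goldenRatio < 1.6181 := by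
  have h1 : (2.236 : ℝ) < √5 := by
    rw [Real.lt_sqrt (by norm_num)]
    norm_num
  have h2 : √5 < (2.2362 : ℝ) := by
    rw [Real.sqrt_lt' (by norm_num)]
    norm_num
  unfold goldenRatio
  constructor <;> linarith

theorem psi_eq : goldenConj = 1 - goldenRatio := by
  linarith [goldenRatio_add_goldenConj]

/-- the local polynomial -/
def lh (g u : ℝ) : ℝ := u ^ 2 * (u - 1 + g) * (u - 3 + g)

theorem lh_psi {u : ℝ} (h1 : -0.43 ≤ u) (h2 : u ≤ 1.87) :
    |lh goldenConj u| ≤ goldenRatio ∧ (|lh goldenConj u| = goldenRatio → u = 1) := by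
  obtain ⟨p1, p2⟩ := phi_bds
  have hsq := goldenRatio_sq
  have hpos : 0 < -u ^ 2 + 2 * goldenRatio * u + goldenRatio := by
    nlinarith [mul_nonneg (sub_nonneg.2 h1) (sub_nonneg.2 h2)]
  have hid : goldenRatio - lh goldenConj u =
      (u - 1) ^ 2 * (-u ^ 2 + 2 * goldenRatio * u + goldenRatio) := by
    unfold lh
    rw [psi_eq]
    linear_combination (-u ^ 2) * hsq
  have hup : lh goldenConj u ≤ goldenRatio := by
    have : 0 ≤ (u - 1) ^ 2 * (-u ^ 2 + 2 * goldenRatio * u + goldenRatio) := by positivity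
    linarith
  have hlow : -goldenRatio < lh goldenConj u := by
    have e : lh goldenConj u = u ^ 2 * ((u - goldenRatio) * (u - 2 - goldenRatio)) := by
      unfold lh
      rw [psi_eq]
      ring
    rw [e]
    rcases le_total u goldenRatio with h | h
    · have : 0 ≤ (u - goldenRatio) * (u - 2 - goldenRatio) :=
        mul_nonneg_of_nonpos_of_nonpos (by linarith) (by linarith)
      have : 0 ≤ u ^ 2 * ((u - goldenRatio) * (u - 2 - goldenRatio)) := by positivity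
      linarith
    · have h3 : (u - goldenRatio) * (2 + goldenRatio - u) ≤ 0.45 := by nlinarith
      have h4 : 0 ≤ (u - goldenRatio) * (2 + goldenRatio - u) :=
        mul_nonneg (by linarith) (by linarith)
      have h5 : u ^ 2 ≤ 3.4969 := by nlinarith
      have h6 : u ^ 2 * ((u - goldenRatio) * (2 + goldenRatio - u)) ≤ 3.4969 * 0.45 :=
        mul_le_mul h5 h3 h4 (by norm_num)
      nlinarith
  refine ⟨abs_le.2 ⟨hlow.le, hup⟩, fun h => ?_⟩
  rcases abs_eq (by linarith : (0 : ℝ) ≤ goldenRatio) |>.1 h with h3 | h3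
  · rw [h3, sub_self] at hid
    have h4 : (u - 1) ^ 2 = 0 := by
      rcases mul_eq_zero.1 hid.symm with h5 | h5
      · exact h5
      · exact absurd h5 hpos.ne'
    have h5 : u - 1 = 0 := by
      simpa using h4
    linarith
  · linarith

theorem lh_phi {u : ℝ} (h1 : -0.66 ≤ u) (h2 : u ≤ 1.505) :
    |lh goldenRatio u| ≤ -goldenConj ∧ (|lh goldenRatio u| = -goldenConj → u = 1) := by
  obtain ⟨p1, p2⟩ := phi_bds
  have hsq := goldenRatio_sq
  have hpsi := psi_eq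
  have hpos : 0 < u ^ 2 - 2 * goldenConj * u - goldenConj := by
    rw [hpsi]
    nlinarith [sq_nonneg (u - (1 - goldenRatio))]
  have hid : lh goldenRatio u - goldenConj =
      (u - 1) ^ 2 * (u ^ 2 - 2 * goldenConj * u - goldenConj) := by
    unfold lh
    rw [hpsi]
    linear_combination u ^ 2 * hsq
  have hlow : -(-goldenConj) ≤ lh goldenRatio u := by
    have : 0 ≤ (u - 1) ^ 2 * (u ^ 2 - 2 * goldenConj * u - goldenConj) := by positivity
    linarith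
  have hup : lh goldenRatio u < -goldenConj := by
    have e : lh goldenRatio u = u ^ 2 * ((u - 1 + goldenRatio) * (u - 3 + goldenRatio)) := by
      unfold lh
      ring
    rw [e, hpsi]
    rcases le_total u (3 - goldenRatio) with h | h
    · rcases le_total (1 - goldenRatio) u with h' | h'
      · have : (u - 1 + goldenRatio) * (u - 3 + goldenRatio) ≤ 0 :=
          mul_nonpos_of_nonneg_of_nonpos (by linarith) (by linarith)
        have : u ^ 2 * ((u - 1 + goldenRatio) * (u - 3 + goldenRatio)) ≤ 0 :=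
          mul_nonpos_of_nonneg_of_nonpos (by positivity) this
        linarith
      · have h3 : (u - 1 + goldenRatio) * (u - 3 + goldenRatio) ≤ 0.1 := by nlinarith
        have h4 : 0 ≤ (u - 1 + goldenRatio) * (u - 3 + goldenRatio) :=
          mul_nonneg_of_nonpos_of_nonpos (by linarith) (by linarith)
        have h5 : u ^ 2 ≤ 1 := by nlinarith
        have h6 : u ^ 2 * ((u - 1 + goldenRatio) * (u - 3 + goldenRatio)) ≤ 1 * 0.1 :=
          mul_le_mul h5 h3 h4 (by norm_num)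
        linarith
    · have h3 : (u - 1 + goldenRatio) * (u - 3 + goldenRatio) ≤ 2.1231 * 0.1231 :=
        mul_le_mul (by linarith) (by linarith) (by linarith) (by norm_num)
      have h4 : 0 ≤ (u - 1 + goldenRatio) * (u - 3 + goldenRatio) :=
        mul_nonneg (by linarith) (by linarith)
      have h5 : u ^ 2 ≤ 2.265025 := by nlinarith
      have h6 : u ^ 2 * ((u - 1 + goldenRatio) * (u - 3 + goldenRatio)) ≤
          2.265025 * (2.1231 * 0.1231) :=
        mul_le_mul h5 h3 h4 (by norm_num)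
      linarith
  refine ⟨abs_le.2 ⟨hlow, hup.le⟩, fun h => ?_⟩
  rcases abs_eq (by linarith : (0 : ℝ) ≤ -goldenConj) |>.1 h with h3 | h3
  · linarith
  · rw [h3, neg_neg, sub_self] at hid
    have h4 : (u - 1) ^ 2 = 0 := by
      rcases mul_eq_zero.1 hid.symm with h5 | h5
      · exact h5
      · exact absurd h5 hpos.ne'
    have h5 : u - 1 = 0 := by
      simpa using h4
    linarith

theorem gam_sq (i : Fin 4) : gam i ^ 2 = gam i + 1 := by
  fin_cases i <;> simp [gam, goldenRatio_sq, goldenConj_sq]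

theorem eight_aux {n1 n2 n3 n4 n5 n6 : ℝ} (h1 : 1 ≤ |n1|) (h2 : 1 ≤ |n2|) (h3 : 1 ≤ |n3|)
    (h4 : 1 ≤ |n4|) (h5 : 1 ≤ |n5|) (h6 : 1 ≤ |n6|) :
    1 ≤ |n1 ^ 2 * n2 ^ 2 * n3 * n4 * n5 * n6| := by
  simp only [abs_mul, abs_pow]
  have := one_le_pow₀ (n := 2) h1
  have := one_le_pow₀ (n := 2) h2
  refine one_le_mul_of_one_le_of_one_le (one_le_mul_of_one_le_of_one_le
    (one_le_mul_of_one_le_of_one_le (one_le_mul_of_one_le_of_one_le
      (one_le_mul_of_one_le_of_one_le ?_ ?_) h3) h4) h5) h6 <;> assumption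

theorem eight_A (w : Fin 4 → ℝ) (hw : ∀ p q : ℤ, 1 ≤ |∏ i, (w i + (p + q * gam i))|) :
    1 ≤ |∏ i, lh (1 - gam i) (w i ^ 2 - (1 - gam i) * w i)| := by
  have h := eight_aux (hw 0 0) (hw (-1) 1) (hw (-1) 0) (hw 0 1) (hw 0 (-1)) (hw (-1) 2)
  refine h.trans_eq ?_
  congr 1
  rw [← Finset.prod_pow, ← Finset.prod_pow, ← Finset.prod_mul_distrib, ← Finset.prod_mul_distrib,
    ← Finset.prod_mul_distrib, ← Finset.prod_mul_distrib, ← Finset.prod_mul_distrib]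
  refine Finset.prod_congr rfl fun i _ => ?_
  have hg := gam_sq i
  unfold lh
  push_cast
  linear_combination (-2) * (w i ^ 2 * (w i - (1 - gam i)) ^ 2 * (w i - 1) * (w i + gam i)) * hg

theorem eight_B (w : Fin 4 → ℝ) (hw : ∀ p q : ℤ, 1 ≤ |∏ i, (w i + (p + q * gam i))|) :
    1 ≤ |∏ i, lh (gam i) (w i ^ 2 - gam i * w i)| := by
  have h := eight_aux (hw 0 0) (hw 0 (-1)) (hw (-1) 0) (hw 1 (-1)) (hw (-1) 1) (hw 1 (-2))
  refine h.trans_eq ?_
  congr 1
  rw [← Finset.prod_pow, ← Finset.prod_pow, ← Finset.prod_mul_distrib, ← Finset.prod_mul_distrib,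
    ← Finset.prod_mul_distrib, ← Finset.prod_mul_distrib, ← Finset.prod_mul_distrib]
  refine Finset.prod_congr rfl fun i _ => ?_
  have hg := gam_sq i
  unfold lh
  push_cast
  linear_combination (-2) * (w i ^ 2 * (w i - gam i) ^ 2 * (w i - 1) * (w i + 1 - gam i)) * hg

theorem prod4_eq {a b c d A B C D : ℝ} (ha0 : 0 ≤ a) (hb0 : 0 ≤ b) (hc0 : 0 ≤ c) (hd0 : 0 ≤ d)
    (ha : a ≤ A) (hb : b ≤ B) (hc : c ≤ C) (hd : d ≤ D) (hA : A * B * C * D = 1)
    (h : 1 ≤ a * b * c * d) : a = A := by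
  by_contra hne
  have hlt : a < A := lt_of_le_of_ne ha hne
  have hpos : 0 < a * b * c * d := by linarith
  have hb1 : 0 < b := by
    rcases hb0.lt_or_eq with h1 | h1
    · exact h1
    · rw [← h1] at hpos; simp at hpos
  have hc1 : 0 < c := by
    rcases hc0.lt_or_eq with h1 | h1
    · exact h1
    · rw [← h1] at hpos; simp at hpos
  have hd1 : 0 < d := by
    rcases hd0.lt_or_eq with h1 | h1
    · exact h1
    · rw [← h1] at hpos; simp at hpos
  have hA0 : 0 < A := ha0.trans_lt hlt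
  have h1 : a * b * c * d < A * b * c * d := by
    have : 0 < b * c * d := by positivity
    nlinarith
  have h2 : A * b * c * d ≤ A * B * C * D := by
    have e1 : A * b ≤ A * B := mul_le_mul_of_nonneg_left hb hA0.le
    have e2 : A * b * c ≤ A * B * C := mul_le_mul e1 hc hc0 (by nlinarith)
    exact mul_le_mul e2 hd hd0 (by
      have : 0 ≤ B := hb0.trans hb
      have : 0 ≤ C := hc0.trans hc
      positivity)
  linarith

theorem prod4_all {a b c d A B C D : ℝ} (ha0 : 0 ≤ a) (hb0 : 0 ≤ b) (hc0 : 0 ≤ c) (hd0 : 0 ≤ d)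
    (ha : a ≤ A) (hb : b ≤ B) (hc : c ≤ C) (hd : d ≤ D) (hA : A * B * C * D = 1)
    (h : 1 ≤ a * b * c * d) : a = A ∧ b = B ∧ c = C ∧ d = D :=
  ⟨prod4_eq ha0 hb0 hc0 hd0 ha hb hc hd hA h,
    prod4_eq hb0 ha0 hc0 hd0 hb ha hc hd (by rw [← hA]; ring) (by linarith [h, mul_comm a b]),
    prod4_eq hc0 hb0 ha0 hd0 hc hb ha hd (by rw [← hA]; ring)
      (by have : c * b * a * d = a * b * c * d := by ring
          rw [this]; exact h),
    prod4_eq hd0 hb0 hc0 ha0 hd hb hc ha (by rw [← hA]; ring)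
      (by have : d * b * c * a = a * b * c * d := by ring
          rw [this]; exact h)⟩

theorem phi_psi_prod : goldenRatio * goldenRatio * (-goldenConj) * (-goldenConj) = 1 := by
  have := goldenRatio_mul_goldenConj
  calc goldenRatio * goldenRatio * (-goldenConj) * (-goldenConj) =
      (goldenRatio * goldenConj) ^ 2 := by ring
    _ = 1 := by rw [this]; norm_num

/-- the two roots -/
theorem two_roots {g x y : ℝ} (hx : x ^ 2 - g * x = 1) (hy : y ^ 2 - g * y = 1) (hxy : x ≠ y) :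
    x + y = g ∧ (x - y) ^ 2 = g ^ 2 + 4 := by
  have h1 : (x - y) * (x + y - g) = 0 := by linear_combination hx - hy
  have h2 : x + y = g := by
    rcases mul_eq_zero.1 h1 with h | h
    · exact absurd (sub_eq_zero.1 h) hxy
    · linarith
  refine ⟨h2, ?_⟩
  rw [← h2] at hx ⊢
  linear_combination 4 * hx

theorem u_psi_hi {w : ℝ} (h1 : -0.4 ≤ w) (h2 : w ≤ 1.09) :
    -0.43 ≤ w ^ 2 - goldenConj * w ∧ w ^ 2 - goldenConj * w ≤ 1.87 := by
  obtain ⟨p1, p2⟩ := phi_bds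
  rw [psi_eq]
  constructor
  · nlinarith [sq_nonneg (w + 0.3)]
  · nlinarith [mul_nonneg (sub_nonneg.2 h1) (sub_nonneg.2 h2)]

theorem u_psi_lo {w : ℝ} (h1 : -1.71 ≤ w) (h2 : w ≤ -0.5) :
    -0.43 ≤ w ^ 2 - goldenConj * w ∧ w ^ 2 - goldenConj * w ≤ 1.87 := by
  obtain ⟨p1, p2⟩ := phi_bds
  rw [psi_eq]
  constructor
  · nlinarith [sq_nonneg (w + 0.3)]
  · nlinarith [mul_nonneg (sub_nonneg.2 h1) (sub_nonneg.2 h2)]

theorem u_phi_hi {w : ℝ} (h1 : 1.2 ≤ w) (h2 : w ≤ 2.275) :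
    -0.66 ≤ w ^ 2 - goldenRatio * w ∧ w ^ 2 - goldenRatio * w ≤ 1.505 := by
  obtain ⟨p1, p2⟩ := phi_bds
  constructor
  · nlinarith [sq_nonneg (w - 0.809)]
  · nlinarith [mul_nonneg (sub_nonneg.2 h1) (sub_nonneg.2 h2)]

theorem u_phi_lo {w : ℝ} (h1 : -0.66 ≤ w) (h2 : w ≤ 1.1) :
    -0.66 ≤ w ^ 2 - goldenRatio * w ∧ w ^ 2 - goldenRatio * w ≤ 1.505 := by
  obtain ⟨p1, p2⟩ := phi_bds
  constructor
  · rcases le_total 0 w with h | h
    · nlinarith [sq_nonneg (w - 0.809)]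
    · nlinarith [sq_nonneg w]
  · nlinarith [mul_nonneg (sub_nonneg.2 h1) (sub_nonneg.2 h2)]

theorem loc_A (w : Fin 4 → ℝ) (hw : ∀ p q : ℤ, 1 ≤ |∏ i, (w i + (p + q * gam i))|)
    (h0 : -0.4 ≤ w 0 ∧ w 0 ≤ 1.09) (h1 : -1.71 ≤ w 1 ∧ w 1 ≤ -0.5)
    (h2 : 1.2 ≤ w 2 ∧ w 2 ≤ 2.275) (h3 : -0.66 ≤ w 3 ∧ w 3 ≤ 1.1) :
    (w 0 - w 1) ^ 2 = 6 - goldenRatio ∧ (w 2 - w 3) ^ 2 = 6 - goldenConj ∧
      w 0 + w 1 = goldenConj ∧ w 2 + w 3 = goldenRatio := by
  have h8 := eight_A w hw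
  have hg0 : 1 - gam 0 = goldenConj := by simp only [gam, Matrix.cons_val]; rw [psi_eq]
  have hg1 : 1 - gam 1 = goldenConj := by simp only [gam, Matrix.cons_val]; rw [psi_eq]
  have hg2 : 1 - gam 2 = goldenRatio := by simp only [gam, Matrix.cons_val]; rw [psi_eq]; ring
  have hg3 : 1 - gam 3 = goldenRatio := by simp only [gam, Matrix.cons_val]; rw [psi_eq]; ring
  rw [Fin.prod_univ_four, abs_mul, abs_mul, abs_mul, hg0, hg1, hg2, hg3] at h8
  obtain ⟨b0, c0⟩ := lh_psi (u_psi_hi h0.1 h0.2).1 (u_psi_hi h0.1 h0.2).2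
  obtain ⟨b1, c1⟩ := lh_psi (u_psi_lo h1.1 h1.2).1 (u_psi_lo h1.1 h1.2).2
  obtain ⟨b2, c2⟩ := lh_phi (u_phi_hi h2.1 h2.2).1 (u_phi_hi h2.1 h2.2).2
  obtain ⟨b3, c3⟩ := lh_phi (u_phi_lo h3.1 h3.2).1 (u_phi_lo h3.1 h3.2).2
  obtain ⟨e0, e1, e2, e3⟩ := prod4_all (abs_nonneg _) (abs_nonneg _) (abs_nonneg _)
    (abs_nonneg _) b0 b1 b2 b3 phi_psi_prod h8
  obtain ⟨r1, r2⟩ := two_roots (c0 e0) (c1 e1) (by intro h; linarith [h0.1, h1.2])
  obtain ⟨r3, r4⟩ := two_roots (c2 e2) (c3 e3) (by intro h; linarith [h2.1, h3.2])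
  refine ⟨?_, ?_, r1, r3⟩
  · rw [r2, goldenConj_sq, psi_eq]; ring
  · rw [r4, goldenRatio_sq, psi_eq]; ring

theorem loc_B (w : Fin 4 → ℝ) (hw : ∀ p q : ℤ, 1 ≤ |∏ i, (w i + (p + q * gam i))|)
    (h0 : 1.2 ≤ w 0 ∧ w 0 ≤ 2.275) (h1 : -0.66 ≤ w 1 ∧ w 1 ≤ 1.1)
    (h2 : -0.4 ≤ w 2 ∧ w 2 ≤ 1.09) (h3 : -1.71 ≤ w 3 ∧ w 3 ≤ -0.5) :
    (w 0 - w 1) ^ 2 = 6 - goldenConj ∧ (w 2 - w 3) ^ 2 = 6 - goldenRatio ∧
      w 0 + w 1 = goldenRatio ∧ w 2 + w 3 = goldenConj := by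
  have h8 := eight_B w hw
  have hg0 : gam 0 = goldenRatio := rfl
  have hg1 : gam 1 = goldenRatio := rfl
  have hg2 : gam 2 = goldenConj := rfl
  have hg3 : gam 3 = goldenConj := rfl
  rw [Fin.prod_univ_four, abs_mul, abs_mul, abs_mul, hg0, hg1, hg2, hg3] at h8
  obtain ⟨b0, c0⟩ := lh_phi (u_phi_hi h0.1 h0.2).1 (u_phi_hi h0.1 h0.2).2
  obtain ⟨b1, c1⟩ := lh_phi (u_phi_lo h1.1 h1.2).1 (u_phi_lo h1.1 h1.2).2
  obtain ⟨b2, c2⟩ := lh_psi (u_psi_hi h2.1 h2.2).1 (u_psi_hi h2.1 h2.2).2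
  obtain ⟨b3, c3⟩ := lh_psi (u_psi_lo h3.1 h3.2).1 (u_psi_lo h3.1 h3.2).2
  obtain ⟨e0, e1, e2, e3⟩ := prod4_all (abs_nonneg _) (abs_nonneg _) (abs_nonneg _)
    (abs_nonneg _) b0 b1 b2 b3 (by rw [← phi_psi_prod]; ring) h8
  obtain ⟨r1, r2⟩ := two_roots (c0 e0) (c1 e1) (by intro h; linarith [h0.1, h1.2])
  obtain ⟨r3, r4⟩ := two_roots (c2 e2) (c3 e3) (by intro h; linarith [h2.1, h3.2])
  refine ⟨?_, ?_, r1, r3⟩
  · rw [r2, goldenRatio_sq, psi_eq]; ring
  · rw [r4, goldenConj_sq, psi_eq]; ring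

end Pool.Agent.H16.Dav
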