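import Pool.Agent.H16.Dav.GData
import Pool.Agent.H16.Dav.GLoc

/-!
# Points over the golden plane

`S = {v : |∏ (v i + p + q γ_i)| ≥ 1 for all p, q}`.  If
`v ∈ S` and `|(v 0 - v 1) (v 2 - v 3)| < 5.4` then, up to a power of the unit `φ`, `v` is one of the
points coming from the ring of integers of the field of discriminant `725`.
-/

namespace Pool.Agent.H16.Dav

open Real

theorem in_box (v : Fin 4 → ℝ) (hv : ∀ p q : ℤ, 1 ≤ |∏ i, (v i + (p + q * gam i))|)
    (h : Dom v) : InBox v := by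
  obtain ⟨r, hr⟩ := Option.isSome_iff_exists.1 gdata
  exact gcheck_sound v hv (dom_rows v h) _ _ _ _ (root_holds v h) hr

theorem golden_pts (v : Fin 4 → ℝ) (hv : ∀ p q : ℤ, 1 ≤ |∏ i, (v i + (p + q * gam i))|)
    (hst : |(v 0 - v 1) * (v 2 - v 3)| < 5.4) :
    ∃ k p q : ℤ,
      ((goldenRatio ^ k * (v 0 - v 1)) ^ 2 = 6 - goldenRatio ∧
        (goldenConj ^ k * (v 2 - v 3)) ^ 2 = 6 - goldenConj ∧
        goldenRatio ^ k * (v 0 + v 1) = goldenConj + 2 * (p + q * goldenRatio) ∧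
        goldenConj ^ k * (v 2 + v 3) = goldenRatio + 2 * (p + q * goldenConj)) ∨
      ((goldenRatio ^ k * (v 0 - v 1)) ^ 2 = 6 - goldenConj ∧
        (goldenConj ^ k * (v 2 - v 3)) ^ 2 = 6 - goldenRatio ∧
        goldenRatio ^ k * (v 0 + v 1) = goldenRatio + 2 * (p + q * goldenRatio) ∧
        goldenConj ^ k * (v 2 + v 3) = goldenConj + 2 * (p + q * goldenConj)) := by
  obtain ⟨k, p, q, w, hw, hdom, e1, e2, e3, e4⟩ := golden_reduce v hv hst
  have g0 : gam 0 = goldenRatio := rfl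
  have g1 : gam 1 = goldenRatio := rfl
  have g2 : gam 2 = goldenConj := rfl
  have g3 : gam 3 = goldenConj := rfl
  have hsh : ∀ a b : ℤ, ∀ p q : ℤ, 1 ≤ |∏ i, ((w i + (a + b * gam i)) + (p + q * gam i))| := by
    intro a b p q
    have := hw (a + p) (b + q)
    rwa [show (∏ i, (w i + (((a + p : ℤ) : ℝ) + ((b + q : ℤ) : ℝ) * gam i))) =
      ∏ i, ((w i + (a + b * gam i)) + (p + q * gam i)) from
      Finset.prod_congr rfl fun i _ => by push_cast; ring] at this
  rcases in_box w hw hdom with ⟨a, b, h0, h1, h2, h3⟩ | ⟨a, b, h0, h1, h2, h3⟩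
  · have := loc_A (fun i => w i + (a + b * gam i)) (hsh a b) h0 h1 h2 h3
    obtain ⟨r1, r2, r3, r4⟩ := this
    rw [g0, g1] at r1 r3
    rw [g2, g3] at r2 r4
    refine ⟨k, p - a, q - b, Or.inl ⟨?_, ?_, ?_, ?_⟩⟩
    · rw [e1, ← r1]
      ring
    · rw [e2, ← r2]
      ring
    · rw [e3]
      push_cast
      linear_combination r3
    · rw [e4]
      push_cast
      linear_combination r4
  · have := loc_B (fun i => w i + (a + b * gam i)) (hsh a b) h0 h1 h2 h3
    obtain ⟨r1, r2, r3, r4⟩ := this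
    rw [g0, g1] at r1 r3
    rw [g2, g3] at r2 r4
    refine ⟨k, p - a, q - b, Or.inr ⟨?_, ?_, ?_, ?_⟩⟩
    · rw [e1, ← r1]
      ring
    · rw [e2, ← r2]
      ring
    · rw [e3]
      push_cast
      linear_combination r3
    · rw [e4]
      push_cast
      linear_combination r4

end Pool.Agent.H16.Dav
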