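import Pool.Agent.H16.Dav.Defs

/-!
# The golden case: reduction to a compact domain

`φ = Real.goldenRatio`, `ψ = Real.goldenConj`, `gam = (φ, φ, ψ, ψ)`.

Multiplying `v` coordinatewise by `gam i ^ k` (`k : ℤ`) multiplies `|∏ (v i + p + q gam i)|` by
`|φ ^ k| ^ 2 |ψ ^ k| ^ 2 = 1` and permutes the elements `p + q gam i`
(`γ (p + q γ) = q + (p + q) γ`, `γ⁻¹ = γ - 1`, `(γ - 1) (p + q γ) = (q - p) + p γ`; induction on
`k`).  Let `s = v 0 - v 1`, `t = v 2 - v 3`, `|s t| < 5.4`.

* `s, t ≠ 0`: there is `k : ℤ` with `φ ^ (2 k) ≤ φ |t / s| < φ ^ (2 k + 2)`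
  (`exists_mem_Ico_zpow`); then `s' = |φ ^ k s|` and `t' = |ψ ^ k t|` satisfy `s' ≤ φ t'`,
  `t' ≤ φ s'` and `s' t' = |s t| < 5.4`, so `(s' + t') ^ 2 ≤ (φ + 1 / φ + 2) s' t'` (for
  `1 / φ ≤ r ≤ φ` one has `r + 1 / r ≤ φ + 1 / φ`), i.e. `(s' + t') ^ 2 ≤ 4.2361 * 5.4 < 4.79 ^ 2`.
* `t = 0`: choose `k` very negative so that `|φ ^ k s| ≤ 0.0005`; `s = 0`: choose `k` very large.

Then swap `v 0, v 1` and `v 2, v 3` if necessary so that the differences are nonnegative, and
translate by `p + q gam i` with `q = round ((c1 - c2) / √5)`, `p = round ((-ψ c1 + φ c2) / √5)`,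
where `c1, c2` are the mean values of the coordinates `0, 1` and `2, 3`
(`√5 = 2 φ - 1`, `-ψ = φ - 1`).
-/

namespace Pool.Agent.H16.Dav

open Real

/-- The compact domain. -/
def Dom (w : Fin 4 → ℝ) : Prop :=
  0 ≤ w 0 - w 1 ∧ 0 ≤ w 2 - w 3 ∧ w 0 - w 1 ≤ 1.6181 * (w 2 - w 3) + 0.001 ∧
  w 2 - w 3 ≤ 1.6181 * (w 0 - w 1) + 0.001 ∧ w 0 - w 1 + (w 2 - w 3) ≤ 4.79 ∧
  |w 0 + w 1 - (w 2 + w 3)| ≤ 2 * goldenRatio - 1 ∧
  |(goldenRatio - 1) * (w 0 + w 1) + goldenRatio * (w 2 + w 3)| ≤ 2 * goldenRatio - 1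

theorem phi_lt : goldenRatio < 1.6181 := by
  unfold goldenRatio
  have h : √5 < 2.2362 := by
    rw [Real.sqrt_lt' (by norm_num)]; norm_num
  norm_num at h ⊢
  linarith

theorem lt_phi : 1.618 < goldenRatio := by
  unfold goldenRatio
  have h : 2.236 < √5 := by
    apply Real.lt_sqrt_of_sq_lt; norm_num
  norm_num at h ⊢
  linarith

/-- all products are at least one -/
def TT (v : Fin 4 → ℝ) : Prop := ∀ p q : ℤ, 1 ≤ |∏ i, (v i + (p + q * gam i))|

theorem TT_gam {v : Fin 4 → ℝ} (h : TT v) : TT (fun i => gam i * v i) := by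
  intro p q
  have h1 := h (q - p) p
  have e1 := goldenRatio_sq
  have e2 := goldenConj_sq
  have e3 := goldenRatio_mul_goldenConj
  have key : ∏ i, (gam i * v i + (p + q * gam i)) = ∏ i, (v i + (((q - p : ℤ) : ℝ) + p * gam i)) := by
    rw [Fin.prod_univ_four, Fin.prod_univ_four]
    simp only [gam, Matrix.cons_val_zero, Matrix.cons_val_one, Matrix.cons_val]
    push_cast
    have f : ∀ x : ℝ, goldenRatio * x + (p + q * goldenRatio) =
        goldenRatio * (x + ((q : ℝ) - p + p * goldenRatio)) := by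
      intro x; linear_combination (-(p : ℝ)) * e1
    have g : ∀ x : ℝ, goldenConj * x + (p + q * goldenConj) =
        goldenConj * (x + ((q : ℝ) - p + p * goldenConj)) := by
      intro x; linear_combination (-(p : ℝ)) * e2
    rw [f, f, g, g]
    have e4 : goldenRatio * goldenRatio * goldenConj * goldenConj = 1 := by
      have : goldenRatio * goldenRatio * goldenConj * goldenConj =
        (goldenRatio * goldenConj) ^ 2 := by ring
      rw [this, e3]; norm_num
    linear_combination (v 0 + ((q : ℝ) - p + p * goldenRatio)) *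
      (v 1 + ((q : ℝ) - p + p * goldenRatio)) * (v 2 + ((q : ℝ) - p + p * goldenConj)) *
      (v 3 + ((q : ℝ) - p + p * goldenConj)) * e4
  rw [key]; exact h1

theorem TT_gam_inv {v : Fin 4 → ℝ} (h : TT v) : TT (fun i => (gam i)⁻¹ * v i) := by
  intro p q
  have h1 := h q (p + q)
  have e1 := goldenRatio_sq
  have e2 := goldenConj_sq
  have e3 := goldenRatio_mul_goldenConj
  have i1 : goldenRatio⁻¹ = goldenRatio - 1 := by
    rw [inv_eq_iff_eq_inv, eq_comm, inv_eq_iff_eq_inv, eq_comm]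
    apply inv_eq_of_mul_eq_one_left
    linear_combination e1
  have i2 : goldenConj⁻¹ = goldenConj - 1 := by
    rw [inv_eq_iff_eq_inv, eq_comm, inv_eq_iff_eq_inv, eq_comm]
    apply inv_eq_of_mul_eq_one_left
    linear_combination e2
  have key : ∏ i, ((gam i)⁻¹ * v i + (p + q * gam i)) =
      ∏ i, (v i + ((q : ℝ) + ((p + q : ℤ) : ℝ) * gam i)) := by
    rw [Fin.prod_univ_four, Fin.prod_univ_four]
    simp only [gam, Matrix.cons_val_zero, Matrix.cons_val_one, Matrix.cons_val]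
    push_cast
    rw [i1, i2]
    have f : ∀ x : ℝ, (goldenRatio - 1) * x + (p + q * goldenRatio) =
        (goldenRatio - 1) * (x + ((q : ℝ) + (p + q) * goldenRatio)) := by
      intro x; linear_combination (-((p : ℝ) + q)) * e1
    have g : ∀ x : ℝ, (goldenConj - 1) * x + (p + q * goldenConj) =
        (goldenConj - 1) * (x + ((q : ℝ) + (p + q) * goldenConj)) := by
      intro x; linear_combination (-((p : ℝ) + q)) * e2
    rw [f, f, g, g]
    have e5 := goldenRatio_add_goldenConj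
    have e4 : (goldenRatio - 1) * (goldenRatio - 1) * (goldenConj - 1) * (goldenConj - 1) = 1 := by
      have : (goldenRatio - 1) * (goldenRatio - 1) * (goldenConj - 1) * (goldenConj - 1) =
        (goldenRatio * goldenConj - (goldenRatio + goldenConj) + 1) ^ 2 := by ring
      rw [this, e3, e5]; norm_num
    linear_combination (v 0 + ((q : ℝ) + (p + q) * goldenRatio)) *
      (v 1 + ((q : ℝ) + (p + q) * goldenRatio)) * (v 2 + ((q : ℝ) + (p + q) * goldenConj)) *
      (v 3 + ((q : ℝ) + (p + q) * goldenConj)) * e4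
  rw [key]; exact h1

theorem gam_ne (i : Fin 4) : gam i ≠ 0 := by
  fin_cases i
  · exact goldenRatio_ne_zero
  · exact goldenRatio_ne_zero
  · exact goldenConj_ne_zero
  · exact goldenConj_ne_zero

theorem TT_zpow {v : Fin 4 → ℝ} (h : TT v) (k : ℤ) : TT (fun i => gam i ^ k * v i) := by
  induction k using Int.induction_on with
  | zero => simpa using h
  | succ k ih =>
    have := TT_gam ih
    have e : (fun i => gam i * (gam i ^ (k : ℤ) * v i)) = fun i => gam i ^ ((k : ℤ) + 1) * v i := by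
      funext i
      rw [zpow_add_one₀ (gam_ne i)]; ring
    rwa [e] at this
  | pred k ih =>
    have := TT_gam_inv ih
    have e : (fun i => (gam i)⁻¹ * (gam i ^ (-(k : ℤ)) * v i)) =
        fun i => gam i ^ (-(k : ℤ) - 1) * v i := by
      funext i
      rw [zpow_sub_one₀ (gam_ne i)]; ring
    rwa [e] at this

theorem TT_swap01 {v : Fin 4 → ℝ} (h : TT v) : TT ![v 1, v 0, v 2, v 3] := by
  intro p q
  have h1 := h p q
  rw [Fin.prod_univ_four] at h1 ⊢
  simp only [gam, Matrix.cons_val_zero, Matrix.cons_val_one, Matrix.cons_val] at h1 ⊢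
  rw [mul_comm (v 1 + _) (v 0 + _)]
  exact h1

theorem TT_swap23 {v : Fin 4 → ℝ} (h : TT v) : TT ![v 0, v 1, v 3, v 2] := by
  intro p q
  have h1 := h p q
  rw [Fin.prod_univ_four] at h1 ⊢
  simp only [gam, Matrix.cons_val_zero, Matrix.cons_val_one, Matrix.cons_val] at h1 ⊢
  rw [mul_assoc, mul_comm (v 3 + _) (v 2 + _), ← mul_assoc]
  exact h1

theorem TT_trans {v : Fin 4 → ℝ} (h : TT v) (a b : ℤ) :
    TT (fun i => v i - (a + b * gam i)) := by
  intro p q
  have h1 := h (p - a) (q - b)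
  have : ∀ i, v i - (a + b * gam i) + (p + q * gam i) =
      v i + (((p - a : ℤ) : ℝ) + ((q - b : ℤ) : ℝ) * gam i) := by
    intro i; push_cast; ring
  simp only [this]
  exact h1

/-- the choice of the power -/
theorem choose_k (s t : ℝ) (hs : 0 ≤ s) (ht : 0 ≤ t) (hst : s * t < 5.4) :
    ∃ k : ℤ, goldenRatio ^ k * s ≤ 1.6181 * ((goldenRatio⁻¹) ^ k * t) + 0.001 ∧
      (goldenRatio⁻¹) ^ k * t ≤ 1.6181 * (goldenRatio ^ k * s) + 0.001 ∧
      goldenRatio ^ k * s + (goldenRatio⁻¹) ^ k * t ≤ 4.79 := by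
  have hphi := phi_lt
  have hphi' := lt_phi
  have hp0 := goldenRatio_pos
  have hp1 := one_lt_goldenRatio
  have hsmall : ∀ x : ℝ, 0 ≤ x → ∃ n : ℕ, (goldenRatio⁻¹) ^ n * x ≤ 0.0005 := by
    intro x hx
    obtain ⟨n, hn⟩ := exists_pow_lt_of_lt_one (show (0 : ℝ) < 0.0005 / (x + 1) by positivity)
      (inv_lt_one_of_one_lt₀ hp1)
    refine ⟨n, ?_⟩
    rw [lt_div_iff₀ (by positivity)] at hn
    have : 0 ≤ (goldenRatio⁻¹) ^ n := by positivity
    nlinarith
  rcases hs.eq_or_lt with hs0 | hs0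
  · obtain ⟨n, hn⟩ := hsmall t ht
    refine ⟨(n : ℤ), ?_⟩
    have h0 : 0 ≤ (goldenRatio⁻¹) ^ n * t := by positivity
    rw [← hs0, mul_zero, zpow_natCast]
    generalize (goldenRatio⁻¹) ^ n * t = u at h0 hn
    refine ⟨?_, ?_, ?_⟩ <;> norm_num at hn ⊢ <;> linarith
  rcases ht.eq_or_lt with ht0 | ht0
  · obtain ⟨n, hn⟩ := hsmall s hs
    refine ⟨-(n : ℤ), ?_⟩
    have h0 : 0 ≤ (goldenRatio⁻¹) ^ n * s := by positivity
    have e : goldenRatio ^ (-(n : ℤ)) = (goldenRatio⁻¹) ^ n := by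
      rw [zpow_neg, zpow_natCast, inv_pow]
    rw [← ht0, mul_zero, e]
    generalize (goldenRatio⁻¹) ^ n * s = u at h0 hn
    refine ⟨?_, ?_, ?_⟩ <;> norm_num at hn ⊢ <;> linarith
  · have hx : 0 < goldenRatio * t / s := by positivity
    have hy : 1 < goldenRatio ^ 2 := by nlinarith
    obtain ⟨k, hk1, hk2⟩ := exists_mem_Ico_zpow hx hy
    refine ⟨k, ?_⟩
    rw [le_div_iff₀ hs0] at hk1
    rw [div_lt_iff₀ hs0] at hk2
    have hpk : 0 < goldenRatio ^ k := by positivity
    set a := goldenRatio ^ k with ha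
    have hainv : (goldenRatio⁻¹) ^ k = a⁻¹ := by rw [inv_zpow]
    have e1 : (goldenRatio ^ 2) ^ k = a ^ 2 := by
      rw [ha, ← zpow_natCast, ← zpow_mul, ← zpow_natCast, ← zpow_mul, mul_comm]
    have e2 : (goldenRatio ^ 2) ^ (k + 1) = a ^ 2 * goldenRatio ^ 2 := by
      rw [zpow_add_one₀ (by positivity), e1]
    rw [e1] at hk1
    rw [e2] at hk2
    rw [hainv]
    set X := a * s with hX
    set Y := a⁻¹ * t with hY
    have hX0 : 0 < X := by positivity
    have hY0 : 0 < Y := by positivity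
    have hXY : X * Y = s * t := by rw [hX, hY]; field_simp
    have h1 : X ≤ goldenRatio * Y := by
      rw [hX, hY]
      rw [show goldenRatio * (a⁻¹ * t) = (goldenRatio * t) / a by field_simp, le_div_iff₀ hpk]
      calc a * s * a = a ^ 2 * s := by ring
        _ ≤ _ := hk1
    have h2 : Y ≤ goldenRatio * X := by
      rw [hX, hY]
      rw [show a⁻¹ * t = t / a by field_simp, div_le_iff₀ hpk]
      have : goldenRatio * t < goldenRatio * (goldenRatio * (a * s) * a) := by
        calc goldenRatio * t < a ^ 2 * goldenRatio ^ 2 * s := hk2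
          _ = _ := by ring
      exact (lt_of_mul_lt_mul_left this hp0.le).le
    have hprod : X * Y < 5.4 := by rw [hXY]; exact hst
    have e3 := goldenRatio_sq
    have h3 : 0 ≤ (goldenRatio * Y - X) * (goldenRatio * X - Y) :=
      mul_nonneg (by linarith) (by linarith)
    have h4 : goldenRatio * (X ^ 2 + Y ^ 2) ≤ (goldenRatio ^ 2 + 1) * (X * Y) := by nlinarith
    have h5 : (goldenRatio ^ 2 + 1) = goldenRatio * (2 * goldenRatio - 1) := by nlinarith
    have h6 : X ^ 2 + Y ^ 2 ≤ (2 * goldenRatio - 1) * (X * Y) := by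
      rw [h5, mul_assoc] at h4
      exact le_of_mul_le_mul_left h4 hp0
    have hXYpos : 0 < X * Y := by positivity
    norm_num at hphi hphi' hprod
    refine ⟨?_, ?_, ?_⟩
    · norm_num; nlinarith
    · norm_num; nlinarith
    · have h7 : (X + Y) ^ 2 ≤ 4.79 ^ 2 := by
        have : (X + Y) ^ 2 = X ^ 2 + Y ^ 2 + 2 * (X * Y) := by ring
        rw [this]
        norm_num
        nlinarith
      exact le_of_sq_le_sq h7 (by norm_num)

theorem golden_reduce (v : Fin 4 → ℝ) (hv : ∀ p q : ℤ, 1 ≤ |∏ i, (v i + (p + q * gam i))|)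
    (hst : |(v 0 - v 1) * (v 2 - v 3)| < 5.4) :
    ∃ (k p q : ℤ) (w : Fin 4 → ℝ), (∀ p q : ℤ, 1 ≤ |∏ i, (w i + (p + q * gam i))|) ∧ Dom w ∧
      (goldenRatio ^ k * (v 0 - v 1)) ^ 2 = (w 0 - w 1) ^ 2 ∧
      (goldenConj ^ k * (v 2 - v 3)) ^ 2 = (w 2 - w 3) ^ 2 ∧
      goldenRatio ^ k * (v 0 + v 1) = w 0 + w 1 + 2 * (p + q * goldenRatio) ∧
      goldenConj ^ k * (v 2 + v 3) = w 2 + w 3 + 2 * (p + q * goldenConj) := by
  obtain ⟨k, hk1, hk2, hk3⟩ := choose_k |v 0 - v 1| |v 2 - v 3| (abs_nonneg _) (abs_nonneg _)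
    (by rw [← abs_mul]; exact hst)
  have hp0 := goldenRatio_pos
  have e3 := goldenRatio_mul_goldenConj
  have e5 := goldenRatio_add_goldenConj
  have esq := goldenRatio_sq
  have hinv : |goldenConj| = goldenRatio⁻¹ := by
    rw [abs_of_neg goldenConj_neg]
    apply eq_inv_of_mul_eq_one_left
    linear_combination -e3
  -- the scaled vector, ordered
  have hx : ∃ x : Fin 4 → ℝ, TT x ∧ x 0 - x 1 = goldenRatio ^ k * |v 0 - v 1| ∧
      x 2 - x 3 = (goldenRatio⁻¹) ^ k * |v 2 - v 3| ∧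
      goldenRatio ^ k * (v 0 + v 1) = x 0 + x 1 ∧ goldenConj ^ k * (v 2 + v 3) = x 2 + x 3 := by
    have hT := TT_zpow hv k
    set y : Fin 4 → ℝ := fun i => gam i ^ k * v i with hy
    have y0 : y 0 = goldenRatio ^ k * v 0 := rfl
    have y1 : y 1 = goldenRatio ^ k * v 1 := rfl
    have y2 : y 2 = goldenConj ^ k * v 2 := rfl
    have y3 : y 3 = goldenConj ^ k * v 3 := rfl
    have a1 : |y 0 - y 1| = goldenRatio ^ k * |v 0 - v 1| := by
      rw [y0, y1, ← mul_sub, abs_mul, abs_of_pos (by positivity : (0 : ℝ) < goldenRatio ^ k)]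
    have a2 : |y 2 - y 3| = (goldenRatio⁻¹) ^ k * |v 2 - v 3| := by
      rw [y2, y3, ← mul_sub, abs_mul, abs_zpow, hinv]
    rw [← a1, ← a2]
    rcases le_total 0 (y 0 - y 1) with h1 | h1 <;> rcases le_total 0 (y 2 - y 3) with h2 | h2
    · refine ⟨y, hT, ?_, ?_, ?_, ?_⟩
      · rw [abs_of_nonneg h1]
      · rw [abs_of_nonneg h2]
      · rw [y0, y1]; ring
      · rw [y2, y3]; ring
    · refine ⟨![y 0, y 1, y 3, y 2], TT_swap23 hT, ?_, ?_, ?_, ?_⟩
      · rw [abs_of_nonneg h1]; simp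
      · rw [abs_of_nonpos h2]; simp
      · simp only [Matrix.cons_val_zero, Matrix.cons_val_one]; rw [y0, y1]; ring
      · simp only [Matrix.cons_val]; rw [y2, y3]; ring
    · refine ⟨![y 1, y 0, y 2, y 3], TT_swap01 hT, ?_, ?_, ?_, ?_⟩
      · rw [abs_of_nonpos h1]; simp
      · rw [abs_of_nonneg h2]; simp
      · simp only [Matrix.cons_val_zero, Matrix.cons_val_one]; rw [y0, y1]; ring
      · simp only [Matrix.cons_val]; rw [y2, y3]; ring
    · refine ⟨![y 1, y 0, y 3, y 2], ?_, ?_, ?_, ?_, ?_⟩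
      · have := TT_swap23 (TT_swap01 hT)
        simpa using this
      · rw [abs_of_nonpos h1]; simp
      · rw [abs_of_nonpos h2]; simp
      · simp only [Matrix.cons_val_zero, Matrix.cons_val_one]; rw [y0, y1]; ring
      · simp only [Matrix.cons_val]; rw [y2, y3]; ring
  obtain ⟨x, hxT, hx1, hx2, hx3, hx4⟩ := hx
  have hs5 : 0 < 2 * goldenRatio - 1 := by linarith [one_lt_goldenRatio]
  set c1 := (x 0 + x 1) / 2 with hc1
  set c2 := (x 2 + x 3) / 2 with hc2
  set q : ℤ := round ((c1 - c2) / (2 * goldenRatio - 1)) with hq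
  set p : ℤ := round (((goldenRatio - 1) * c1 + goldenRatio * c2) / (2 * goldenRatio - 1)) with hp
  have hqr := abs_sub_round ((c1 - c2) / (2 * goldenRatio - 1))
  have hpr := abs_sub_round (((goldenRatio - 1) * c1 + goldenRatio * c2) / (2 * goldenRatio - 1))
  rw [← hq] at hqr
  rw [← hp] at hpr
  have hψ : goldenConj = 1 - goldenRatio := by linarith
  have w0 : (fun i => x i - (p + q * gam i)) 0 = x 0 - (p + q * goldenRatio) := rfl
  have w1 : (fun i => x i - (p + q * gam i)) 1 = x 1 - (p + q * goldenRatio) := rfl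
  have w2 : (fun i => x i - (p + q * gam i)) 2 = x 2 - (p + q * goldenConj) := rfl
  have w3 : (fun i => x i - (p + q * gam i)) 3 = x 3 - (p + q * goldenConj) := rfl
  refine ⟨k, p, q, fun i => x i - (p + q * gam i), TT_trans hxT p q, ?_, ?_, ?_, ?_, ?_⟩
  · unfold Dom
    rw [w0, w1, w2, w3]
    have d1 : x 0 - (p + q * goldenRatio) - (x 1 - (p + q * goldenRatio)) = x 0 - x 1 := by ring
    have d2 : x 2 - (p + q * goldenConj) - (x 3 - (p + q * goldenConj)) = x 2 - x 3 := by ring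
    rw [d1, d2, hx1, hx2]
    refine ⟨by positivity, by positivity, hk1, hk2, hk3, ?_, ?_⟩
    · have : x 0 - (p + q * goldenRatio) + (x 1 - (p + q * goldenRatio)) -
          (x 2 - (p + q * goldenConj) + (x 3 - (p + q * goldenConj))) =
          (2 * (2 * goldenRatio - 1)) * ((c1 - c2) / (2 * goldenRatio - 1) - q) := by
        have hD : (2 * goldenRatio - 1) * ((c1 - c2) / (2 * goldenRatio - 1)) = c1 - c2 :=
          mul_div_cancel₀ _ hs5.ne'
        rw [hψ]
        linear_combination (-2) * hD - 2 * hc1 + 2 * hc2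
      rw [this, abs_mul, abs_of_pos (by linarith)]
      calc 2 * (2 * goldenRatio - 1) * |(c1 - c2) / (2 * goldenRatio - 1) - q|
          ≤ 2 * (2 * goldenRatio - 1) * (1 / 2) := by gcongr
        _ = 2 * goldenRatio - 1 := by ring
    · have : (goldenRatio - 1) * (x 0 - (p + q * goldenRatio) + (x 1 - (p + q * goldenRatio))) +
          goldenRatio * (x 2 - (p + q * goldenConj) + (x 3 - (p + q * goldenConj))) =
          (2 * (2 * goldenRatio - 1)) *
            (((goldenRatio - 1) * c1 + goldenRatio * c2) / (2 * goldenRatio - 1) - p) := by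
        have hD : (2 * goldenRatio - 1) *
            (((goldenRatio - 1) * c1 + goldenRatio * c2) / (2 * goldenRatio - 1)) =
            (goldenRatio - 1) * c1 + goldenRatio * c2 := mul_div_cancel₀ _ hs5.ne'
        rw [hψ]
        linear_combination (-2) * hD - 2 * (goldenRatio - 1) * hc1 - 2 * goldenRatio * hc2
      rw [this, abs_mul, abs_of_pos (by linarith)]
      calc 2 * (2 * goldenRatio - 1) *
            |((goldenRatio - 1) * c1 + goldenRatio * c2) / (2 * goldenRatio - 1) - p|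
          ≤ 2 * (2 * goldenRatio - 1) * (1 / 2) := by gcongr
        _ = 2 * goldenRatio - 1 := by ring
  · rw [w0, w1]
    have d1 : x 0 - (p + q * goldenRatio) - (x 1 - (p + q * goldenRatio)) = x 0 - x 1 := by ring
    rw [d1, hx1, mul_pow, mul_pow, sq_abs]
  · rw [w2, w3]
    have d2 : x 2 - (p + q * goldenConj) - (x 3 - (p + q * goldenConj)) = x 2 - x 3 := by ring
    rw [d2, hx2, mul_pow, mul_pow, sq_abs, ← hinv, ← abs_zpow, sq_abs]
  · rw [w0, w1, hx3]; ring
  · rw [w2, w3, hx4]; ring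

end Pool.Agent.H16.Dav
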