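import Pool.Agent.H16.Dav.Defs

/-!
# Golden points

MODULE D1.  If all coordinates of `v` lie in `(n, n+3)` and all `|∏ (v i + k)| ≥ 1` then `v` is, up to
an integer translation and a permutation of the coordinates, `(φ, φ, ψ, ψ)`.

Proof.  Put `t i = v i - n ∈ (0,3)`.  With `k = -n, -n-1, -n-2, -n-3` the product of the four
inequalities is `∏ i, |t (t-1) (t-2) (t-3)| ≥ 1`.  With `u = t^2 - 3 t ∈ [-9/4, 0)` one has
`|t (t-1)(t-2)(t-3)| = |u (u+2)| ≤ 1` on `[-9/4, 0]` with equality only if `u = -1`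
(`u (u+2) = (u+1)^2 - 1`), so all four factors are `1` and `t^2 - 3t + 1 = 0`, i.e.
`t = φ + 1` or `t = ψ + 1`  (`φ = Real.goldenRatio`, `ψ = Real.goldenConj`).
Among the four coordinates exactly two are `φ+1`: `∏ t ≥ 1` (so at least two), `∏ (3 - t) ≥ 1`
(so at most two; `3 - (φ+1) = ψ + 1`, `(φ+1)(ψ+1) = 1`, `0 < ψ+1 < 1`).
-/

namespace Pool.Agent.H16.Dav

theorem golden_point (v : Fin 4 → ℝ) (hg : Golden v) (h : ∀ n : ℤ, 1 ≤ |∏ i, (v i + n)|) :
    ∃ (n : ℤ) (π : Equiv.Perm (Fin 4)), ∀ i, v (π i) = n + gam i := by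
  obtain ⟨n, hn⟩ := hg
  have hφ : Real.goldenRatio ^ 2 = Real.goldenRatio + 1 := Real.goldenRatio_sq
  have hψ : Real.goldenConj ^ 2 = Real.goldenConj + 1 := Real.goldenConj_sq
  have hs : Real.goldenRatio + Real.goldenConj = 1 := Real.goldenRatio_add_goldenConj
  have hm : Real.goldenRatio * Real.goldenConj = -1 := Real.goldenRatio_mul_goldenConj
  have hφ1 : 1 < Real.goldenRatio := Real.one_lt_goldenRatio
  have hψ0 : Real.goldenConj < 0 := Real.goldenConj_neg
  have hψ1 : -1 < Real.goldenConj := Real.neg_one_lt_goldenConj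
  -- the four products
  have h0 := h (-n)
  have h1 := h (-n - 1)
  have h2 := h (-n - 2)
  have h3 := h (-n - 3)
  have hprod : 1 ≤ ∏ i, |(v i + ((-n : ℤ) : ℝ)) * (v i + ((-n - 1 : ℤ) : ℝ)) *
      (v i + ((-n - 2 : ℤ) : ℝ)) * (v i + ((-n - 3 : ℤ) : ℝ))| := by
    rw [← Finset.abs_prod, Finset.prod_mul_distrib, Finset.prod_mul_distrib,
      Finset.prod_mul_distrib, abs_mul, abs_mul, abs_mul]
    have e1 := one_le_mul_of_one_le_of_one_le h0 h1
    have e2 := one_le_mul_of_one_le_of_one_le e1 h2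
    exact one_le_mul_of_one_le_of_one_le e2 h3
  have hle : ∀ i, |(v i + ((-n : ℤ) : ℝ)) * (v i + ((-n - 1 : ℤ) : ℝ)) *
      (v i + ((-n - 2 : ℤ) : ℝ)) * (v i + ((-n - 3 : ℤ) : ℝ))| ≤ 1 := by
    intro i
    obtain ⟨ha, hb⟩ := hn i
    push_cast
    rw [abs_le]
    set t := v i - n with ht
    have e : (v i + -(n : ℝ)) * (v i + (-(n : ℝ) - 1)) * (v i + (-(n : ℝ) - 2)) *
        (v i + (-(n : ℝ) - 3)) = (t ^ 2 - 3 * t + 1) ^ 2 - 1 := by
      rw [ht]; ring
    rw [e]
    have ht0 : 0 < t := by rw [ht]; linarith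
    have ht3 : t < 3 := by rw [ht]; linarith
    constructor
    · nlinarith [sq_nonneg (t ^ 2 - 3 * t + 1)]
    · have u1 : t ^ 2 - 3 * t + 1 < 1 := by nlinarith
      have u2 : -(5 / 4) ≤ t ^ 2 - 3 * t + 1 := by nlinarith [sq_nonneg (t - 3 / 2)]
      nlinarith
  have heq : ∀ i, |(v i + ((-n : ℤ) : ℝ)) * (v i + ((-n - 1 : ℤ) : ℝ)) *
      (v i + ((-n - 2 : ℤ) : ℝ)) * (v i + ((-n - 3 : ℤ) : ℝ))| = 1 := by
    intro i
    refine le_antisymm (hle i) (hprod.trans ?_)
    rw [← Finset.mul_prod_erase Finset.univ _ (Finset.mem_univ i)]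
    refine (mul_le_mul_of_nonneg_left (Finset.prod_le_one (fun j _ => abs_nonneg _)
      (fun j _ => hle j)) (abs_nonneg _)).trans ?_
    rw [mul_one]
  have key : ∀ i, v i = ((n + 1 : ℤ) : ℝ) + Real.goldenRatio ∨
      v i = ((n + 1 : ℤ) : ℝ) + Real.goldenConj := by
    intro i
    have hi := heq i
    obtain ⟨ha, hb⟩ := hn i
    push_cast at hi ⊢
    set t := v i - n with ht
    have e : (v i + -(n : ℝ)) * (v i + (-(n : ℝ) - 1)) * (v i + (-(n : ℝ) - 2)) *
        (v i + (-(n : ℝ) - 3)) = (t ^ 2 - 3 * t + 1) ^ 2 - 1 := by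
      rw [ht]; ring
    rw [e] at hi
    have ht0 : 0 < t := by rw [ht]; linarith
    have ht3 : t < 3 := by rw [ht]; linarith
    have u1 : t ^ 2 - 3 * t + 1 < 1 := by nlinarith
    have u2 : -(5 / 4) ≤ t ^ 2 - 3 * t + 1 := by nlinarith [sq_nonneg (t - 3 / 2)]
    have hz : t ^ 2 - 3 * t + 1 = 0 := by
      rcases eq_or_eq_neg_of_abs_eq hi with h' | h'
      · exfalso
        nlinarith
      · have : (t ^ 2 - 3 * t + 1) ^ 2 = 0 := by linarith
        exact pow_eq_zero_iff (two_ne_zero) |>.1 this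
    have hf : (t - (Real.goldenRatio + 1)) * (t - (Real.goldenConj + 1)) = 0 := by
      have : (t - (Real.goldenRatio + 1)) * (t - (Real.goldenConj + 1)) =
          t ^ 2 - (Real.goldenRatio + Real.goldenConj + 2) * t +
            (Real.goldenRatio * Real.goldenConj + (Real.goldenRatio + Real.goldenConj) + 1) := by
        ring
      rw [this, hs, hm]
      linarith
    rcases mul_eq_zero.1 hf with h' | h'
    · left; rw [ht] at h'; linarith
    · right; rw [ht] at h'; linarith
  -- the number of large coordinates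
  have hab : (Real.goldenRatio + 1) * (Real.goldenConj + 1) = 1 := by
    have : (Real.goldenRatio + 1) * (Real.goldenConj + 1) =
      Real.goldenRatio * Real.goldenConj + (Real.goldenRatio + Real.goldenConj) + 1 := by ring
    rw [this, hs, hm]; norm_num
  set a := Real.goldenRatio + 1 with haa
  set b := Real.goldenConj + 1 with hbb
  have hb0 : 0 < b := by rw [hbb]; linarith
  have hb1 : b < 1 := by rw [hbb]; linarith
  have ha0 : 0 < a := by rw [haa]; linarith
  have hab3 : a + b = 3 := by rw [haa, hbb]; linarith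
  have hbb1 : b * b < 1 := by nlinarith
  have hbbbb : b * b * b * b < 1 := by
    have : b * b * b * b = (b * b) * (b * b) := by ring
    rw [this]; nlinarith [mul_pos hb0 hb0]
  have h0' : 1 ≤ |(v 0 - n) * (v 1 - n) * (v 2 - n) * (v 3 - n)| := by
    have := h0
    rw [Fin.prod_univ_four] at this
    push_cast at this
    simpa [sub_eq_add_neg] using this
  have h3' : 1 ≤ |(3 - (v 0 - n)) * (3 - (v 1 - n)) * (3 - (v 2 - n)) * (3 - (v 3 - n))| := by
    have := h3
    rw [Fin.prod_univ_four] at this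
    push_cast at this
    convert this using 2
    ring
  have ka : ∀ i, v i = ((n + 1 : ℤ) : ℝ) + Real.goldenRatio → v i - n = a := by
    intro i hi; rw [hi, haa]; push_cast; ring
  have kb : ∀ i, v i = ((n + 1 : ℤ) : ℝ) + Real.goldenConj → v i - n = b := by
    intro i hi; rw [hi, hbb]; push_cast; ring
  have c3a : 3 - a = b := by linarith
  have c3b : 3 - b = a := by linarith
  have bad1 : ¬ 1 ≤ |b * b * b * b| := by
    rw [abs_of_pos (by positivity)]; linarith
  have bad2 : ∀ x, x = b * b → ¬ 1 ≤ |x| := by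
    rintro x rfl
    rw [abs_of_pos (by positivity)]; linarith
  have r1 : a * b * b * b = b * b := by linear_combination (b * b) * hab
  have r2 : b * a * b * b = b * b := by linear_combination (b * b) * hab
  have r3 : b * b * a * b = b * b := by linear_combination (b * b) * hab
  have r4 : b * b * b * a = b * b := by linear_combination (b * b) * hab
  refine ⟨n + 1, ?_⟩
  rcases key 0 with k0 | k0 <;> rcases key 1 with k1 | k1 <;> rcases key 2 with k2 | k2 <;>
    rcases key 3 with k3 | k3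
  -- aaaa
  · exfalso
    rw [ka _ k0, ka _ k1, ka _ k2, ka _ k3, c3a] at h3'
    exact bad1 h3'
  -- aaab
  · exfalso
    rw [ka _ k0, ka _ k1, ka _ k2, kb _ k3, c3a, c3b] at h3'
    exact bad2 _ r4 h3'
  -- aaba
  · exfalso
    rw [ka _ k0, ka _ k1, kb _ k2, ka _ k3, c3a, c3b] at h3'
    exact bad2 _ r3 h3'
  -- aabb
  · refine ⟨1, fun i => ?_⟩
    fin_cases i
    · simpa [gam] using k0
    · simpa [gam] using k1
    · simpa [gam] using k2
    · simpa [gam] using k3
  -- abaa
  · exfalso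
    rw [ka _ k0, kb _ k1, ka _ k2, ka _ k3, c3a, c3b] at h3'
    exact bad2 _ r2 h3'
  -- abab
  · refine ⟨Equiv.swap 1 2, fun i => ?_⟩
    fin_cases i
    · have : (Equiv.swap (1 : Fin 4) 2) 0 = 0 := by decide
      simpa [gam, this] using k0
    · have : (Equiv.swap (1 : Fin 4) 2) 1 = 2 := by decide
      simpa [gam, this] using k2
    · have : (Equiv.swap (1 : Fin 4) 2) 2 = 1 := by decide
      simpa [gam, this] using k1
    · have : (Equiv.swap (1 : Fin 4) 2) 3 = 3 := by decide
      simpa [gam, this] using k3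
  -- abba
  · refine ⟨Equiv.swap 1 3, fun i => ?_⟩
    fin_cases i
    · have : (Equiv.swap (1 : Fin 4) 3) 0 = 0 := by decide
      simpa [gam, this] using k0
    · have : (Equiv.swap (1 : Fin 4) 3) 1 = 3 := by decide
      simpa [gam, this] using k3
    · have : (Equiv.swap (1 : Fin 4) 3) 2 = 2 := by decide
      simpa [gam, this] using k2
    · have : (Equiv.swap (1 : Fin 4) 3) 3 = 1 := by decide
      simpa [gam, this] using k1
  -- abbb
  · exfalso
    rw [ka _ k0, kb _ k1, kb _ k2, kb _ k3] at h0'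
    exact bad2 _ r1 h0'
  -- baaa
  · exfalso
    rw [kb _ k0, ka _ k1, ka _ k2, ka _ k3, c3a, c3b] at h3'
    exact bad2 _ r1 h3'
  -- baab
  · refine ⟨Equiv.swap 0 2, fun i => ?_⟩
    fin_cases i
    · have : (Equiv.swap (0 : Fin 4) 2) 0 = 2 := by decide
      simpa [gam, this] using k2
    · have : (Equiv.swap (0 : Fin 4) 2) 1 = 1 := by decide
      simpa [gam, this] using k1
    · have : (Equiv.swap (0 : Fin 4) 2) 2 = 0 := by decide
      simpa [gam, this] using k0
    · have : (Equiv.swap (0 : Fin 4) 2) 3 = 3 := by decide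
      simpa [gam, this] using k3
  -- baba
  · refine ⟨Equiv.swap 0 3, fun i => ?_⟩
    fin_cases i
    · have : (Equiv.swap (0 : Fin 4) 3) 0 = 3 := by decide
      simpa [gam, this] using k3
    · have : (Equiv.swap (0 : Fin 4) 3) 1 = 1 := by decide
      simpa [gam, this] using k1
    · have : (Equiv.swap (0 : Fin 4) 3) 2 = 2 := by decide
      simpa [gam, this] using k2
    · have : (Equiv.swap (0 : Fin 4) 3) 3 = 0 := by decide
      simpa [gam, this] using k0
  -- babb
  · exfalso
    rw [kb _ k0, ka _ k1, kb _ k2, kb _ k3] at h0'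
    exact bad2 _ r2 h0'
  -- bbaa
  · refine ⟨Equiv.swap 0 2 * Equiv.swap 1 3, fun i => ?_⟩
    fin_cases i
    · have : (Equiv.swap (1 : Fin 4) 3) 0 = 0 := by decide
      simpa [gam, this] using k2
    · have : (Equiv.swap (0 : Fin 4) 2) 3 = 3 := by decide
      simpa [gam, this] using k3
    · have : (Equiv.swap (1 : Fin 4) 3) 2 = 2 := by decide
      simpa [gam, this] using k0
    · have : (Equiv.swap (0 : Fin 4) 2) 1 = 1 := by decide
      simpa [gam, this] using k1
  -- bbab
  · exfalso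
    rw [kb _ k0, kb _ k1, ka _ k2, kb _ k3] at h0'
    exact bad2 _ r3 h0'
  -- bbba
  · exfalso
    rw [kb _ k0, kb _ k1, kb _ k2, ka _ k3] at h0'
    exact bad2 _ r4 h0'
  -- bbbb
  · exfalso
    rw [kb _ k0, kb _ k1, kb _ k2, kb _ k3] at h0'
    exact bad1 h0'

end Pool.Agent.H16.Dav
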