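import Pool.Agent.H16.Dav.Engine

/-!
# Enumeration of the roots of the certificates
-/

namespace Pool.Agent.H16.Dav

/-- Smallest entry. -/
def minF (f : F4) : Int := min (min f.p0 f.p1) (min f.p2 f.p3)

/-- The multiset of the differences to the smallest entry, coded in base `5`. -/
def codeF (f : F4) : Nat :=
  Nat.pow 5 (f.p0 - minF f).toNat + Nat.pow 5 (f.p1 - minF f).toNat +
    (Nat.pow 5 (f.p2 - minF f).toNat + Nat.pow 5 (f.p3 - minF f).toNat)

/-- The codes of the 21 types. -/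
def codes : List Nat :=
  [152, 256, 156, 776, 656, 756, 252, 676, 1276, 652, 3276, 3176, 3376, 632, 1376, 752, 1256, 3776,
    3256, 3156, 3876]

/-- Position in a list, `21` if not found. -/
def posIn (c : Nat) : List Nat → Nat → Nat
  | [], _ => 21
  | d :: l, k => bif Nat.beq c d then k else posIn c l (k + 1)

/-- The type of a vector of floors. -/
def typ (f : F4) : Nat := posIn (codeF f) codes 0

/-- The 21 types. -/
def TYv : Nat → F4
  | 0 => ⟨0, 0, 2, 3⟩
  | 1 => ⟨0, 1, 3, 3⟩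
  | 2 => ⟨0, 1, 2, 3⟩
  | 3 => ⟨0, 2, 3, 4⟩
  | 4 => ⟨0, 1, 2, 4⟩
  | _ => ⟨0, 1, 3, 4⟩

/-- Lower bounds for `100 Q`. -/
def QL : Nat → Int
  | 0 => 2380
  | 1 => 2380
  | 2 => 2395
  | 3 => 2695
  | 4 => 2695
  | 5 => 2795
  | 6 => 3195
  | 7 => 3395
  | 8 => 3470
  | 9 => 3470
  | 10 => 3595
  | 11 => 3630
  | 12 => 3630
  | 13 => 3645
  | 14 => 3645
  | 15 => 3815
  | 16 => 3815
  | 17 => 4000
  | 18 => 4000
  | 19 => 4030
  | 20 => 4030
  | _ => 4240

/-- A loop over `t0 + k - 1, ..., t0`. -/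
def loop (g : Nat → Nat → Option Nat) (t0 : Nat) : Nat → Nat → Option Nat
  | 0, m => some m
  | k + 1, m =>
    match g (t0 + k) m with
    | none => none
    | some m1 => loop g t0 k m1

theorem loop_sound (g : Nat → Nat → Option Nat) (t0 : Nat) : ∀ (k m : Nat) (r : Nat),
    loop g t0 k m = some r → ∀ t, t0 ≤ t → t < t0 + k → ∃ m' r', g t m' = some r' := by
  intro k
  induction k with
  | zero =>
    intro m r _ t h1 h2
    omega
  | succ k ih =>
    intro m r h t h1 h2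
    rw [loop] at h
    cases hg : g (t0 + k) m with
    | none => rw [hg] at h; simp at h
    | some m1 =>
      rw [hg] at h
      simp only at h
      by_cases ht : t = t0 + k
      · rw [ht]
        exact ⟨m, m1, hg⟩
      · exact ih m1 r h t h1 (by omega)

/-- Roots for a single vector: the floors `0, t % 6, t / 6 % 6, t / 36 % 6`. -/
def rootS (t m : Nat) : Option Nat :=
  bif Nat.ble (t % 6) (t / 6 % 6) && (Nat.ble (t / 6 % 6) (t / 36 % 6) && Nat.ble 3 (t / 36 % 6)) then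
    tcheck true (2 * QL (typ ⟨0, (t % 6 : Nat), (t / 6 % 6 : Nat), (t / 36 % 6 : Nat)⟩)) 4
      ⟨⟨0, (t % 6 : Nat), (t / 6 % 6 : Nat), (t / 36 % 6 : Nat)⟩, ⟨0, 0, 0, 0⟩,
        ⟨0, (t % 6 : Nat), (t / 6 % 6 : Nat), (t / 36 % 6 : Nat)⟩,
        [⟨0, 1, 0, 0, false⟩, ⟨0, 1, 1, 0, false⟩, ⟨0, 1, 2, 0, false⟩, ⟨0, 1, 3, 0, false⟩]⟩ m
  else some m

/-- Floors of the sum. -/
def sumF (fx fy : F4) (e : Nat) : F4 :=
  ⟨fx.p0 + fy.p0 + (e % 2 : Nat), fx.p1 + fy.p1 + (e / 2 % 2 : Nat),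
    fx.p2 + fy.p2 + (e / 4 % 2 : Nat), fx.p3 + fy.p3 + (e / 8 % 2 : Nat)⟩

/-- Floors of the negative. -/
def negF (f : F4) : F4 := ⟨-f.p0 - 1, -f.p1 - 1, -f.p2 - 1, -f.p3 - 1⟩

/-- One root for a pair. -/
def rootE (i : Nat) (fy : F4) (j e m : Nat) : Option Nat :=
  bif Nat.ble j (typ (negF (sumF (TYv i) fy e))) &&
      (Nat.ble (typ (negF (sumF (TYv i) fy e))) 20 &&
        decide (QL i + QL j + QL (typ (negF (sumF (TYv i) fy e))) < 9000)) then
    tcheck false 9000 64 ⟨TYv i, fy, sumF (TYv i) fy e, []⟩ m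
  else some m

/-- The floors with number `t`. -/
def decF (t : Nat) : F4 :=
  ⟨(t % 6 : Nat), (t / 6 % 6 : Nat), (t / 36 % 6 : Nat), (t / 216 : Nat)⟩

/-- All roots with given floors of `x` and `y`. -/
def rootY (i t m : Nat) : Option Nat :=
  bif decide (minF (decF t) = 0) && (Nat.ble i (typ (decF t)) && Nat.ble (typ (decF t)) 20 &&
      decide (QL i + 2 * QL (typ (decF t)) < 9000)) then
    loop (rootE i (decF t) (typ (decF t))) 0 16 m
  else some m

end Pool.Agent.H16.Dav
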